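import Pool.Agent.U832.RH.GeD
import Pool.Agent.U832.RG.FixedUse
import Pool.Agent.U832.RG.Slopes

/-!
# The law around almost primes, for fixed systems of polynomials and for linear forms with distinct slopes
-/

set_option autoImplicit false

namespace Pool.Agent.U832.RH

open Polynomial Finset Filter
open Pool.Agent.U832.RG

/-- The `n` for which `g n` has at most `R` prime factors, counted with multiplicity, all of them `> z`. -/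
def Almost (g : ℕ → ℕ) (R z : ℕ) : Set ℕ :=
  {n | n ∈ Rough g z ∧ (g n).primeFactorsList.length ≤ R}

lemma almost_mem (g : ℕ → ℕ) (G x z n : ℕ) (w : ℝ) (hw : 0 < w) (hx : 2 ≤ x) (hz : z = ⌊(x : ℝ) ^ w⌋₊) (hz2 : 2 ≤ z)
    (hG : g n ≤ x ^ G) : n ∈ Almost g ⌊(G : ℝ) / w⌋₊ z ↔ n ∈ Rough g z := by
  refine ⟨fun h => h.1, fun h => ⟨h, ?_⟩⟩
  apply few_factors x w G hx hw
  · intro h0
    exact h 2 Nat.prime_two hz2 (by rw [h0]; exact dvd_zero 2)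
  · rw [Real.rpow_natCast]
    exact_mod_cast hG
  · intro p hp hpz
    exact h p hp (by rw [hz]; exact hpz)

open Pool.Agent.W123.RP Pool.Agent.H373R2.T7 Pool.Agent.W123.RU Pool.Agent.W123.RU.Poly
open Pool.Agent.TH464.PW Pool.Agent.TH464.PO Pool.Agent.Y879.GL

variable {k : ℕ}

/-- **Fixed systems.** -/
theorem fixedG (f : Fin k → ℤ[X]) (hf : Sys f) (hk : 1 ≤ k) (hT : NoShift f) (g : ℕ → ℕ)
    (hg : ∀ n : ℕ, (g n : ℤ) = ∏ i, (f i).eval (n : ℤ)) (G : ℕ) (hG : ∀ᶠ x : ℕ in atTop, ∀ n ≤ x, g n ≤ x ^ G)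
    (θ : ℝ) (hθ : 0 < θ) (δ : ℝ) (hδ : 0 < δ) :
    ∃ w : ℝ, 0 < w ∧ ∀ (J L : ℕ) (x₀ ε : ℝ), 0 < ε → ∃ r₀ : ℕ, ∀ r : ℕ, r₀ ≤ r → ∀ᶠ x : ℕ in atTop,
      ∀ y z : ℕ, y = ⌊(x : ℝ) ^ (1 / (r : ℝ))⌋₊ → z = ⌊(x : ℝ) ^ w⌋₊ → ∀ Z Y T : ℕ, (x : ℝ) ^ θ ≤ Y →
        T * V g y ≤ x₀ → Z + Y + T ≤ x →
        CentreLaw (Almost g ⌊(G : ℝ) / w⌋₊ z) (Rough g y) (V g z) (V g y) J L δ ε Z Y T := by
  obtain ⟨D, hD⟩ := fixed_us f hf hT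
  obtain ⟨w, hw, hh⟩ := lawG_polys k D 1 1 θ one_pos one_pos hθ δ hδ
  refine ⟨w, hw, ?_⟩
  intro J L x₀ ε hε
  obtain ⟨r0, h⟩ := hh w hw le_rfl J L x₀ ε hε
  refine ⟨max r0 2, fun r hr => ?_⟩
  obtain ⟨Cv, hCv, hV⟩ := fixed_V f hf hk r ((le_max_right _ _).trans hr)
  have hpow : Tendsto (fun X : ℕ => (X : ℝ) ^ w) atTop atTop :=
    (tendsto_rpow_atTop hw).comp tendsto_natCast_atTop_atTop
  filter_upwards [h r ((le_max_left _ _).trans hr) Cv, hD, hV, hG, eventually_ge_atTop 2,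
    hpow.eventually_ge_atTop 2] with x hX hDX hVX hGx hx2 hxw
  intro y z hy hz Z Y T hY hT' hZx
  have hz2 : 2 ≤ z := by
    rw [hz]
    exact Nat.le_floor (by exact_mod_cast hxw)
  have h4 := hX y z hy hz f (hDX _) (by rw [hy]; exact hVX) Z Y hY T
  rw [fu_V f g hg, fu_V f g hg] at h4
  exact h4 hT' (Almost g ⌊(G : ℝ) / w⌋₊ z) (Rough g y) (fun m _ => fu_rough f g hg y m)
    (fun m hm => (almost_mem g G x z m w hw hx2 hz hz2 (hGx m (by omega))).trans (fu_rough f g hg z m))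

/-- **Linear forms with distinct slopes.** -/
theorem lawG_ls (k : ℕ) (hk : 2 ≤ k) (A θ : ℝ) (hA : 0 < A) (hθ : 0 < θ) (δ : ℝ) (hδ : 0 < δ) :
    ∃ w : ℝ, 0 < w ∧ ∀ (J L : ℕ) (x0 ε : ℝ), 0 < ε →
    ∃ r0 : ℕ, ∀ r : ℕ, r0 ≤ r → ∀ᶠ X : ℕ in atTop,
      ∀ y z : ℕ, y = ⌊(X : ℝ) ^ (1 / (r : ℝ))⌋₊ → z = ⌊(X : ℝ) ^ w⌋₊ → ∀ a b : Fin k → ℤ, LS a b →
      (∀ i, |(a i : ℝ)| ≤ (X : ℝ) ^ A) → (∀ i, |(b i : ℝ)| ≤ (X : ℝ) ^ A) →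
      ∀ Z Y : ℕ, (X : ℝ) ^ θ ≤ Y → ∀ T : ℕ, T * Vq (Q (ls a b)) y ≤ x0 →
      ∀ A' S : Set ℕ, (∀ m ≤ Z + Y + T, (m ∈ S ↔ Sf (Q (ls a b)) y m)) →
        (∀ m ≤ Z + Y + T, (m ∈ A' ↔ Sf (Q (ls a b)) z m)) →
        CentreLaw A' S (Vq (Q (ls a b)) z) (Vq (Q (ls a b)) y) J L δ ε Z Y T := by
  obtain ⟨w, hw, hh⟩ := lawG_polys k 1 A 1 θ hA one_pos hθ δ hδ
  refine ⟨w, hw, ?_⟩
  intro J L x0 ε hε
  obtain ⟨r0, h⟩ := hh w hw le_rfl J L x0 ε hε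
  refine ⟨max r0 2, fun r hr => ?_⟩
  obtain ⟨M, hM, hV⟩ := ls_V A hA r ((le_max_right _ _).trans hr)
  filter_upwards [h r ((le_max_left _ _).trans hr) M, hV] with X hX hVX y z hy hz a b hL haX hbX
  exact hX y z hy hz (ls a b) (ls_us hL _ _ haX hbX) (by rw [hy]; exact hVX k a b hk hL haX hbX)

end Pool.Agent.U832.RH
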