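import Pool.Agent.U832.RH.PrE
import Pool.Agent.Y882.SI.Quad
import Pool.Agent.Y882.MG.Quad2

/-!
# Almost prime values of `n ^ 2 + a` and the windows around them
-/

set_option autoImplicit false

namespace Pool.Agent.U832.RH

open Polynomial Finset Filter
open Pool.Agent.W123.RP Pool.Agent.H373R2.T7 Pool.Agent.W123.RU Pool.Agent.W123.RU.Poly
open Pool.Agent.TH464.PO Pool.Agent.Y879.GL Pool.Agent.TH464.PW
open Pool.Agent.U832.RG
open Pool.Agent.W23.DC Pool.Agent.Y882.KW Pool.Agent.Y882.SI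

lemma nuB_sg (F : ℤ[X]) (p : ℕ) : nuB (Poly.Q (sg F)) p = Pool.Agent.Y882.PX.ro F 0 p := by
  classical
  rw [Pool.Agent.Y882.PX.ro_eq]
  unfold nuB
  congr 1
  ext m
  rw [mem_filter, mem_filter, sg_Q, add_zero]

/-- the parameters -/
lemma params (θ D : ℝ) (hθ : 0 < θ) (g : ℝ) (hg : 0 < g) (hD : 25 / 24 * g < D * θ) :
    ∃ τ S : ℝ, 0 < τ ∧ τ < θ ∧ θ / 5 ≤ τ / 4 ∧ g < S ∧ S / (24 / 25 * τ) = D := by
  have hD0 : 0 < D := by
    by_contra h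
    push Not at h
    have : D * θ ≤ 0 := mul_nonpos_of_nonpos_of_nonneg h hθ.le
    nlinarith
  obtain ⟨τ, hτ⟩ : ∃ τ, τ = max ((θ + 25 / 24 * g / D) / 2) (9 / 10 * θ) := ⟨_, rfl⟩
  have h1 : 25 / 24 * g / D < θ := by rw [div_lt_iff₀ hD0]; linarith
  have h2 : τ < θ := by
    rw [hτ]
    apply max_lt <;> linarith
  have h3 : 9 / 10 * θ ≤ τ := by rw [hτ]; exact le_max_right _ _
  have h4 : (θ + 25 / 24 * g / D) / 2 ≤ τ := by rw [hτ]; exact le_max_left _ _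
  have h5 : 25 / 24 * g / D < τ := by linarith
  have hτ0 : 0 < τ := by linarith
  refine ⟨τ, 24 / 25 * τ * D, hτ0, h2, by linarith, ?_, by field_simp⟩
  rw [div_lt_iff₀ hD0] at h5
  linarith

lemma hval_of (F : ℤ[X]) (g S : ℝ) (B : ℕ) (hB : ∀ m : ℕ, 1 ≤ m → ((F.eval (m : ℤ)).natAbs : ℝ) ≤ B * (m : ℝ) ^ g)
    (h0 : ((F.eval (0 : ℤ)).natAbs : ℝ) ≤ B) (hg : 0 < g) (hS : g < S) :
    ∀ᶠ X : ℕ in atTop, ∀ m : ℕ, m ≤ 2 * X → ((F.eval (m : ℤ)).natAbs : ℝ) ≤ (X : ℝ) ^ S := by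
  have hpow : Tendsto (fun X : ℕ => (X : ℝ) ^ (S - g)) atTop atTop :=
    (tendsto_rpow_atTop (by linarith)).comp tendsto_natCast_atTop_atTop
  filter_upwards [hpow.eventually_ge_atTop (B * 2 ^ g), eventually_ge_atTop 1] with X hX hX1
  intro m hm
  have hX1r : (1 : ℝ) ≤ X := by exact_mod_cast hX1
  have hXpos : (0 : ℝ) < X := by linarith
  have hB0 : (0 : ℝ) ≤ B := Nat.cast_nonneg B
  have h2g : (1 : ℝ) ≤ 2 ^ g := Real.one_le_rpow (by norm_num) hg.le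
  have h1 : ((F.eval (m : ℤ)).natAbs : ℝ) ≤ B * (2 ^ g * (X : ℝ) ^ g) := by
    rcases Nat.eq_zero_or_pos m with h | h
    · subst h
      have hXg : (1 : ℝ) ≤ (X : ℝ) ^ g := Real.one_le_rpow hX1r hg.le
      refine h0.trans ?_
      calc (B : ℝ) = B * 1 := (mul_one _).symm
        _ ≤ B * (2 ^ g * (X : ℝ) ^ g) := mul_le_mul_of_nonneg_left (by nlinarith) hB0
    · refine (hB m h).trans (mul_le_mul_of_nonneg_left ?_ hB0)
      rw [← Real.mul_rpow (by norm_num) hXpos.le]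
      apply Real.rpow_le_rpow (by positivity) _ hg.le
      exact_mod_cast hm
  refine h1.trans ?_
  calc (B : ℝ) * (2 ^ g * (X : ℝ) ^ g) = (B * 2 ^ g) * (X : ℝ) ^ g := by ring
    _ ≤ (X : ℝ) ^ (S - g) * (X : ℝ) ^ g := mul_le_mul_of_nonneg_right hX (by positivity)
    _ = (X : ℝ) ^ S := by
        rw [← Real.rpow_add hXpos]
        congr 1
        ring

/-- **The law for `n ^ 2 + a`.** -/
theorem quad_law (a : ℤ) (ha : ∀ m : ℤ, a ≠ -m ^ 2) (θ : ℝ) (hθ : 0 < θ) (hθ1 : θ ≤ 1) (R : ℕ)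
    (hR : 9 / 8 + 25 / (12 * θ) < R + 1) :
    ∃ w : ℝ, θ / 5 ≤ w ∧ w ≤ θ / 4 ∧ ∃ c Cu : ℝ, 0 < c ∧ 0 < Cu ∧ ∀ (J L : ℕ) (x₀ ε : ℝ), 0 < ε → ∃ r₀ : ℕ,
      ∀ r : ℕ, r₀ ≤ r →
      ∀ᶠ X : ℕ in atTop, ∀ y : ℕ, y = ⌊(X : ℝ) ^ (1 / (r : ℝ))⌋₊ → ∀ Z Y T : ℕ, Z + Y ≤ X → (X : ℝ) ^ θ ≤ Y →
      T * Vq (Poly.Q (sg (QF a))) y ≤ x₀ → ∀ (s : ℕ) (d e k : Fin J → ℕ), Windows T s d e → (∀ j, k j ≤ L) →
      (c * ∏ j, po (k j) (((e j - d j : ℕ) : ℝ) * Vq (Poly.Q (sg (QF a))) y) - ε) * (Y / Real.log X) ≤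
        cntAP (QF a) R ((X : ℝ) ^ w) y s d e k Z Y ∧
      (cntR (QF a) ((X : ℝ) ^ w) y s d e k Z Y : ℝ) ≤
        (Cu * ∏ j, po (k j) (((e j - d j : ℕ) : ℝ) * Vq (Poly.Q (sg (QF a))) y) + ε) * (Y / Real.log X) := by
  have hsq : ¬ IsSquare (-a) := by
    rintro ⟨r, hr⟩
    apply ha r
    nlinarith
  have ha0 : a ≠ 0 := by
    intro h
    apply ha 0
    rw [h]
    norm_num
  have hdeg : (QF a).natDegree = 2 := by
    unfold QF
    compute_degree!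
  have hmon : (QF a).Monic := by
    unfold QF
    monicity!
  obtain ⟨τ, S, hτ0, hτθ, hτ5, hS2, hSD⟩ := params θ (R + 1 - 9 / 8) hθ 2 (by norm_num) (by
    have h1 : 25 / (12 * θ) < (R : ℝ) + 1 - 9 / 8 := by linarith
    rw [div_lt_iff₀ (by positivity)] at h1
    linarith)
  have hυ1 : 24 / 25 * τ ≤ 1 := by linarith
  obtain ⟨c, Cu, hc, hCu, H⟩ := pr_law (QF a) (QF_irred a hsq) (by rw [hdeg]; norm_num)
    (by rw [hmon.leadingCoeff]; norm_num) (fun p hp => by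
      have hno : ∀ q : ℕ, q.Prime → ¬ ((q : ℤ) ∣ 1 ∧ (q : ℤ) ∣ 0 ∧ (q : ℤ) ∣ a) := by
        intro q hq h1
        have := Int.natCast_dvd_natCast.1 (by exact_mod_cast h1.1 : (q : ℤ) ∣ ((1 : ℕ) : ℤ))
        exact hq.one_lt.ne' (Nat.dvd_one.1 this)
      obtain ⟨m, hm⟩ := quad_adm 1 0 a hno (by
        intro h1
        have := h1.1
        norm_num at this) p hp
      refine ⟨m, ?_⟩
      rw [QF_eval]
      rw [quad_eval] at hm
      intro h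
      apply hm
      convert h using 1
      ring) θ τ S hτ0 hτθ hθ1 R (by rw [hSD]; linarith)
    (hval_of (QF a) 2 S (a.natAbs + 1) (by
      intro m hm
      rw [QF_eval]
      have hm1 : (1 : ℝ) ≤ (m : ℝ) ^ 2 := one_le_pow₀ (by exact_mod_cast hm)
      rw [Nat.cast_add, Nat.cast_natAbs, Nat.cast_natAbs, Real.rpow_two]
      push_cast
      calc |(m : ℝ) ^ 2 + a| ≤ |(m : ℝ) ^ 2| + |(a : ℝ)| := abs_add_le _ _
        _ = (m : ℝ) ^ 2 + |(a : ℝ)| := by rw [abs_of_nonneg (by positivity)]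
        _ ≤ (|(a : ℝ)| + 1) * (m : ℝ) ^ 2 := by nlinarith [abs_nonneg (a : ℝ)]) (by
      rw [QF_eval, show ((0 : ℤ) ^ 2 + a) = a by ring]
      push_cast
      linarith) (by norm_num) hS2)
    (fun ε₁ η hε₁ hη => by
      obtain ⟨Y0, hY0⟩ := mer_quad a hsq ε₁ (24 / 25 * τ) η hε₁ hυ1 hη
      filter_upwards [eventually_ge_atTop Y0] with X hX
      have h := hY0 X hX
      have e : (fun p : ℕ => (nuB (Poly.Q (sg (QF a))) p : ℝ) / p) =
          fun p : ℕ => (Pool.Agent.Y882.PX.ro (QF a) 0 p : ℝ) / p := by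
        funext p
        rw [nuB_sg]
      rw [e]
      exact h)
    2 (a.natAbs + 3) (fun q hq hq0 N H => by
      exact_mod_cast Pool.Agent.Y882.MG.sq_countS a ha0 q hq (by omega) (by omega) N H)
  exact ⟨τ / 4, hτ5, by linarith, c, Cu, hc, hCu, H⟩

end Pool.Agent.U832.RH
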