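import Pool.Agent.U832.RH.GeE
import Pool.Agent.U832.RG.FixedPrime

/-!
# The law around primes, almost primes and arbitrary integers, for fixed systems
-/

set_option autoImplicit false

namespace Pool.Agent.U832.RH

open Polynomial Finset Filter
open Pool.Agent.U832.RG
open Pool.Agent.W123.RP Pool.Agent.H373R2.T7 Pool.Agent.W123.RU Pool.Agent.W123.RU.Poly
open Pool.Agent.TH464.PW Pool.Agent.TH464.PO Pool.Agent.Y879.GL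

variable {k : ℕ}

/-- **The three laws for fixed systems.** -/
theorem fixed_primeG (f : Fin k → ℤ[X]) (hf : Sys f) (hk : 1 ≤ k) (hT : NoShift f)
    (hb : ∃ i, ∀ n : ℕ, (f i).eval (n : ℤ) = n) (g : ℕ → ℕ)
    (hg : ∀ n : ℕ, (g n : ℤ) = ∏ i, (f i).eval (n : ℤ)) (G : ℕ) (hG : ∀ᶠ x : ℕ in atTop, ∀ n ≤ x, g n ≤ x ^ G)
    (θ δ η : ℝ) (hθ : 0 < θ) (hδ : 0 < δ) (hδ1 : δ ≤ 1) (hη : 0 < η) :
    ∃ w : ℝ, 0 < w ∧ ∃ R : ℕ, ∀ (J L : ℕ) (x₀ ε : ℝ), 0 < ε → ∃ r₀ : ℕ, ∀ r : ℕ, r₀ ≤ r → ∀ᶠ x : ℕ in atTop,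
      ∀ y z : ℕ, y = ⌊(x : ℝ) ^ (1 / (r : ℝ))⌋₊ → z = ⌊(x : ℝ) ^ w⌋₊ → ∀ T : ℕ, T * V g y ≤ x₀ →
        (∀ X Z Y : ℕ, (x : ℝ) ^ θ ≤ X → δ * X ≤ Z → δ * X ≤ Y → Z + Y ≤ X →
          PrimeLaw (Rough g y) (V g y) y J L ε X Z Y T) ∧
        ∀ Z Y : ℕ, (x : ℝ) ^ θ ≤ Y → PoissonLaw (Rough g y) (V g y) J L ε Z Y T ∧
          (Z + Y + T ≤ x → CentreLaw (Almost g R z) (Rough g y) (V g z) (V g y) J L η ε Z Y T) := by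
  obtain ⟨w, hw, h⟩ := fixedG f hf hk hT g hg G hG θ hθ η hη
  refine ⟨w, hw, ⌊(G : ℝ) / w⌋₊, ?_⟩
  intro J L x₀ ε hε
  obtain ⟨r₁, h1⟩ := fixed_prime f hf hk hT hb g hg θ δ hθ hδ hδ1 J L x₀ ε hε
  obtain ⟨r₂, h2⟩ := h J L x₀ ε hε
  refine ⟨max r₁ r₂, fun r hr => ?_⟩
  filter_upwards [h1 r ((le_max_left _ _).trans hr), h2 r ((le_max_right _ _).trans hr)] with x hx1 hx2
  intro y z hy hz T hTx
  obtain ⟨h3, h4⟩ := hx1 y hy T hTx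
  exact ⟨h3, fun Z Y hY => ⟨h4 Z Y hY, fun hZ => hx2 y z hy hz Z Y T hY hTx hZ⟩⟩

end Pool.Agent.U832.RH
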