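import Pool.Agent.U832.RG.Defs

/-!
# Definition: the number of the elements of a set with given windows
-/

set_option autoImplicit false

namespace Pool.Agent.U832.RH

open Finset Pool.Agent.U832.RG

open Classical in
/-- The number of the `n` in `(Z, Z + Y]` with `n + s ∈ A` for which every window `(n + a j, n + b j]` contains
exactly `k j` elements of `S`. -/
noncomputable def seen {J : ℕ} (A S : Set ℕ) (s : ℕ) (a b k : Fin J → ℕ) (Z Y : ℕ) : ℕ :=
  ((Ioc Z (Z + Y)).filter (fun n => n + s ∈ A ∧ Counts S a b k n)).card

end Pool.Agent.U832.RH
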