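import Pool.Agent.U832.RH.PrE
import Pool.Agent.U832.RH.Defs

/-!
# The laws in terms of sets
-/

set_option autoImplicit false

namespace Pool.Agent.U832.RH

open Polynomial Finset Filter
open Pool.Agent.W123.RP Pool.Agent.H373R2.T7 Pool.Agent.W123.RU Pool.Agent.W123.RU.Poly
open Pool.Agent.U832.RG
open Pool.Agent.TH464.PO (Sf)

open Classical in
lemma counts_iff {J : ℕ} (F : ℤ[X]) (y : ℕ) (S : Set ℕ) (hS : ∀ m, m ∈ S ↔ Sf (Poly.Q (sg F)) y m)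
    (a b k : Fin J → ℕ) (n : ℕ) :
    Counts S a b k n ↔ ∀ j, ((Ioc (n + a j) (n + b j)).filter (Sf (Poly.Q (sg F)) y)).card = k j := by
  unfold Counts
  apply forall_congr'
  intro j
  have : (Ioc (n + a j) (n + b j)).filter (fun m => m ∈ S) =
      (Ioc (n + a j) (n + b j)).filter (Sf (Poly.Q (sg F)) y) := by
    ext m
    rw [mem_filter, mem_filter, hS]
  rw [this]

open Classical in
lemma cntAP_le {J : ℕ} (F : ℤ[X]) (R : ℕ) (w : ℝ) (y s : ℕ) (a b k : Fin J → ℕ) (Z Y : ℕ) (A S : Set ℕ)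
    (hS : ∀ m, m ∈ S ↔ Sf (Poly.Q (sg F)) y m)
    (hA : ∀ m : ℕ, (F.eval (m : ℤ)).natAbs.primeFactorsList.length ≤ R →
      (∀ p : ℕ, p.Prime → p ∣ (F.eval (m : ℤ)).natAbs → w ≤ p) → m ∈ A) :
    cntAP F R w y s a b k Z Y ≤ seen A S s a b k Z Y := by
  unfold cntAP seen
  apply card_le_card
  intro n hn
  rw [mem_filter] at hn ⊢
  refine ⟨hn.1, hA (n + s) hn.2.1.1 hn.2.1.2, ?_⟩
  rw [counts_iff F y S hS]
  exact hn.2.2

open Classical in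
lemma le_cntR {J : ℕ} (F : ℤ[X]) (w : ℝ) (y s : ℕ) (a b k : Fin J → ℕ) (Z Y : ℕ) (A S : Set ℕ)
    (hS : ∀ m, m ∈ S ↔ Sf (Poly.Q (sg F)) y m)
    (hA : ∀ m ∈ A, ∀ p : ℕ, p.Prime → (p : ℝ) < w → ¬ (p : ℤ) ∣ F.eval (m : ℤ)) :
    seen A S s a b k Z Y ≤ cntR F w y s a b k Z Y := by
  unfold cntR seen
  apply card_le_card
  intro n hn
  rw [mem_filter] at hn ⊢
  refine ⟨hn.1, hA (n + s) hn.2.1, ?_⟩
  have h := hn.2.2
  rw [counts_iff F y S hS] at h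
  exact h

end Pool.Agent.U832.RH
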