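import Pool.Agent.U832.RH.GenL
import Pool.Agent.U832.RH.Use
import Pool.Agent.U832.RG.FixedUse

/-!
# Almost prime values of an irreducible polynomial and the windows around them, in terms of sets
-/

set_option autoImplicit false

namespace Pool.Agent.U832.RH

open Finset Filter Pool.Agent.U832.RG

/-- The `n` for which `g n` has at most `R` prime factors, counted with multiplicity, and all of them are `≥ z`. -/
def AlmostPrime (g : ℕ → ℕ) (R : ℕ) (z : ℝ) : Set ℕ :=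
  {n | (g n).primeFactorsList.length ≤ R ∧ ∀ p : ℕ, p.Prime → p ∣ g n → z ≤ p}

/-- The `n` for which `g n` has no prime factor `< z`. -/
def FreeOf (g : ℕ → ℕ) (z : ℝ) : Set ℕ := {n | ∀ p : ℕ, p.Prime → (p : ℝ) < z → ¬ p ∣ g n}

section aux

open Polynomial
open Pool.Agent.H373R2.T7 Pool.Agent.W123.RP
open Pool.Agent.TH464.PO (Sf)

lemma genP_rough (F : ℤ[X]) (g : ℕ → ℕ) (hg : ∀ m : ℕ, g m = (F.eval (m : ℤ)).natAbs) (y n : ℕ) :
    n ∈ Rough g y ↔ Sf (Pool.Agent.W123.RU.Poly.Q (sg F)) y n := by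
  unfold Sf Rough
  simp only [sg_Q, mem_pz, Set.mem_ofPred_eq, hg, Int.natCast_dvd]
  constructor
  · exact fun h p hp => h p hp.2 hp.1
  · exact fun h p hp hpy => h p ⟨hpy, hp⟩

lemma genP_V (F : ℤ[X]) (g : ℕ → ℕ) (hg : ∀ m : ℕ, g m = (F.eval (m : ℤ)).natAbs) (y : ℕ) :
    Vq (Pool.Agent.W123.RU.Poly.Q (sg F)) y = V g y := by
  classical
  have hpz : pz y = (Icc 1 y).filter Nat.Prime := by
    ext p
    rw [mem_pz, mem_filter, mem_Icc]
    constructor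
    · exact fun h => ⟨⟨h.2.one_lt.le, h.1⟩, h.2⟩
    · exact fun h => ⟨h.1.2, h.2⟩
  unfold Vq V
  rw [hpz]
  apply Finset.prod_congr rfl
  intro p _
  congr 3
  unfold w nuB
  congr 1
  ext m
  rw [mem_filter, mem_filter, sg_Q, hg, Int.natCast_dvd]

end aux

open Polynomial in
/-- **The law for the values of an irreducible polynomial.** -/
theorem genP (F : ℤ[X]) (hF : Irreducible F) (hd : 0 < F.natDegree) (hl : 0 < F.leadingCoeff)
    (hadm : ∀ p : ℕ, p.Prime → ∃ m : ℕ, ¬ (p : ℤ) ∣ F.eval (m : ℤ)) (g : ℕ → ℕ)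
    (hg : ∀ m : ℕ, g m = (F.eval (m : ℤ)).natAbs) (θ : ℝ) (hθ : 0 < θ) (hθ1 : θ ≤ 1)
    (R : ℕ) (hR : 9 / 8 + 25 * F.natDegree / (24 * θ) < R + 1) :
    ∃ c C : ℝ, 0 < c ∧ 0 < C ∧ ∀ (J L : ℕ) (x₀ ε : ℝ), 0 < ε → ∃ r₀ : ℕ, ∀ r : ℕ, r₀ ≤ r → ∀ᶠ X : ℕ in atTop,
      ∀ y : ℕ, y = ⌊(X : ℝ) ^ (1 / (r : ℝ))⌋₊ →
      ∀ Z Y T : ℕ, Z + Y ≤ X → (X : ℝ) ^ θ ≤ Y → T * V g y ≤ x₀ →
      ∀ (s : ℕ) (d e l : Fin J → ℕ), Windows T s d e → (∀ j, l j ≤ L) →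
      (c * ∏ j, poisson (l j) ((e j - d j : ℕ) * V g y) - ε) * (Y / Real.log X) ≤
        seen (AlmostPrime g R ((X : ℝ) ^ (θ / 5))) (Rough g y) s d e l Z Y ∧
      (seen (FreeOf g ((X : ℝ) ^ (θ / 4))) (Rough g y) s d e l Z Y : ℝ) ≤
        (C * ∏ j, poisson (l j) ((e j - d j : ℕ) * V g y) + ε) * (Y / Real.log X) := by
  obtain ⟨w, hw1, hw2, c, C, hc, hC, H⟩ := gen_law F hF hd hl hadm θ hθ hθ1 R hR
  refine ⟨c, C, hc, hC, ?_⟩
  intro J L x₀ ε hε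
  obtain ⟨r₀, H'⟩ := H J L x₀ ε hε
  refine ⟨r₀, fun r hr => ?_⟩
  filter_upwards [H' r hr, eventually_ge_atTop 1] with X hX hX1
  intro y hy Z Y T hZ hY hT s d e l hwin hk
  have hX1r : (1 : ℝ) ≤ X := by exact_mod_cast hX1
  have h := hX y hy Z Y T hZ hY (by rw [genP_V F g hg]; exact hT) s d e l hwin hk
  rw [genP_V F g hg] at h
  obtain ⟨h1, h2⟩ := h
  refine ⟨h1.trans ?_, le_trans ?_ h2⟩
  · have h3 := cntAP_le F R ((X : ℝ) ^ w) y s d e l Z Y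
      (AlmostPrime g R ((X : ℝ) ^ (θ / 5))) (Rough g y) (fun m => genP_rough F g hg y m) (fun m hm1 hm2 => by
        rw [← hg] at hm1 hm2
        refine ⟨hm1, fun p hp hpd => ?_⟩
        refine le_trans ?_ (hm2 p hp hpd)
        exact Real.rpow_le_rpow_of_exponent_le hX1r hw1)
    exact_mod_cast h3
  · have h3 := le_cntR F ((X : ℝ) ^ w) y s d e l Z Y
      (FreeOf g ((X : ℝ) ^ (θ / 4))) (Rough g y) (fun m => genP_rough F g hg y m) (fun m hm p hp hpw => by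
        rw [Int.natCast_dvd, ← hg]
        exact hm p hp (hpw.trans_le (Real.rpow_le_rpow_of_exponent_le hX1r hw2)))
    exact_mod_cast h3

end Pool.Agent.U832.RH
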