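import Pool.Agent.U832.RH.QuI
import Pool.Agent.Y882.MG.Lin

/-!
# Almost primes in short intervals and the windows around them
-/

set_option autoImplicit false

namespace Pool.Agent.U832.RH

open Polynomial Finset Filter
open Pool.Agent.W123.RP Pool.Agent.H373R2.T7 Pool.Agent.W123.RU Pool.Agent.W123.RU.Poly
open Pool.Agent.TH464.PO Pool.Agent.Y879.GL Pool.Agent.TH464.PW
open Pool.Agent.U832.RG
open Pool.Agent.W23.DC Pool.Agent.Y882.KW Pool.Agent.Y882.SI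
open Pool.Agent.Y882.MG (LF LF_eval sq_lin mer_lin)

/-- **The law for `n`.** -/
theorem lin_law (θ : ℝ) (hθ : 0 < θ) (hθ1 : θ ≤ 1) (R : ℕ) (hR : 9 / 8 + 25 / (24 * θ) < R + 1) :
    ∃ w : ℝ, θ / 5 ≤ w ∧ w ≤ θ / 4 ∧ ∃ c Cu : ℝ, 0 < c ∧ 0 < Cu ∧ ∀ (J L : ℕ) (x₀ ε : ℝ), 0 < ε → ∃ r₀ : ℕ,
      ∀ r : ℕ, r₀ ≤ r →
      ∀ᶠ X : ℕ in atTop, ∀ y : ℕ, y = ⌊(X : ℝ) ^ (1 / (r : ℝ))⌋₊ → ∀ Z Y T : ℕ, Z + Y ≤ X → (X : ℝ) ^ θ ≤ Y →
      T * Vq (Poly.Q (sg LF)) y ≤ x₀ → ∀ (s : ℕ) (d e k : Fin J → ℕ), Windows T s d e → (∀ j, k j ≤ L) →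
      (c * ∏ j, po (k j) (((e j - d j : ℕ) : ℝ) * Vq (Poly.Q (sg LF)) y) - ε) * (Y / Real.log X) ≤
        cntAP LF R ((X : ℝ) ^ w) y s d e k Z Y ∧
      (cntR LF ((X : ℝ) ^ w) y s d e k Z Y : ℝ) ≤
        (Cu * ∏ j, po (k j) (((e j - d j : ℕ) : ℝ) * Vq (Poly.Q (sg LF)) y) + ε) * (Y / Real.log X) := by
  have hdeg : LF.natDegree = 1 := by
    unfold LF
    exact Polynomial.natDegree_X
  have hmon : LF.Monic := by
    unfold LF
    exact Polynomial.monic_X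
  obtain ⟨τ, S, hτ0, hτθ, hτ5, hS2, hSD⟩ := params θ (R + 1 - 9 / 8) hθ 1 (by norm_num) (by
    have h1 : 25 / (24 * θ) < (R : ℝ) + 1 - 9 / 8 := by linarith
    rw [div_lt_iff₀ (by positivity)] at h1
    linarith)
  have hυ1 : 24 / 25 * τ ≤ 1 := by linarith
  obtain ⟨c, Cu, hc, hCu, H⟩ := pr_law LF (by
      unfold LF
      exact Polynomial.irreducible_X) (by rw [hdeg]; norm_num)
    (by rw [hmon.leadingCoeff]; norm_num) (fun p hp => by
      refine ⟨1, fun h => ?_⟩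
      rw [LF_eval] at h
      have h1 : p ∣ 1 := by exact_mod_cast h
      exact hp.one_lt.ne' (Nat.dvd_one.1 h1)) θ τ S hτ0 hτθ hθ1 R (by rw [hSD]; linarith)
    (hval_of LF 1 S 1 (by
      intro m hm
      rw [LF_eval, Int.natAbs_natCast, Real.rpow_one]
      push_cast
      linarith) (by
      rw [LF_eval]
      norm_num) (by norm_num) hS2)
    (fun ε₁ η hε₁ hη => by
      obtain ⟨Y0, hY0⟩ := mer_lin ε₁ (24 / 25 * τ) η hε₁ hυ1 hη
      filter_upwards [eventually_ge_atTop Y0] with X hX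
      have h := hY0 X hX
      have e : (fun p : ℕ => (nuB (Poly.Q (sg LF)) p : ℝ) / p) =
          fun p : ℕ => (Pool.Agent.Y882.PX.ro LF 0 p : ℝ) / p := by
        funext p
        rw [nuB_sg]
      rw [e]
      exact h)
    1 2 (fun q hq _ N H => by
      have h := sq_lin q hq N H
      exact_mod_cast h)
  exact ⟨τ / 4, hτ5, by linarith, c, Cu, hc, hCu, H⟩

end Pool.Agent.U832.RH
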