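import Pool.Agent.U832.RH.GeC

/-!
# The law around almost primes, for the pairs `n`, `e n + f` in progressions
-/

set_option autoImplicit false

namespace Pool.Agent.U832.RH

open Polynomial Finset Filter
open Pool.Agent.W123.RP Pool.Agent.H373R2.T7 Pool.Agent.W123.RU Pool.Agent.W123.RU.Poly
open Pool.Agent.TH464.PW Pool.Agent.TH464.PO Pool.Agent.Y879.GL Pool.Agent.Y879.AP
open Pool.Agent.U832.RG

/-- a number without small prime factors has few prime factors -/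
lemma few_factors (X : ℕ) (w G : ℝ) (hX : 2 ≤ X) (hw : 0 < w) (n : ℕ) (hn : n ≠ 0) (hnX : (n : ℝ) ≤ (X : ℝ) ^ G)
    (h : ∀ p : ℕ, p.Prime → p ≤ ⌊(X : ℝ) ^ w⌋₊ → ¬ p ∣ n) : n.primeFactorsList.length ≤ ⌊G / w⌋₊ := by
  have hXr : (2 : ℝ) ≤ X := by exact_mod_cast hX
  have hXpos : (0 : ℝ) < X := by linarith
  have key : ∀ l : List ℕ, (∀ p ∈ l, (X : ℝ) ^ w ≤ p) → ((X : ℝ) ^ w) ^ l.length ≤ ((l.prod : ℕ) : ℝ) := by
    intro l
    induction l with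
    | nil => intro _; simp
    | cons a t ih =>
      intro hl
      rw [List.length_cons, List.prod_cons, pow_succ, mul_comm, Nat.cast_mul]
      exact mul_le_mul (hl a (List.mem_cons_self)) (ih fun p hp => hl p (List.mem_cons_of_mem _ hp)) (by positivity)
        (Nat.cast_nonneg _)
  have h1 := key n.primeFactorsList (fun p hp => by
    have hp1 := Nat.prime_of_mem_primeFactorsList hp
    have hp2 := Nat.dvd_of_mem_primeFactorsList hp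
    by_contra hlt
    push Not at hlt
    exact h p hp1 (Nat.le_floor hlt.le) hp2)
  rw [Nat.prod_primeFactorsList hn, ← Real.rpow_natCast, ← Real.rpow_mul hXpos.le] at h1
  have h2 := h1.trans hnX
  have h3 : w * n.primeFactorsList.length ≤ G := by
    rwa [Real.rpow_le_rpow_left_iff (by linarith)] at h2
  apply Nat.le_floor
  rw [le_div_iff₀ hw]
  linarith

/-- **The law for the pairs `n`, `e n + f` in progressions.** -/
theorem lawG_prog2 (A δU θ : ℝ) (hA : 0 < A) (hδU : 0 < δU) (hθ : 0 < θ) (δ : ℝ) (hδ : 0 < δ) :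
    ∃ w₀ : ℝ, 0 < w₀ ∧ ∀ w : ℝ, 0 < w → w ≤ w₀ → ∀ (J L : ℕ) (x0 ε : ℝ), 0 < ε →
    ∃ r0 : ℕ, ∀ r : ℕ, r0 ≤ r → ∀ᶠ X : ℕ in atTop, ∀ y z : ℕ, y = ⌊(X : ℝ) ^ (1 / (r : ℝ))⌋₊ → z = ⌊(X : ℝ) ^ w⌋₊ →
      ∀ (e f : ℤ) (q a : ℕ), e * e = 1 → Even f →
      f ≠ 0 → |(f : ℝ)| ≤ (X : ℝ) ^ A → 1 ≤ q → (q : ℝ) ≤ (X : ℝ) ^ A → (a : ℝ) ≤ (X : ℝ) ^ A →
      Nat.Coprime q a → IsCoprime (q : ℤ) (e * a + f) →
      (∀ t : ℕ, 1 ≤ t → (t : ℝ) ≤ (X : ℝ) ^ δU → f ^ 2 ≠ ((q : ℤ) * t) ^ 2) →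
      ∀ Z Y : ℕ, (X : ℝ) ^ θ ≤ Y → ∀ T : ℕ, T * Vq (Qn (Q2 e f) q) y ≤ x0 →
      ∀ A' S : Set ℕ, (∀ m ≤ Z + Y + T, (m ∈ S ↔ Sf (Q (pf e f q a)) y m)) →
        (∀ m ≤ Z + Y + T, (m ∈ A' ↔ Sf (Q (pf e f q a)) z m)) →
        CentreLaw A' S (Vq (Qn (Q2 e f) q) z) (Vq (Qn (Q2 e f) q) y) J L δ ε Z Y T := by
  obtain ⟨w₀, hw₀, hh⟩ := lawG_polys 2 1 (A + 1) δU θ (by linarith) hδU hθ δ hδ
  refine ⟨w₀, hw₀, ?_⟩
  intro w hw0 hw J L x0 ε hε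
  obtain ⟨r0, h⟩ := hh w hw0 hw J L x0 ε hε
  refine ⟨max r0 2, ?_⟩
  intro r hr
  have hr2 : 2 ≤ r := (le_max_right _ _).trans hr
  obtain ⟨M, hM, hV⟩ := pf_Vup A hA r hr2
  filter_upwards [h r ((le_max_left _ _).trans hr) M, hV, eventually_ge_atTop 2] with X hX hVX hX2
  intro y z hy hz e f q a he hf hf0 hfX hq hqX haX hqa hqf hne
  have hX2r : (2 : ℝ) ≤ X := by exact_mod_cast hX2
  have hX0 : (0 : ℝ) < X := by linarith
  have hX1 : (1 : ℝ) ≤ X := by linarith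
  have hE : (X : ℝ) ^ (A + 1) = (X : ℝ) ^ A * X := by rw [Real.rpow_add hX0, Real.rpow_one]
  have hA0 : 0 < (X : ℝ) ^ A := Real.rpow_pos_of_pos hX0 _
  have hus := pf_us e f he hf q a hq hqa hqf ((X : ℝ) ^ (A + 1)) (by rw [hE]; nlinarith)
    (by rw [hE]; nlinarith)
  have hno := pf_noas e f he q a hq ∅ ((X : ℝ) ^ δU) (fun t ht htU _ => hne t ht htU)
  have hus2 : US 2 1 ((X : ℝ) ^ (A + 1)) ((X : ℝ) ^ δU) (pf e f q a) :=
    { irr := hus.irr, deg := hus.deg, degD := hus.degD, hgt := hus.hgt, adm := hus.adm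
      tr := fun i j t ht htU => hno i j t ht htU (by simp) }
  have e1 := pf_Vq e f he q a y hqa hqf
  have e2 := pf_Vq e f he q a z hqa hqf
  rw [← e1, ← e2]
  exact hX y z hy hz (pf e f q a) hus2 (by
    rw [e1, hy]
    exact hVX e f q he hf hf0 hfX hq hqX)

end Pool.Agent.U832.RH
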