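import Pool.Agent.U832.RH.Defs

/-!
# Definition: the Poisson law for the windows around the elements of a set
-/

set_option autoImplicit false

namespace Pool.Agent.U832.RH

open Finset Pool.Agent.U832.RG

/-- The elements of `A` have the density `W` in `(Z, Z + Y]` and see the elements of `S` in disjoint windows as
independent Poisson variables of density `V`: for all disjoint windows `(a j, b j] ⊆ (0, T]`, `j < J`, all `s ≤ T`
outside of them and all `k j ≤ L`, with the product `Π` of the probabilities that a Poisson variable of mean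
`(b j - a j) V` has the value `k j`, the number of the `n` in `(Z, Z + Y]` with `n + s ∈ A` and exactly `k j` elements of
`S` in `(n + a j, n + b j]`, for all `j`, is `Y W Π` up to `(δ Π + ε) Y W`. -/
def CentreLaw (A S : Set ℕ) (W V : ℝ) (J L : ℕ) (δ ε : ℝ) (Z Y T : ℕ) : Prop :=
  ∀ (s : ℕ) (a b k : Fin J → ℕ), Windows T s a b → (∀ j, k j ≤ L) →
    |(seen A S s a b k Z Y : ℝ) - Y * W * ∏ j, poisson (k j) ((b j - a j : ℕ) * V)| ≤
      (δ * ∏ j, poisson (k j) ((b j - a j : ℕ) * V) + ε) * (Y * W)

end Pool.Agent.U832.RH
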