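import Pool.Agent.Y882.FLW
import Pool.Agent.H373R2.T7.Fund

/-!
# The fundamental lemma with explicit dependence on the dimension
-/

set_option autoImplicit false

namespace Pool.Agent.U832.RH

open Finset Pool.Agent.Y882

open Classical in
/-- the product of the primes of `P` with `hit p` -/
noncomputable def Ne (P : Finset ℕ) (hit : ℕ → Prop) : ℕ := ∏ p ∈ P.filter hit, p

lemma Ne_dvd (P : Finset ℕ) (hP : ∀ p ∈ P, p.Prime) (hit : ℕ → Prop) (p : ℕ) (hp : p ∈ P) :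
    p ∣ Ne P hit ↔ hit p := by
  classical
  unfold Ne
  rw [(hP p hp).prime.dvd_finset_prod_iff]
  constructor
  · rintro ⟨q, hq, hpq⟩
    rw [mem_filter] at hq
    rw [Nat.prime_dvd_prime_iff_eq (hP p hp) (hP q hq.1)] at hpq
    rw [hpq]
    exact hq.2
  · intro h
    exact ⟨p, mem_filter.2 ⟨hp, h⟩, dvd_rfl⟩

lemma Ne_ne (P : Finset ℕ) (hP : ∀ p ∈ P, p.Prime) (hit : ℕ → Prop) : Ne P hit ≠ 0 := by
  classical
  unfold Ne
  rw [prod_ne_zero_iff]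
  intro p hp
  exact (hP p (mem_filter.1 hp).1).ne_zero

open Classical in
lemma VV_ev (P : Finset ℕ) (hP : ∀ p ∈ P, p.Prime) (c : Finset ℕ → ℝ) (hit : ℕ → Prop) :
    VV P c (fun p => if p ∣ Ne P hit then 1 else 0) =
      ∑ T ∈ P.powerset, c T * (if ∀ p ∈ T, hit p then 1 else 0) := by
  unfold VV
  apply sum_congr rfl
  intro T hT
  rw [mem_powerset] at hT
  congr 1
  by_cases h : ∀ p ∈ T, hit p
  · rw [if_pos h]
    apply prod_eq_one
    intro p hp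
    rw [if_pos ((Ne_dvd P hP hit p (hT hp)).2 (h p hp))]
  · rw [if_neg h]
    push Not at h
    obtain ⟨p, hp, hpn⟩ := h
    apply prod_eq_zero hp
    rw [if_neg (fun h1 => hpn ((Ne_dvd P hP hit p (hT hp)).1 h1))]

open Classical in
/-- the sum of weights over a sequence with a level of distribution -/
lemma VV_sum (P : Finset ℕ) (hP : ∀ p ∈ P, p.Prime) (c : Finset ℕ → ℝ) (Ω : Finset ℕ) (w : ℕ → ℝ)
    (hit : ℕ → ℕ → Prop) (A : ℝ) (g : ℕ → ℝ) (err : Finset ℕ → ℝ)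
    (H : ∀ T ⊆ P, c T ≠ 0 →
      |∑ m ∈ Ω.filter (fun m => ∀ p ∈ T, hit p m), w m - A * ∏ p ∈ T, g p| ≤ err T) :
    |∑ m ∈ Ω, w m * VV P c (fun p => if p ∣ Ne P (fun p => hit p m) then 1 else 0) - A * VV P c g| ≤
      ∑ T ∈ P.powerset.filter (fun T => c T ≠ 0), |c T| * err T := by
  have h1 : ∑ m ∈ Ω, w m * VV P c (fun p => if p ∣ Ne P (fun p => hit p m) then 1 else 0) =
      ∑ T ∈ P.powerset, c T * ∑ m ∈ Ω.filter (fun m => ∀ p ∈ T, hit p m), w m := by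
    have h2 : ∀ m ∈ Ω, w m * VV P c (fun p => if p ∣ Ne P (fun p => hit p m) then 1 else 0) =
        ∑ T ∈ P.powerset, c T * (if ∀ p ∈ T, hit p m then w m else 0) := by
      intro m _
      rw [VV_ev P hP c (fun p => hit p m), mul_sum]
      apply sum_congr rfl
      intro T _
      split_ifs <;> ring
    rw [sum_congr rfl h2, sum_comm]
    apply sum_congr rfl
    intro T _
    rw [← mul_sum, sum_filter]
  rw [h1]
  unfold VV
  rw [mul_sum, ← sum_sub_distrib]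
  refine (abs_sum_le_sum_abs _ _).trans ?_
  rw [sum_filter]
  apply sum_le_sum
  intro T hT
  rw [mem_powerset] at hT
  have e : c T * ∑ m ∈ Ω.filter (fun m => ∀ p ∈ T, hit p m), w m - A * (c T * ∏ p ∈ T, g p) =
      c T * (∑ m ∈ Ω.filter (fun m => ∀ p ∈ T, hit p m), w m - A * ∏ p ∈ T, g p) := by ring
  rw [e, abs_mul]
  by_cases hc : c T = 0
  · rw [if_neg (fun h => h hc), hc, abs_zero, zero_mul]
  · rw [if_pos hc]
    exact mul_le_mul_of_nonneg_left (H T hT hc) (abs_nonneg _)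

open Classical in
/-- **The fundamental lemma** with a constant proportional to the dimension. -/
theorem fLemE : ∃ C : ℕ, 1 ≤ C ∧ ∀ (κ b J z0 : ℕ) (P : Finset ℕ) (g : ℕ → ℝ),
    C * (κ + 1) ≤ b → C * (κ + 1) ≤ z0 → (∀ p ∈ P, p.Prime ∧ z0 < p ∧ p ≤ 2 ^ 2 ^ J) →
    (∀ p ∈ P, 0 ≤ g p ∧ g p ≤ κ / ((p : ℝ) - 1)) →
    ∀ (Ω : Finset ℕ) (w : ℕ → ℝ) (hit : ℕ → ℕ → Prop) (A : ℝ) (err : Finset ℕ → ℝ),
      (∀ m ∈ Ω, 0 ≤ w m) → 0 ≤ A →
      (∀ T ⊆ P, ∏ p ∈ T, p ≤ (2 ^ 2 ^ J) ^ (C * b) →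
        |∑ m ∈ Ω.filter (fun m => ∀ p ∈ T, hit p m), w m - A * ∏ p ∈ T, g p| ≤ err T) →
      |∑ m ∈ Ω.filter (fun m => ∀ p ∈ P, ¬ hit p m), w m - A * ∏ p ∈ P, (1 - g p)| ≤
        (1 / 2 : ℝ) ^ b * (A * ∏ p ∈ P, (1 - g p)) +
          ((J : ℝ) + 2) *
            ∑ T ∈ P.powerset.filter (fun T : Finset ℕ => ∏ p ∈ T, p ≤ (2 ^ 2 ^ J) ^ (C * b)), err T := by
  obtain ⟨C, hC, HF⟩ := flw
  refine ⟨C, hC, ?_⟩
  intro κ b J z0 P g hb hz0 hP hg Ω w hit A err hw hA H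
  obtain ⟨cU, cL, hc, hs, hN, hV⟩ := HF κ b J z0 P hb hz0 hP
  have hPp : ∀ p ∈ P, p.Prime := fun p hp => (hP p hp).1
  obtain ⟨v1, v2, v3, v4⟩ := hV g hg
  obtain ⟨D, hD⟩ : ∃ D, D = (2 ^ 2 ^ J) ^ (C * b) := ⟨_, rfl⟩
  rw [← hD] at hs H ⊢
  obtain ⟨E, hE⟩ : ∃ E, E = ∑ T ∈ P.powerset.filter (fun T : Finset ℕ => ∏ p ∈ T, p ≤ D), err T := ⟨_, rfl⟩
  rw [← hE]
  have herr : ∀ T ∈ P.powerset.filter (fun T : Finset ℕ => ∏ p ∈ T, p ≤ D), 0 ≤ err T := by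
    intro T hT
    rw [mem_filter, mem_powerset] at hT
    exact (abs_nonneg _).trans (H T hT.1 hT.2)
  have hE0 : 0 ≤ E := by rw [hE]; exact sum_nonneg herr
  have hind : ∑ m ∈ Ω.filter (fun m => ∀ p ∈ P, ¬ hit p m), w m =
      ∑ m ∈ Ω, w m * (if ∀ p ∈ P, ¬ p ∣ Ne P (fun p => hit p m) then 1 else 0) := by
    rw [sum_filter]
    apply sum_congr rfl
    intro m _
    have h1 : (∀ p ∈ P, ¬ p ∣ Ne P (fun p => hit p m)) ↔ ∀ p ∈ P, ¬ hit p m := by
      apply forall₂_congr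
      intro p hp
      rw [Ne_dvd P hPp _ p hp]
    by_cases h : ∀ p ∈ P, ¬ hit p m
    · rw [if_pos h, if_pos (h1.2 h), mul_one]
    · rw [if_neg h, if_neg (fun h2 => h (h1.1 h2)), mul_zero]
  have hbd : ∀ (c : Finset ℕ → ℝ) (B : ℝ), 0 ≤ B → (∀ T, |c T| ≤ B) → (∀ T ⊆ P, c T ≠ 0 → ∏ p ∈ T, p ≤ D) →
      ∑ T ∈ P.powerset.filter (fun T => c T ≠ 0), |c T| * err T ≤ B * E := by
    intro c B hB hcB hcD
    rw [hE, mul_sum]
    calc ∑ T ∈ P.powerset.filter (fun T => c T ≠ 0), |c T| * err T ≤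
        ∑ T ∈ P.powerset.filter (fun T => c T ≠ 0), B * err T := by
          apply sum_le_sum
          intro T hT
          rw [mem_filter, mem_powerset] at hT
          exact mul_le_mul_of_nonneg_right (hcB T)
            (herr T (mem_filter.2 ⟨mem_powerset.2 hT.1, hcD T hT.1 hT.2⟩))
      _ ≤ _ := by
          apply sum_le_sum_of_subset_of_nonneg
          · intro T hT
            rw [mem_filter, mem_powerset] at hT
            exact mem_filter.2 ⟨mem_powerset.2 hT.1, hcD T hT.1 hT.2⟩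
          · intro T hT _
            exact mul_nonneg hB (herr T hT)
  have hU := VV_sum P hPp cU Ω w hit A g err (fun T hT hne => H T hT (hs T hT (Or.inl hne)))
  have hL := VV_sum P hPp cL Ω w hit A g err (fun T hT hne => H T hT (hs T hT (Or.inr hne)))
  have hU2 := hbd cU 1 zero_le_one (fun T => (hc T).1) (fun T hT hne => hs T hT (Or.inl hne))
  have hL2 := hbd cL (J + 1) (by positivity) (fun T => (hc T).2) (fun T hT hne => hs T hT (Or.inr hne))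
  have h1 : ∑ m ∈ Ω, w m * (if ∀ p ∈ P, ¬ p ∣ Ne P (fun p => hit p m) then 1 else 0) ≤
      ∑ m ∈ Ω, w m * VV P cU (fun p => if p ∣ Ne P (fun p => hit p m) then 1 else 0) := by
    apply sum_le_sum
    intro m hm
    exact mul_le_mul_of_nonneg_left (hN _).2 (hw m hm)
  have h2 : ∑ m ∈ Ω, w m * VV P cL (fun p => if p ∣ Ne P (fun p => hit p m) then 1 else 0) ≤
      ∑ m ∈ Ω, w m * (if ∀ p ∈ P, ¬ p ∣ Ne P (fun p => hit p m) then 1 else 0) := by
    apply sum_le_sum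
    intro m hm
    exact mul_le_mul_of_nonneg_left (hN _).1 (hw m hm)
  rw [hind]
  obtain ⟨u1, u2⟩ := abs_le.1 hU
  obtain ⟨l1, l2⟩ := abs_le.1 hL
  have hJ : (0 : ℝ) ≤ J := Nat.cast_nonneg J
  have g1 := mul_le_mul_of_nonneg_left v4 hA
  have g2 := mul_le_mul_of_nonneg_left v1 hA
  rw [abs_le]
  constructor
  · nlinarith
  · nlinarith

end Pool.Agent.U832.RH
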