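import Pool.Agent.U832.RH.FLx
import Pool.Agent.Y882.KW.Alm
import Pool.Agent.Y882.KW.Lsw4

/-!
# The weighted linear sieve for a sequence with a relative error
-/

set_option autoImplicit false

namespace Pool.Agent.U832.RH

open Finset Filter Pool.Agent.W23.DC Pool.Agent.Y882 Pool.Agent.Y882.KW

/-- no prime of `P` hits -/
def NoHit (P : Finset ℕ) (h : ℕ → Prop) : Prop := ∀ p ∈ P, ¬ h p

lemma WB_le_one (Y : ℕ) (ε₁ ζ υ a b : ℝ) (hb : 0 ≤ b) (hab : b * υ ≤ a) (N : ℕ) :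
    WB Y ε₁ ζ υ a b N ≤ 1 := by
  have hS0 : 0 ≤ ∑ q ∈ pr Y ζ υ, (a - b * tt Y q) * (if q ∣ N then (1 : ℝ) else 0) := by
    apply sum_nonneg
    intro q hq
    unfold pr at hq
    rw [mem_filter] at hq
    have h6 : b * tt Y q ≤ b * υ := mul_le_mul_of_nonneg_left hq.2.2.2.le hb
    apply mul_nonneg (by linarith)
    split_ifs <;> norm_num
  unfold WB
  split_ifs
  · linarith
  · simp

open Classical in
/-- sums of weights over a sequence with a relative error -/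
lemma VV_rel (P : Finset ℕ) (hP : ∀ p ∈ P, p.Prime) (c : Finset ℕ → ℝ) (Λ : ℝ) (hΛ : 0 ≤ Λ)
    (hc : ∀ T, |c T| ≤ Λ) (Ω : Finset ℕ) (hit : ℕ → ℕ → Prop)
    (A W : ℝ) (g : ℕ → ℝ) (hW : 0 ≤ W) (hg : ∀ p ∈ P, 0 ≤ g p)
    (H : ∀ T ⊆ P, c T ≠ 0 →
      |((Ω.filter (fun m => ∀ p ∈ T, hit p m)).card : ℝ) - A * ∏ p ∈ T, g p| ≤ W * ∏ p ∈ T, g p) :
    |∑ m ∈ Ω, VV P c (fun p => if p ∣ Ne P (fun p => hit p m) then 1 else 0) - A * VV P c g| ≤
      Λ * W * ∏ p ∈ P, (1 + g p) := by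
  have h1 := VV_sum P hP c Ω (fun _ => (1 : ℝ)) hit A g (fun T => W * ∏ p ∈ T, g p) (fun T hT hne => by
    have := H T hT hne
    rw [Finset.sum_const, nsmul_eq_mul, mul_one]
    exact this)
  simp only [one_mul] at h1
  refine h1.trans ?_
  have hpos : ∀ T ∈ P.powerset, 0 ≤ ∏ p ∈ T, g p := by
    intro T hT
    rw [mem_powerset] at hT
    exact prod_nonneg fun p hp => hg p (hT hp)
  calc ∑ T ∈ P.powerset.filter (fun T => c T ≠ 0), |c T| * (W * ∏ p ∈ T, g p) ≤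
      ∑ T ∈ P.powerset, |c T| * (W * ∏ p ∈ T, g p) := by
        apply sum_le_sum_of_subset_of_nonneg (filter_subset _ _)
        intro T hT _
        exact mul_nonneg (abs_nonneg _) (mul_nonneg hW (hpos T hT))
    _ ≤ ∑ T ∈ P.powerset, Λ * W * ∏ p ∈ T, g p := by
        apply sum_le_sum
        intro T hT
        rw [mul_assoc Λ]
        exact mul_le_mul_of_nonneg_right (hc T) (mul_nonneg hW (hpos T hT))
    _ = Λ * W * ∏ p ∈ P, (1 + g p) := by
        rw [← mul_sum, prod_one_add]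

open Classical in
/-- **The weighted linear sieve** for a sequence with a relative error. -/
theorem lin_core (τ ζ υ a b : ℝ) (hζ : 0 < ζ) (h2 : 2 * ζ < τ) (h4 : τ ≤ 4 * ζ) (hτ : τ ≤ 1)
    (hζυ : ζ ≤ υ) (hυτ : υ < τ) (ha : 0 ≤ a) (hb : 0 ≤ b) (hab : b * υ ≤ a)
    (hJ : ∫ x in ζ..υ, (a - b * x) / (τ - x) / x < Real.log (τ / ζ - 1) / τ) :
    ∃ f0 F0 : ℝ, 0 < f0 ∧ 0 < F0 ∧ ∀ ε₁ : ℝ, 0 < ε₁ → ε₁ ≤ ζ → ε₁ ≤ τ - υ →
      ∃ η : ℝ, 0 < η ∧ ∀ X : ℕ, 2 ≤ X → ∀ (Ω : Finset ℕ) (hit : ℕ → ℕ → Prop) (g : ℕ → ℝ) (A W : ℝ),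
        0 ≤ A → 0 ≤ W → (∀ p ∈ pr X ε₁ υ, 0 ≤ g p) → Mer (pr X ε₁ υ) (tt X) g ε₁ υ η →
        (∀ T ⊆ pr X ε₁ υ, ((∏ p ∈ T, p : ℕ) : ℝ) ≤ (X : ℝ) ^ τ →
          |((Ω.filter (fun n => ∀ p ∈ T, hit p n)).card : ℝ) - A * ∏ p ∈ T, g p| ≤ W * ∏ p ∈ T, g p) →
        A * (ε₁ * f0) - (1 + a) * W * (3 / ε₁) ≤
          ((Ω.filter (fun n => 0 < WB X ε₁ ζ υ a b (Ne (pr X ε₁ υ) (fun p => hit p n)))).card : ℝ) ∧
        ((Ω.filter (fun n => NoHit (pr X ε₁ ζ) (fun p => hit p n))).card : ℝ) ≤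
          A * (ε₁ * F0) + W * (3 / ε₁) := by
  obtain ⟨f0, F0, hf0, hF0, HL⟩ := lsw4 τ ζ υ a b hζ h2 h4 hτ hζυ hυτ ha hb hab hJ
  refine ⟨f0, F0, hf0, hF0, ?_⟩
  intro ε₁ hε₁ hεζ hετ
  obtain ⟨η₀, hη₀, HL'⟩ := HL ε₁ hε₁ hεζ hετ
  refine ⟨min η₀ 1, lt_min hη₀ one_pos, ?_⟩
  intro X hX Ω hit g A W hA hW hg hM H
  obtain ⟨cU, cL, hc, hs, hN, hV⟩ := HL' X hX
  obtain ⟨P, hPdef⟩ : ∃ P, P = pr X ε₁ υ := ⟨_, rfl⟩
  rw [← hPdef] at hs hN hV hM H hg ⊢
  have hPp : ∀ p ∈ P, p.Prime := by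
    intro p hp
    rw [hPdef] at hp
    unfold pr at hp
    rw [mem_filter] at hp
    exact hp.2.1
  obtain ⟨v1, v2⟩ := hV g hg (fun x y hx hxy hy => (hM x y hx hxy hy).trans (min_le_left _ _))
  have hυ0 : 0 < υ := by linarith
  have hυ1 : υ ≤ 1 := by linarith
  -- the product
  have hprod : ∏ p ∈ P, (1 + g p) ≤ 3 / ε₁ := by
    have h1 := (abs_le.1 ((hM ε₁ υ le_rfl (hεζ.trans hζυ) le_rfl).trans (min_le_right _ _))).2
    have h2 : P.filter (fun p => ε₁ ≤ tt X p ∧ tt X p < υ) = P := by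
      rw [filter_eq_self]
      intro p hp
      rw [hPdef] at hp
      unfold pr at hp
      rw [mem_filter] at hp
      exact hp.2.2
    rw [h2] at h1
    calc ∏ p ∈ P, (1 + g p) ≤ ∏ p ∈ P, Real.exp (g p) := by
          apply Finset.prod_le_prod
          · intro p hp
            have := hg p hp
            linarith
          · intro p _
            linarith [Real.add_one_le_exp (g p)]
      _ = Real.exp (∑ p ∈ P, g p) := (Real.exp_sum _ _).symm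
      _ ≤ Real.exp (1 + Real.log (υ / ε₁)) := Real.exp_le_exp.2 (by linarith)
      _ = Real.exp 1 * (υ / ε₁) := by rw [Real.exp_add, Real.exp_log (by positivity)]
      _ ≤ 3 * (1 / ε₁) := by
          apply mul_le_mul (by linarith [Real.exp_one_lt_d9]) _ (by positivity) (by norm_num)
          exact div_le_div_of_nonneg_right hυ1 hε₁.le
      _ = 3 / ε₁ := by ring
  have hprod0 : 0 ≤ ∏ p ∈ P, (1 + g p) := prod_nonneg fun p hp => by
    have := hg p hp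
    linarith
  have hU := VV_rel P hPp cU 1 zero_le_one (fun T => (hc T).1) Ω hit A W g hW hg
    (fun T hT hne => H T hT (hs T hT (Or.inl hne)))
  have hL := VV_rel P hPp cL (1 + a) (by linarith) (fun T => (hc T).2) Ω hit A W g hW hg
    (fun T hT hne => H T hT (hs T hT (Or.inr hne)))
  constructor
  · have e1 : ∑ m ∈ Ω, VV P cL (fun p => if p ∣ Ne P (fun p => hit p m) then 1 else 0) ≤
        ((Ω.filter (fun n => 0 < WB X ε₁ ζ υ a b (Ne P (fun p => hit p n)))).card : ℝ) := by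
      rw [card_eq_sum_ones, Nat.cast_sum, sum_filter]
      apply sum_le_sum
      intro m _
      refine (hN _).1.trans ?_
      split_ifs with h
      · have := WB_le_one X ε₁ ζ υ a b hb hab (Ne P (fun p => hit p m))
        push_cast
        exact this
      · exact not_lt.1 h
    have e2 := (abs_le.1 hL).1
    have e3 : A * (ε₁ * f0) ≤ A * VV P cL g := mul_le_mul_of_nonneg_left v1 hA
    have e4 : (1 + a) * W * ∏ p ∈ P, (1 + g p) ≤ (1 + a) * W * (3 / ε₁) :=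
      mul_le_mul_of_nonneg_left hprod (mul_nonneg (by linarith) hW)
    linarith
  · have e1 : ((Ω.filter (fun n => NoHit (pr X ε₁ ζ) (fun p => hit p n))).card : ℝ) ≤
        ∑ m ∈ Ω, VV P cU (fun p => if p ∣ Ne P (fun p => hit p m) then 1 else 0) := by
      rw [card_eq_sum_ones, Nat.cast_sum, sum_filter]
      apply sum_le_sum
      intro m _
      refine le_trans ?_ (hN _).2
      have hsub : ∀ p ∈ pr X ε₁ ζ, p ∈ P := by
        intro p hp
        rw [hPdef]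
        unfold pr at hp ⊢
        rw [mem_filter] at hp ⊢
        exact ⟨hp.1, hp.2.1, hp.2.2.1, hp.2.2.2.trans_le hζυ⟩
      by_cases h : NoHit (pr X ε₁ ζ) (fun p => hit p m)
      · rw [if_pos h, if_pos (fun p hp h1 => h p hp ((Ne_dvd P hPp _ p (hsub p hp)).1 h1))]
        simp
      · rw [if_neg h]
        split_ifs <;> norm_num
    have e2 := (abs_le.1 hU).2
    have e3 : A * VV P cU g ≤ A * (ε₁ * F0) := mul_le_mul_of_nonneg_left v2 hA
    have e4 : 1 * W * ∏ p ∈ P, (1 + g p) ≤ 1 * W * (3 / ε₁) :=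
      mul_le_mul_of_nonneg_left hprod (by linarith)
    linarith

end Pool.Agent.U832.RH
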