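import Pool.Agent.U832.RH.FLG
import Pool.Agent.U832.RH.LinC

/-!
# The fundamental lemma for a sequence with a relative error
-/

set_option autoImplicit false

namespace Pool.Agent.U832.RH

open Finset Filter Pool.Agent.Y882

open Classical in
/-- **The fundamental lemma** for a sequence with a relative error and large primes. -/
theorem gen_core : ∃ C : ℕ, 1 ≤ C ∧ ∀ (κ b J₀ J z0 : ℕ) (P : Finset ℕ) (g : ℕ → ℝ),
    C * (κ + 1) ≤ b → C * (κ + 1) ≤ z0 → (∀ p ∈ P, p.Prime ∧ z0 < p ∧ p ≤ 2 ^ 2 ^ J) → (∀ p ∈ P, 2 ^ 2 ^ J₀ ≤ p) →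
    (∀ p ∈ P, 0 ≤ g p ∧ g p ≤ κ / ((p : ℝ) - 1)) →
    ∀ (Ω : Finset ℕ) (hit : ℕ → ℕ → Prop) (A W : ℝ), 0 ≤ A → 0 ≤ W →
      (∀ T ⊆ P, ∏ p ∈ T, p ≤ (2 ^ 2 ^ J) ^ (C * b) →
        |((Ω.filter (fun m => ∀ p ∈ T, hit p m)).card : ℝ) - A * ∏ p ∈ T, g p| ≤ W * ∏ p ∈ T, g p) →
      |((Ω.filter (fun n => NoHit P (fun p => hit p n))).card : ℝ) - A * ∏ p ∈ P, (1 - g p)| ≤
        (1 / 2 : ℝ) ^ b * (A * ∏ p ∈ P, (1 - g p)) +
          (((J - J₀ : ℕ) : ℝ) + 1) * W * ∏ p ∈ P, (1 + g p) := by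
  obtain ⟨C, hC, HF⟩ := flg
  refine ⟨C, hC, ?_⟩
  intro κ b J₀ J z0 P g hb hz0 hP hPJ hg Ω hit A W hA hW H
  obtain ⟨cU, cL, hc, hs, hN, hV⟩ := HF κ b J₀ J z0 P hb hz0 hP hPJ
  have hPp : ∀ p ∈ P, p.Prime := fun p hp => (hP p hp).1
  obtain ⟨v1, v2, v3, v4⟩ := hV g hg
  obtain ⟨Λ, hΛ⟩ : ∃ Λ : ℝ, Λ = ((J - J₀ : ℕ) : ℝ) + 1 := ⟨_, rfl⟩
  rw [← hΛ] at hc ⊢
  have hΛ1 : 1 ≤ Λ := by
    rw [hΛ]
    have : (0 : ℝ) ≤ ((J - J₀ : ℕ) : ℝ) := Nat.cast_nonneg _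
    linarith
  have hU := VV_rel P hPp cU 1 zero_le_one (fun T => (hc T).1) Ω hit A W g hW (fun p hp => (hg p hp).1)
    (fun T hT hne => H T hT (hs T hT (Or.inl hne)))
  have hL := VV_rel P hPp cL Λ (by linarith) (fun T => (hc T).2) Ω hit A W g hW (fun p hp => (hg p hp).1)
    (fun T hT hne => H T hT (hs T hT (Or.inr hne)))
  have hind : ((Ω.filter (fun n => NoHit P (fun p => hit p n))).card : ℝ) =
      ∑ m ∈ Ω, (if ∀ p ∈ P, ¬ p ∣ Ne P (fun p => hit p m) then (1 : ℝ) else 0) := by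
    rw [card_eq_sum_ones, Nat.cast_sum, sum_filter]
    apply sum_congr rfl
    intro m _
    have h1 : (∀ p ∈ P, ¬ p ∣ Ne P (fun p => hit p m)) ↔ NoHit P (fun p => hit p m) := by
      unfold NoHit
      apply forall₂_congr
      intro p hp
      rw [Ne_dvd P hPp _ p hp]
    by_cases h : NoHit P (fun p => hit p m)
    · rw [if_pos h, if_pos (h1.2 h)]
      norm_num
    · rw [if_neg h, if_neg (fun h2 => h (h1.1 h2))]
  have h1 : ∑ m ∈ Ω, (if ∀ p ∈ P, ¬ p ∣ Ne P (fun p => hit p m) then (1 : ℝ) else 0) ≤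
      ∑ m ∈ Ω, VV P cU (fun p => if p ∣ Ne P (fun p => hit p m) then 1 else 0) := by
    apply sum_le_sum
    intro m _
    exact (hN _).2
  have h2 : ∑ m ∈ Ω, VV P cL (fun p => if p ∣ Ne P (fun p => hit p m) then 1 else 0) ≤
      ∑ m ∈ Ω, (if ∀ p ∈ P, ¬ p ∣ Ne P (fun p => hit p m) then (1 : ℝ) else 0) := by
    apply sum_le_sum
    intro m _
    exact (hN _).1
  rw [hind]
  obtain ⟨u1, u2⟩ := abs_le.1 hU
  obtain ⟨l1, l2⟩ := abs_le.1 hL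
  have g1 := mul_le_mul_of_nonneg_left v4 hA
  have g2 := mul_le_mul_of_nonneg_left v1 hA
  have hprod0 : 0 ≤ ∏ p ∈ P, (1 + g p) := prod_nonneg fun p hp => by
    have := (hg p hp).1
    linarith
  have hWP : 0 ≤ W * ∏ p ∈ P, (1 + g p) := mul_nonneg hW hprod0
  have g3 : 1 * W * ∏ p ∈ P, (1 + g p) ≤ Λ * W * ∏ p ∈ P, (1 + g p) := by
    rw [mul_assoc, mul_assoc]
    exact mul_le_mul_of_nonneg_right hΛ1 hWP
  rw [abs_le]
  constructor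
  · nlinarith
  · nlinarith

end Pool.Agent.U832.RH
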