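import Pool.Agent.U832.RH.PrC
import Pool.Agent.U832.RG.Use
import Pool.Agent.Y879.GL.QuadU

/-!
# Almost prime values of a polynomial and the windows around them
-/

set_option autoImplicit false

namespace Pool.Agent.U832.RH

open Polynomial Finset Filter
open Pool.Agent.W123.RP Pool.Agent.H373R2.T7 Pool.Agent.W123.RU Pool.Agent.W123.RU.Poly
open Pool.Agent.TH464.PO Pool.Agent.Y879.GL
open Pool.Agent.U832.RG
open Pool.Agent.W23.DC Pool.Agent.Y882.KW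

variable {J : ℕ}

/-- choice of the precision -/
lemma exists_q (C : ℕ) (hC : 1 ≤ C) (δ : ℝ) (hδ : 0 < δ) (M ε : ℝ) (hM : 0 ≤ M) (hε : 0 < ε) (e : ℕ) :
    ∃ r0 : ℕ, ∀ r : ℕ, r0 ≤ r → ∃ q : ℕ, (C : ℝ) * (q + 1) ≤ δ * r ∧ M * ((r : ℝ) ^ e * (1 / 2) ^ q) ≤ ε := by
  have hC0 : (0 : ℝ) < C := by exact_mod_cast hC
  obtain ⟨β, hβ⟩ : ∃ β, β = δ / C := ⟨_, rfl⟩
  have hβ0 : 0 < β := by rw [hβ]; positivity
  obtain ⟨ρ, hρ⟩ : ∃ ρ : ℝ, ρ = (1 / 2 : ℝ) ^ β := ⟨_, rfl⟩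
  have hρ0 : 0 < ρ := by rw [hρ]; positivity
  have hρ1 : ρ < 1 := by
    rw [hρ]
    exact Real.rpow_lt_one (by norm_num) (by norm_num) hβ0
  have h1 := tendsto_pow_const_mul_const_pow_of_abs_lt_one e (r := ρ) (by rwa [abs_of_pos hρ0])
  have h2 := h1.const_mul (M * 4)
  rw [mul_zero] at h2
  obtain ⟨r1, hr1⟩ := eventually_atTop.1 (h2.eventually_le_const hε)
  obtain ⟨r2, hr2⟩ := exists_nat_ge (2 / β)
  refine ⟨max r1 r2, ?_⟩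
  intro r hr
  have hr1' := hr1 r ((le_max_left _ _).trans hr)
  have hr2' : 2 ≤ β * r := by
    have h3 : 2 / β ≤ r := hr2.trans (by exact_mod_cast (le_max_right _ _).trans hr)
    rw [div_le_iff₀ hβ0] at h3
    linarith
  obtain ⟨m, hm⟩ : ∃ m, m = ⌊β * r⌋₊ := ⟨_, rfl⟩
  have hm1 : (m : ℝ) ≤ β * r := by rw [hm]; exact Nat.floor_le (by linarith)
  have hm2 : β * r < m + 1 := by rw [hm]; exact Nat.lt_floor_add_one _
  have hm3 : 1 ≤ m := by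
    have : (1 : ℝ) < m := by linarith
    exact_mod_cast this.le
  refine ⟨m - 1, ?_, ?_⟩
  · have e1 : (((m - 1 : ℕ) : ℝ) + 1) = m := by
      rw [Nat.cast_sub hm3]
      push_cast
      ring
    rw [e1]
    calc (C : ℝ) * m ≤ C * (β * r) := mul_le_mul_of_nonneg_left hm1 hC0.le
      _ = δ * r := by rw [hβ]; field_simp
  · have h3 : (1 / 2 : ℝ) ^ (m - 1) ≤ 4 * ρ ^ r := by
      have e1 : (1 / 2 : ℝ) ^ (m - 1) = (1 / 2 : ℝ) ^ (((m - 1 : ℕ) : ℝ)) := (Real.rpow_natCast _ _).symm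
      have e2 : ρ ^ r = (1 / 2 : ℝ) ^ (β * r) := by
        rw [hρ, ← Real.rpow_natCast, ← Real.rpow_mul (by norm_num)]
      have e3 : (4 : ℝ) = (1 / 2 : ℝ) ^ (-2 : ℝ) := by
        rw [Real.rpow_neg (by norm_num)]
        norm_num
      rw [e1, e2, e3, ← Real.rpow_add (by norm_num)]
      apply Real.rpow_le_rpow_of_exponent_ge (by norm_num) (by norm_num)
      rw [Nat.cast_sub hm3]
      push_cast
      linarith
    calc M * ((r : ℝ) ^ e * (1 / 2) ^ (m - 1)) ≤ M * ((r : ℝ) ^ e * (4 * ρ ^ r)) := by gcongr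
      _ = M * 4 * ((r : ℝ) ^ e * ρ ^ r) := by ring
      _ ≤ ε := hr1'

open Classical in
/-- few values are divisible by the square of a medium prime -/
lemma sq_few (F : ℤ[X]) (K q0 : ℕ) (hSq : ∀ q : ℕ, q.Prime → q0 ≤ q → ∀ N H : ℕ,
      ((((Icc 1 H).filter (fun j : ℕ => ((q ^ 2 : ℕ) : ℤ) ∣ F.eval ((N + j : ℕ) : ℤ))).card : ℕ) : ℝ) ≤
        K * (H * (1 / (q : ℝ) ^ 2) + 1)) (X : ℕ) (hX : 2 ≤ X) (ζ υ : ℝ) (hυ1 : υ ≤ 1)
    (h1 : (q0 : ℝ) ≤ (X : ℝ) ^ ζ) (h2 : 2 ≤ (X : ℝ) ^ ζ) (s Z Y : ℕ) :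
    (((Ioc Z (Z + Y)).filter (fun n => ∃ q ∈ pr X ζ υ, ((q ^ 2 : ℕ) : ℤ) ∣ F.eval ((n + s : ℕ) : ℤ))).card : ℝ) ≤
      K * (Y * (2 / (X : ℝ) ^ ζ) + (X : ℝ) ^ υ) := by
  have hK0 : (0 : ℝ) ≤ K := Nat.cast_nonneg K
  have hmem := fun p => pr_iff X hX ζ υ hυ1 p
  have hsub : (Ioc Z (Z + Y)).filter (fun n => ∃ q ∈ pr X ζ υ, ((q ^ 2 : ℕ) : ℤ) ∣ F.eval ((n + s : ℕ) : ℤ)) ⊆
      (pr X ζ υ).biUnion (fun q => (Ioc Z (Z + Y)).filter (fun n => ((q ^ 2 : ℕ) : ℤ) ∣ F.eval ((n + s : ℕ) : ℤ))) := by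
    intro n hn
    rw [mem_filter] at hn
    obtain ⟨hn1, q, hq, hn2⟩ := hn
    rw [mem_biUnion]
    exact ⟨q, hq, mem_filter.2 ⟨hn1, hn2⟩⟩
  have h3 := (card_le_card hsub).trans card_biUnion_le
  have h4 : (((Ioc Z (Z + Y)).filter (fun n => ∃ q ∈ pr X ζ υ, ((q ^ 2 : ℕ) : ℤ) ∣
      F.eval ((n + s : ℕ) : ℤ))).card : ℝ) ≤
      ∑ q ∈ pr X ζ υ, (((Ioc Z (Z + Y)).filter (fun n => ((q ^ 2 : ℕ) : ℤ) ∣ F.eval ((n + s : ℕ) : ℤ))).card : ℝ) := by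
    exact_mod_cast h3
  refine h4.trans ?_
  have h5 : ∀ q ∈ pr X ζ υ, (((Ioc Z (Z + Y)).filter (fun n => ((q ^ 2 : ℕ) : ℤ) ∣
      F.eval ((n + s : ℕ) : ℤ))).card : ℝ) ≤ K * (Y * (1 / (q : ℝ) ^ 2)) + K := by
    intro q hq
    have hq' := (hmem q).1 hq
    have h6 := hSq q hq'.1 (by exact_mod_cast h1.trans hq'.2.1) (Z + s) Y
    have h7 : ((Ioc Z (Z + Y)).filter (fun n => ((q ^ 2 : ℕ) : ℤ) ∣ F.eval ((n + s : ℕ) : ℤ))).card =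
        ((Icc 1 Y).filter (fun j : ℕ => ((q ^ 2 : ℕ) : ℤ) ∣ F.eval ((Z + s + j : ℕ) : ℤ))).card := by
      symm
      apply Finset.card_bij (fun j _ => Z + j)
      · intro j hj
        rw [mem_filter, mem_Icc] at hj
        rw [mem_filter, mem_Ioc]
        refine ⟨by omega, ?_⟩
        rw [show Z + j + s = Z + s + j by ring]
        exact hj.2
      · intro a _ b _ hab
        omega
      · intro n hn
        rw [mem_filter, mem_Ioc] at hn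
        refine ⟨n - Z, ?_, by omega⟩
        rw [mem_filter, mem_Icc]
        refine ⟨by omega, ?_⟩
        rw [show Z + s + (n - Z) = n + s by omega]
        exact hn.2
    rw [h7]
    refine h6.trans (le_of_eq ?_)
    ring
  refine (Finset.sum_le_sum h5).trans ?_
  rw [Finset.sum_add_distrib, ← Finset.mul_sum, ← Finset.mul_sum, Finset.sum_const, nsmul_eq_mul]
  have h6 := Pool.Agent.Y882.MG.tail_sq (pr X ζ υ) ((X : ℝ) ^ ζ) h2 (fun q hq => ((hmem q).1 hq).2.1)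
  have h7 := Pool.Agent.Y882.MG.card_lt (pr X ζ υ) ((X : ℝ) ^ υ) (by positivity) (fun q hq =>
    ⟨((hmem q).1 hq).1.one_le, ((hmem q).1 hq).2.2.le⟩)
  have h8 : (Y : ℝ) * ∑ q ∈ pr X ζ υ, 1 / (q : ℝ) ^ 2 ≤ Y * (2 / (X : ℝ) ^ ζ) :=
    mul_le_mul_of_nonneg_left h6 (Nat.cast_nonneg _)
  nlinarith

end Pool.Agent.U832.RH
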