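import Pool.Agent.U832.RH.GeA
import Pool.Agent.U832.RH.PrD
import Pool.Agent.U832.RH.DefG
import Pool.Agent.W378.DC.MP

/-!
# The windows around the values without prime factors up to a power of `X`, for systems of polynomials
-/

set_option autoImplicit false

namespace Pool.Agent.U832.RH

open Polynomial Finset Filter
open Pool.Agent.W123.RP Pool.Agent.H373R2.T7 Pool.Agent.W123.RU Pool.Agent.W123.RU.Poly
open Pool.Agent.TH464.PW Pool.Agent.TH464.PO Pool.Agent.Y879.GL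
open Pool.Agent.U832.RG
open Pool.Agent.W23.DC

/-- the levels -/
lemma lev_up (z : ℕ) (hz : 4 ≤ z) : z ≤ 2 ^ 2 ^ Nat.clog 2 (Nat.clog 2 z) ∧
    2 ^ 2 ^ Nat.clog 2 (Nat.clog 2 z) ≤ z ^ 3 := by
  have h1 : z ≤ 2 ^ Nat.clog 2 z := Nat.le_pow_clog (by norm_num) z
  have h2 : Nat.clog 2 z ≤ 2 ^ Nat.clog 2 (Nat.clog 2 z) := Nat.le_pow_clog (by norm_num) _
  have h3 : 1 < Nat.clog 2 z := by
    by_contra h
    push Not at h
    have h4 : 2 ^ Nat.clog 2 z ≤ 2 ^ 1 := Nat.pow_le_pow_right (by norm_num) h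
    omega
  have h5 : 2 ^ (Nat.clog 2 (Nat.clog 2 z)).pred < Nat.clog 2 z := Nat.pow_pred_clog_lt_self (by norm_num) h3
  have h6 : 2 ^ (Nat.clog 2 z).pred < z := Nat.pow_pred_clog_lt_self (by norm_num) (by omega)
  have h7 : 1 ≤ Nat.clog 2 (Nat.clog 2 z) := by
    by_contra h
    have h0 : Nat.clog 2 (Nat.clog 2 z) = 0 := by omega
    rw [h0] at h2
    omega
  have h8 : 2 ^ Nat.clog 2 (Nat.clog 2 z) = 2 * 2 ^ (Nat.clog 2 (Nat.clog 2 z)).pred := by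
    conv_lhs => rw [← Nat.succ_pred_eq_of_pos h7, pow_succ]
    ring
  have h9 : 2 ^ Nat.clog 2 z = 2 * 2 ^ (Nat.clog 2 z).pred := by
    conv_lhs => rw [← Nat.succ_pred_eq_of_pos (by omega : 0 < Nat.clog 2 z), pow_succ]
    ring
  refine ⟨h1.trans (Nat.pow_le_pow_right (by norm_num) h2), ?_⟩
  calc 2 ^ 2 ^ Nat.clog 2 (Nat.clog 2 z) ≤ 2 ^ (2 * Nat.clog 2 z) := by
        apply Nat.pow_le_pow_right (by norm_num)
        rw [h8]
        omega
    _ = (2 ^ Nat.clog 2 z) ^ 2 := by rw [mul_comm, pow_mul]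
    _ ≤ (2 * z) ^ 2 := by
        apply Nat.pow_le_pow_left
        rw [h9]
        omega
    _ = 4 * z ^ 2 := by ring
    _ ≤ z * z ^ 2 := Nat.mul_le_mul_right _ hz
    _ = z ^ 3 := by ring

lemma lev_down (y z r : ℕ) (hy : 2 ≤ y) (hz : 4 ≤ z) (hr : 1 ≤ r) (hzy : z ≤ y ^ (2 * r)) :
    2 ^ 2 ^ Nat.log 2 (Nat.log 2 y) ≤ y ∧
    Nat.clog 2 (Nat.clog 2 z) - Nat.log 2 (Nat.log 2 y) + 1 ≤ 16 * r := by
  have hl : 1 ≤ Nat.log 2 y := Nat.log_pos (by norm_num) hy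
  have h1 : 2 ^ Nat.log 2 y ≤ y := Nat.pow_log_le_self 2 (by omega)
  have h2 : 2 ^ Nat.log 2 (Nat.log 2 y) ≤ Nat.log 2 y := Nat.pow_log_le_self 2 (by omega)
  refine ⟨(Nat.pow_le_pow_right (by norm_num) h2).trans h1, ?_⟩
  rcases Nat.le_total (Nat.clog 2 (Nat.clog 2 z)) (Nat.log 2 (Nat.log 2 y)) with hle | hle
  · rw [Nat.sub_eq_zero_of_le hle]
    omega
  · have h3 : Nat.log 2 y < 2 ^ (Nat.log 2 (Nat.log 2 y) + 1) := Nat.lt_pow_succ_log_self (by norm_num) _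
    have h4 : y < 2 ^ (Nat.log 2 y + 1) := Nat.lt_pow_succ_log_self (by norm_num) _
    have h5 : z ≤ 2 ^ ((Nat.log 2 y + 1) * (2 * r)) := by
      rw [pow_mul]
      exact hzy.trans (Nat.pow_le_pow_left h4.le _)
    have h6 : Nat.clog 2 z ≤ (Nat.log 2 y + 1) * (2 * r) := Nat.clog_le_of_le_pow h5
    have h6' : Nat.clog 2 z ≤ 4 * r * Nat.log 2 y := by
      refine h6.trans ?_
      nlinarith
    have hc1 : 1 < Nat.clog 2 z := by
      by_contra h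
      push Not at h
      have h7 : z ≤ 2 ^ Nat.clog 2 z := Nat.le_pow_clog (by norm_num) z
      have h8 : 2 ^ Nat.clog 2 z ≤ 2 ^ 1 := Nat.pow_le_pow_right (by norm_num) h
      omega
    have h9 : 2 ^ (Nat.clog 2 (Nat.clog 2 z)).pred < Nat.clog 2 z := Nat.pow_pred_clog_lt_self (by norm_num) hc1
    have h7 : 1 ≤ Nat.clog 2 (Nat.clog 2 z) := by
      by_contra h
      have h0 : Nat.clog 2 (Nat.clog 2 z) = 0 := by omega
      have h2' : Nat.clog 2 z ≤ 2 ^ Nat.clog 2 (Nat.clog 2 z) := Nat.le_pow_clog (by norm_num) _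
      rw [h0] at h2'
      omega
    obtain ⟨j, hj⟩ : ∃ j, j = Nat.clog 2 (Nat.clog 2 z) := ⟨_, rfl⟩
    obtain ⟨i, hi⟩ : ∃ i, i = Nat.log 2 (Nat.log 2 y) := ⟨_, rfl⟩
    rw [← hj] at h9 h7 hle ⊢
    rw [← hi] at h3 hle ⊢
    have h8 : 2 ^ j = 2 * 2 ^ j.pred := by
      conv_lhs => rw [← Nat.succ_pred_eq_of_pos h7, pow_succ]
      ring
    have h10 : 2 ^ (j - i) * 2 ^ (i + 1) = 2 * 2 ^ j := by
      rw [← pow_add, ← pow_succ']
      congr 1
      omega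
    have h11 : 2 ^ (j - i) * Nat.log 2 y < 16 * r * Nat.log 2 y := by
      calc 2 ^ (j - i) * Nat.log 2 y < 2 ^ (j - i) * 2 ^ (i + 1) :=
            Nat.mul_lt_mul_of_pos_left h3 (by positivity)
        _ = 2 * 2 ^ j := h10
        _ ≤ 4 * Nat.clog 2 z := by omega
        _ ≤ 4 * (4 * r * Nat.log 2 y) := Nat.mul_le_mul_left _ h6'
        _ = 16 * r * Nat.log 2 y := by ring
    have h12 : 2 ^ (j - i) < 16 * r := lt_of_mul_lt_mul_right h11 (Nat.zero_le _)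
    have h13 : j - i < 2 ^ (j - i) := Nat.lt_two_pow_self
    omega

variable {m : ℕ} {J : ℕ}

open Classical in
/-- the integers with the pattern -/
noncomputable def PstG (f : Fin m → ℤ[X]) (y s : ℕ) (a b k : Fin J → ℕ) (Z Y : ℕ) : Finset ℕ :=
  (Ioc Z (Z + Y)).filter (fun n => (∀ h ∈ ({s} : Finset ℕ), Sf (Q f) y (n + h)) ∧
    ∀ j, ((Ioc (n + a j) (n + b j)).filter (Sf (Q f) y)).card = k j)

open Classical in
lemma patT_cardG (f : Fin m → ℤ[X]) (y s : ℕ) (a b k : Fin J → ℕ) (Z Y : ℕ) (T' : Finset ℕ) :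
    ((PstG f y s a b k Z Y).filter (fun n => ∀ p ∈ T', Q f p (n + s))).card =
      PatT (Qt (Q f) s) T' (Sf (Q f) y) {s} a b k Z Y := by
  unfold PatT PstG
  rw [filter_filter]
  congr 1
  apply filter_congr
  intro n _
  unfold Qt
  tauto

open Classical in
lemma seen_eqG {T s : ℕ} {a b : Fin J → ℕ} (hw : Windows T s a b) (f : Fin m → ℤ[X]) (y z : ℕ) (hyz : y ≤ z)
    (k : Fin J → ℕ) (Z Y : ℕ) (A S : Set ℕ)
    (hS : ∀ m ≤ Z + Y + T, (m ∈ S ↔ Sf (Q f) y m)) (hA : ∀ m ≤ Z + Y + T, (m ∈ A ↔ Sf (Q f) z m)) :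
    ((PstG f y s a b k Z Y).filter (fun n => NoHit ((Ioc y z).filter Nat.Prime) (fun p => Q f p (n + s)))).card =
      seen A S s a b k Z Y := by
  unfold PstG seen
  rw [filter_filter]
  congr 1
  apply filter_congr
  intro n hn
  rw [mem_Ioc] at hn
  have hsT := hw.1
  have h1 : (∀ h ∈ ({s} : Finset ℕ), Sf (Q f) y (n + h)) ↔ Sf (Q f) y (n + s) := by
    simp only [mem_singleton, forall_eq]
  have h2 : Counts S a b k n ↔ ∀ j, ((Ioc (n + a j) (n + b j)).filter (Sf (Q f) y)).card = k j := by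
    unfold Counts
    apply forall_congr'
    intro j
    rw [win_card hw S (Sf (Q f) y) hS n hn.2 j]
  have h3 : n + s ∈ A ↔ Sf (Q f) y (n + s) ∧ NoHit ((Ioc y z).filter Nat.Prime) (fun p => Q f p (n + s)) := by
    rw [hA (n + s) (by omega)]
    unfold Sf NoHit
    constructor
    · intro h
      refine ⟨fun p hp => h p (mem_pz.2 ⟨(mem_pz.1 hp).1.trans hyz, (mem_pz.1 hp).2⟩), fun p hp => ?_⟩
      rw [mem_filter, mem_Ioc] at hp
      exact h p (mem_pz.2 ⟨hp.1.2, hp.2⟩)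
    · rintro ⟨h4, h5⟩ p hp
      obtain ⟨h6, h7⟩ := mem_pz.1 hp
      rcases Nat.lt_or_ge y p with h8 | h8
      · exact h5 p (mem_filter.2 ⟨mem_Ioc.2 ⟨h8, h6⟩, h7⟩)
      · exact h4 p (mem_pz.2 ⟨h8, h7⟩)
  rw [h1, h2, h3]
  tauto

lemma Vq_split (Q : ℕ → ℕ → Prop) (y z : ℕ) (hyz : y ≤ z) :
    Vq Q z = Vq Q y * ∏ p ∈ (Ioc y z).filter Nat.Prime, (1 - (nuB Q p : ℝ) / p) := by
  classical
  unfold Vq
  rw [← Finset.prod_union]
  · congr 1
    ext p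
    rw [mem_union, mem_pz, mem_pz, mem_filter, mem_Ioc]
    constructor
    · rintro ⟨h1, h2⟩
      rcases Nat.lt_or_ge y p with h | h
      · exact Or.inr ⟨⟨h, h1⟩, h2⟩
      · exact Or.inl ⟨h, h2⟩
    · rintro (h | h)
      · exact ⟨h.1.trans hyz, h.2⟩
      · exact ⟨h.1.2, h.2⟩
  · rw [Finset.disjoint_left]
    intro p h1 h2
    rw [mem_pz] at h1
    rw [mem_filter, mem_Ioc] at h2
    omega

end Pool.Agent.U832.RH
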