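import Pool.Agent.U832.RH.GeB

/-!
# The windows around the values without prime factors up to a power of `X`: the law for systems of polynomials
-/

set_option autoImplicit false

namespace Pool.Agent.U832.RH

open Polynomial Finset Filter
open Pool.Agent.W123.RP Pool.Agent.H373R2.T7 Pool.Agent.W123.RU Pool.Agent.W123.RU.Poly
open Pool.Agent.TH464.PW Pool.Agent.TH464.PO Pool.Agent.Y879.GL
open Pool.Agent.U832.RG
open Pool.Agent.W23.DC
open Pool.Agent.Helper112.LP Pool.Agent.Helper112.LP.Kba Pool.Agent.Helper112.LP.Kbh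
open Pool.Agent.H483R2.BHKD Pool.Agent.H20R2.FL

/-- Mertens for the medium primes -/
lemma mert_P (w : ℝ) (hw0 : 0 < w) (hw : w ≤ 1 / 6) (r : ℕ) (hr : 1 ≤ w * r) : ∀ᶠ X : ℕ in atTop,
    ∑ p ∈ (Ioc ⌊(X : ℝ) ^ (1 / (r : ℝ))⌋₊ ⌊(X : ℝ) ^ w⌋₊).filter Nat.Prime, 1 / ((p : ℝ) - 1) ≤ Real.log r := by
  have hrpos : (0 : ℝ) < r := by
    by_contra h
    push Not at h
    nlinarith
  obtain ⟨N₀, hN⟩ := Pool.Agent.W378.DC.MP (1 / (r : ℝ)) 1 (by positivity) one_pos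
  filter_upwards [eventually_ge_atTop N₀, eventually_ge_atTop 2] with X hX hX2
  have hXr : (2 : ℝ) ≤ X := by exact_mod_cast hX2
  have h1 := hN X hX (1 / (r : ℝ)) (2 * w) le_rfl (by
    rw [div_le_iff₀ hrpos]
    linarith) (by linarith)
  have h2 := (abs_le.1 h1).2
  have h3 : ∑ p ∈ (Ioc ⌊(X : ℝ) ^ (1 / (r : ℝ))⌋₊ ⌊(X : ℝ) ^ w⌋₊).filter Nat.Prime, 1 / ((p : ℝ) - 1) ≤
      ∑ p ∈ pr X (1 / (r : ℝ)) (2 * w), 1 / ((p : ℝ) - 1) := by
    apply Finset.sum_le_sum_of_subset_of_nonneg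
    · intro p hp
      rw [mem_filter, mem_Ioc] at hp
      rw [pr_iff X hX2 _ _ (by linarith)]
      refine ⟨hp.2, ?_, ?_⟩
      · exact ((Nat.floor_lt (by positivity)).1 hp.1.1).le
      · have h4 : (p : ℝ) ≤ (X : ℝ) ^ w := (Nat.cast_le.2 hp.1.2).trans (Nat.floor_le (by positivity))
        exact h4.trans_lt (Real.rpow_lt_rpow_of_exponent_lt (by linarith) (by linarith))
    · intro p hp _
      have h4 := ((pr_iff X hX2 _ _ (by linarith) p).1 hp).1.one_le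
      have h5 : (1 : ℝ) ≤ p := by exact_mod_cast h4
      exact div_nonneg zero_le_one (by linarith)
  have h4 : Real.log (2 * w / (1 / r)) + 1 ≤ Real.log r := by
    have h5 : Real.log (2 * w / (1 / r)) + 1 = Real.log (2 * w * Real.exp 1 * r) := by
      rw [show 2 * w * Real.exp 1 * (r : ℝ) = (2 * w / (1 / r)) * Real.exp 1 by
        rw [div_div_eq_mul_div, div_one]
        ring, Real.log_mul (by positivity) (Real.exp_pos _).ne', Real.log_exp]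
    rw [h5]
    apply Real.log_le_log (by positivity)
    have h6 : 2 * w * Real.exp 1 ≤ 1 := by
      have := Real.exp_one_lt_d9
      nlinarith [Real.exp_pos 1]
    calc 2 * w * Real.exp 1 * r ≤ 1 * r := mul_le_mul_of_nonneg_right h6 hrpos.le
      _ = r := one_mul _
  linarith

lemma prod_bounds (P : Finset ℕ) (g : ℕ → ℝ) (c : ℕ) (r : ℝ) (hr : 1 ≤ r)
    (h : ∀ p ∈ P, 0 ≤ g p ∧ g p ≤ c / ((p : ℝ) - 1) ∧ g p ≤ 1 / 2)
    (hs : ∑ p ∈ P, 1 / ((p : ℝ) - 1) ≤ Real.log r) :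
    ∏ p ∈ P, (1 + g p) ≤ r ^ c ∧ 1 ≤ r ^ (2 * c) * ∏ p ∈ P, (1 - g p) := by
  have hr0 : 0 < r := by linarith
  have hsum : ∑ p ∈ P, g p ≤ c * Real.log r := by
    calc ∑ p ∈ P, g p ≤ ∑ p ∈ P, c * (1 / ((p : ℝ) - 1)) := by
          apply Finset.sum_le_sum
          intro p hp
          rw [mul_one_div]
          exact (h p hp).2.1
      _ = c * ∑ p ∈ P, 1 / ((p : ℝ) - 1) := by rw [Finset.mul_sum]
      _ ≤ c * Real.log r := mul_le_mul_of_nonneg_left hs (Nat.cast_nonneg _)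
  constructor
  · calc ∏ p ∈ P, (1 + g p) ≤ ∏ p ∈ P, Real.exp (g p) := by
          apply Finset.prod_le_prod
          · intro p hp
            linarith [(h p hp).1]
          · intro p _
            linarith [Real.add_one_le_exp (g p)]
      _ = Real.exp (∑ p ∈ P, g p) := (Real.exp_sum _ _).symm
      _ ≤ Real.exp (c * Real.log r) := Real.exp_le_exp.2 hsum
      _ = r ^ c := by rw [Real.exp_nat_mul, Real.exp_log hr0]
  · have h1 : Real.exp (-(2 * (c * Real.log r))) ≤ ∏ p ∈ P, (1 - g p) := by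
      calc Real.exp (-(2 * (c * Real.log r))) ≤ Real.exp (∑ p ∈ P, -(2 * g p)) := by
            apply Real.exp_le_exp.2
            rw [Finset.sum_neg_distrib, ← Finset.mul_sum]
            linarith
        _ = ∏ p ∈ P, Real.exp (-(2 * g p)) := Real.exp_sum _ _
        _ ≤ ∏ p ∈ P, (1 - g p) := by
            apply Finset.prod_le_prod
            · intro p _
              exact (Real.exp_pos _).le
            · intro p hp
              exact bh_inv_ge (h p hp).1 (h p hp).2.2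
    have h2 : r ^ (2 * c) = Real.exp (2 * (c * Real.log r)) := by
      have e : 2 * ((c : ℝ) * Real.log r) = ((2 * c : ℕ) : ℝ) * Real.log r := by push_cast; ring
      rw [e, Real.exp_nat_mul, Real.exp_log hr0]
    rw [h2]
    calc (1 : ℝ) = Real.exp (2 * (c * Real.log r)) * Real.exp (-(2 * (c * Real.log r))) := by
          rw [← Real.exp_add, add_neg_cancel, Real.exp_zero]
      _ ≤ _ := mul_le_mul_of_nonneg_left h1 (Real.exp_pos _).le

open Classical in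
/-- **The law for systems of polynomials**, around the values without prime factors up to a power of `X`. -/
theorem lawG_polys (m D : ℕ) (E δU θ : ℝ) (hE : 0 < E) (hδU : 0 < δU) (hθ : 0 < θ) (δ : ℝ) (hδ : 0 < δ) :
    ∃ w₀ : ℝ, 0 < w₀ ∧ ∀ w : ℝ, 0 < w → w ≤ w₀ → ∀ (J L : ℕ) (x0 ε : ℝ), 0 < ε →
      ∃ r0 : ℕ, ∀ r : ℕ, r0 ≤ r → ∀ Cv : ℝ, ∀ᶠ X : ℕ in atTop,
      ∀ y z : ℕ, y = ⌊(X : ℝ) ^ (1 / (r : ℝ))⌋₊ → z = ⌊(X : ℝ) ^ w⌋₊ → ∀ f : Fin m → ℤ[X],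
      US m D ((X : ℝ) ^ E) ((X : ℝ) ^ δU) f → Vq (Q f) y ≤ Cv / Real.log X →
      ∀ Z Y : ℕ, (X : ℝ) ^ θ ≤ Y → ∀ T : ℕ, T * Vq (Q f) y ≤ x0 →
      ∀ A S : Set ℕ, (∀ n ≤ Z + Y + T, (n ∈ S ↔ Sf (Q f) y n)) → (∀ n ≤ Z + Y + T, (n ∈ A ↔ Sf (Q f) z n)) →
        CentreLaw A S (Vq (Q f) z) (Vq (Q f) y) J L δ ε Z Y T := by
  obtain ⟨CF, hCF, HF⟩ := gen_core
  obtain ⟨c, hc⟩ : ∃ c, c = m * D + 1 := ⟨_, rfl⟩
  obtain ⟨b1, hb1⟩ := exists_pow_lt_of_lt_one hδ (show (1 / 2 : ℝ) < 1 by norm_num)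
  obtain ⟨b, hb⟩ : ∃ b, b = max (CF * (c + 1)) b1 := ⟨_, rfl⟩
  have hbC : CF * (c + 1) ≤ b := by rw [hb]; exact le_max_left _ _
  have hbpos : 1 ≤ b := le_trans (by nlinarith) hbC
  have hbδ : (1 / 2 : ℝ) ^ b ≤ δ := by
    refine le_trans ?_ hb1.le
    exact pow_le_pow_of_le_one (by norm_num) (by norm_num) (by rw [hb]; exact le_max_right _ _)
  obtain ⟨θ', hθ'⟩ : ∃ θ', θ' = min θ 1 := ⟨_, rfl⟩
  have hθ'0 : 0 < θ' := by rw [hθ']; exact lt_min hθ one_pos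
  have hθ'1 : θ' ≤ 1 := by rw [hθ']; exact min_le_right _ _
  have hθ'θ : θ' ≤ θ := by rw [hθ']; exact min_le_left _ _
  have hCFr : (1 : ℝ) ≤ CF := by exact_mod_cast hCF
  have hbr : (1 : ℝ) ≤ b := by exact_mod_cast hbpos
  have hCb : (1 : ℝ) ≤ CF * b := by nlinarith
  refine ⟨θ' / (6 * (CF * b)), by positivity, ?_⟩
  intro w hw0 hw J L x0 ε hε
  have hw1 : w * (3 * (CF * b)) ≤ θ' / 2 := by
    rw [le_div_iff₀ (by positivity)] at hw
    linarith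
  have hw6 : w ≤ 1 / 6 := by nlinarith
  obtain ⟨Cp, hCp, hproc⟩ := proc_polysT m D E δU (θ' / 2) hE hδU (by linarith) J L x0
  obtain ⟨r1, hr1⟩ := exists_q Cp hCp (θ' / 2) (by linarith) 16 ε (by norm_num) hε (3 * c + 1)
  obtain ⟨r2, hr2⟩ := exists_nat_ge (1 / w)
  refine ⟨max (max r1 r2) 2, ?_⟩
  intro r hr Cv
  have hrr1 : r1 ≤ r := ((le_max_left _ _).trans (le_max_left _ _)).trans hr
  have hrr2 : r2 ≤ r := ((le_max_right _ _).trans (le_max_left _ _)).trans hr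
  have h2r : 2 ≤ r := (le_max_right _ _).trans hr
  have hrpos : (0 : ℝ) < r := by exact_mod_cast (by omega : 0 < r)
  have hr1r : (1 : ℝ) ≤ r := by exact_mod_cast (by omega : 1 ≤ r)
  obtain ⟨q, hq1, hq2⟩ := hr1 r hrr1
  have hwr : 1 ≤ w * r := by
    have h1 : 1 / w ≤ r := hr2.trans (by exact_mod_cast hrr2)
    rw [div_le_iff₀ hw0] at h1
    linarith
  have hpow : ∀ e : ℝ, 0 < e → Tendsto (fun X : ℕ => (X : ℝ) ^ e) atTop atTop := fun e he =>
    (tendsto_rpow_atTop he).comp tendsto_natCast_atTop_atTop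
  filter_upwards [hproc q r h2r hq1 Cv, mert_P w hw0 hw6 r hwr,
    (hpow (1 / (2 * r : ℝ)) (by positivity)).eventually_ge_atTop (CF * (c + 1) + 2 * c + 3),
    (hpow w hw0).eventually_ge_atTop 5, eventually_ge_atTop 3] with X hX hXM hX1 hX2 hX3
  intro y z hy hz f hus hV Z Y hY T hT A S hS hA
  have hXr : (3 : ℝ) ≤ X := by exact_mod_cast hX3
  have hXpos : (0 : ℝ) < X := by linarith
  have hX1r : (1 : ℝ) ≤ X := by linarith
  have hCc0 : (0 : ℝ) ≤ (CF : ℝ) * (c + 1) := by positivity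
  have hc0 : (0 : ℝ) ≤ (c : ℝ) := Nat.cast_nonneg _
  obtain ⟨hy1, hy2, hy3, hy4⟩ := level_low r h2r X (by omega) (by linarith)
  rw [← hy] at hy1 hy2 hy3 hy4 hX hXM
  rw [← hz] at hXM
  have hyb : (CF : ℝ) * (c + 1) + 2 * c + 3 ≤ y := by linarith
  have hyb1 : CF * (c + 1) ≤ y := by
    have : ((CF * (c + 1) : ℕ) : ℝ) ≤ y := by push_cast; linarith
    exact_mod_cast this
  have hyb2 : 2 * c + 3 ≤ y := by
    have : ((2 * c + 3 : ℕ) : ℝ) ≤ y := by push_cast; linarith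
    exact_mod_cast this
  have hz4 : 4 ≤ z := by
    rw [hz]
    exact Nat.le_floor (by push_cast; linarith)
  have hyz : y ≤ z := by
    rw [hy, hz]
    apply Nat.floor_le_floor
    apply Real.rpow_le_rpow_of_exponent_le hX1r
    rw [div_le_iff₀ hrpos]
    exact hwr
  have hzX : (z : ℝ) ≤ (X : ℝ) ^ w := by rw [hz]; exact Nat.floor_le (by positivity)
  have hzy : z ≤ y ^ (2 * r) := by
    have h1 : (z : ℝ) ≤ (y : ℝ) ^ (2 * r) := by
      calc (z : ℝ) ≤ (X : ℝ) ^ w := hzX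
        _ ≤ (X : ℝ) ^ (1 : ℝ) := Real.rpow_le_rpow_of_exponent_le hX1r (by linarith)
        _ = ((X : ℝ) ^ (1 / (2 * r : ℝ))) ^ (2 * r) := by
            rw [← Real.rpow_natCast, ← Real.rpow_mul hXpos.le]
            congr 1
            push_cast
            field_simp
        _ ≤ (y : ℝ) ^ (2 * r) := pow_le_pow_left₀ (by positivity) hy1 _
    exact_mod_cast h1
  obtain ⟨lu1, lu2⟩ := lev_up z hz4
  obtain ⟨ld1, ld2⟩ := lev_down y z r hy4 hz4 (by omega) hzy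
  obtain ⟨j', hj'⟩ : ∃ j', j' = Nat.clog 2 (Nat.clog 2 z) := ⟨_, rfl⟩
  obtain ⟨j₀, hj₀⟩ : ∃ j₀, j₀ = Nat.log 2 (Nat.log 2 y) := ⟨_, rfl⟩
  rw [← hj'] at lu1 lu2 ld2
  rw [← hj₀] at ld1 ld2
  obtain ⟨P, hP⟩ : ∃ P, P = (Ioc y z).filter Nat.Prime := ⟨_, rfl⟩
  rw [← hP] at hXM
  have hmem : ∀ p ∈ P, p.Prime ∧ y < p ∧ p ≤ z := by
    intro p hp
    rw [hP, mem_filter, mem_Ioc] at hp
    exact ⟨hp.2, hp.1.1, hp.1.2⟩
  obtain ⟨g, hg⟩ : ∃ g : ℕ → ℝ, g = fun p => (nuB (Q f) p : ℝ) / p := ⟨_, rfl⟩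
  have hgb : ∀ p ∈ P, 0 ≤ g p ∧ g p ≤ c / ((p : ℝ) - 1) ∧ g p ≤ 1 / 2 := by
    intro p hp
    obtain ⟨h1, h2, h3⟩ := hmem p hp
    have h4 : nuB (Q f) p ≤ c := by rw [hc]; exact (us_perB hus).few p h1
    have h4r : (nuB (Q f) p : ℝ) ≤ c := by exact_mod_cast h4
    have h5 : ((2 * c + 3 : ℕ) : ℝ) < p := by exact_mod_cast hyb2.trans_lt h2
    push_cast at h5
    have hp1 : (1 : ℝ) < p := by linarith
    rw [hg]
    dsimp only
    refine ⟨by positivity, ?_, ?_⟩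
    · apply div_le_div₀ hc0 h4r (by linarith) (by linarith)
    · rw [div_le_iff₀ (by linarith)]
      linarith
  obtain ⟨b1', b2'⟩ := prod_bounds P g c r hr1r hgb hXM
  intro s a b' k hwin hkL
  obtain ⟨po', hpo⟩ : ∃ po' : ℝ, po' = ∏ j, po (k j) (((b' j - a j : ℕ) : ℝ) * Vq (Q f) y) := ⟨_, rfl⟩
  have hVy0 : 0 ≤ Vq (Q f) y := by
    unfold Vq
    apply Finset.prod_nonneg
    intro p hp
    have h1 := us_adm hus p (mem_pz.1 hp).2
    have h2 : (nuB (Q f) p : ℝ) ≤ p := by exact_mod_cast h1.le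
    have h3 : (0 : ℝ) < p := by exact_mod_cast (mem_pz.1 hp).2.pos
    have h4 : (nuB (Q f) p : ℝ) / p ≤ 1 := (div_le_one h3).2 h2
    linarith
  have hpo0 : 0 ≤ po' := by
    rw [hpo]
    exact Finset.prod_nonneg fun j _ => po_nonneg _ _ (by positivity)
  have hgoal : (∏ j, poisson (k j) (((b' j - a j : ℕ) : ℝ) * Vq (Q f) y)) = po' := by
    rw [hpo]
    rfl
  rw [hgoal]
  have hVz : Vq (Q f) z = Vq (Q f) y * ∏ p ∈ P, (1 - g p) := by
    rw [Vq_split (Q f) y z hyz, hP, hg]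
  have hP1 : 0 ≤ ∏ p ∈ P, (1 - g p) := Finset.prod_nonneg fun p hp => by
    have := (hgb p hp).2.2
    linarith
  have hVz0 : 0 ≤ Vq (Q f) z := by rw [hVz]; exact mul_nonneg hVy0 hP1
  have hY0 : (0 : ℝ) ≤ Y := Nat.cast_nonneg Y
  have hmain := HF c b j₀ j' y P g hbC hyb1 (fun p hp => ⟨(hmem p hp).1, (hmem p hp).2.1, (hmem p hp).2.2.trans lu1⟩)
    (fun p hp => ld1.trans (hmem p hp).2.1.le) (fun p hp => ⟨(hgb p hp).1, (hgb p hp).2.1⟩)
    (PstG f y s a b' k Z Y) (fun p n => Q f p (n + s)) (Y * Vq (Q f) y * po') ((1 / 2) ^ q * (Y * Vq (Q f) y))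
    (by positivity) (by positivity) (by
      intro T' hT' hprod
      have hlev : ((∏ p ∈ T', p : ℕ) : ℝ) * (X : ℝ) ^ (θ' / 2) ≤ Y := by
        have h1 : ((∏ p ∈ T', p : ℕ) : ℝ) ≤ (X : ℝ) ^ (θ' / 2) := by
          calc ((∏ p ∈ T', p : ℕ) : ℝ) ≤ (((2 ^ 2 ^ j') ^ (CF * b) : ℕ) : ℝ) := by exact_mod_cast hprod
            _ ≤ (((z ^ 3) ^ (CF * b) : ℕ) : ℝ) := by exact_mod_cast Nat.pow_le_pow_left lu2 _
            _ = (z : ℝ) ^ (3 * (CF * b)) := by push_cast; rw [← pow_mul]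
            _ ≤ ((X : ℝ) ^ w) ^ (3 * (CF * b)) := pow_le_pow_left₀ (Nat.cast_nonneg _) hzX _
            _ = (X : ℝ) ^ (w * (3 * (CF * b))) := by
                rw [← Real.rpow_natCast, ← Real.rpow_mul hXpos.le]
                push_cast
                rfl
            _ ≤ (X : ℝ) ^ (θ' / 2) := Real.rpow_le_rpow_of_exponent_le hX1r hw1
        calc ((∏ p ∈ T', p : ℕ) : ℝ) * (X : ℝ) ^ (θ' / 2) ≤ (X : ℝ) ^ (θ' / 2) * (X : ℝ) ^ (θ' / 2) :=
              mul_le_mul_of_nonneg_right h1 (by positivity)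
          _ = (X : ℝ) ^ θ' := by
              rw [← Real.rpow_add hXpos]
              congr 1
              ring
          _ ≤ (X : ℝ) ^ θ := Real.rpow_le_rpow_of_exponent_le hX1r hθ'θ
          _ ≤ Y := hY
      have h1 := hX f hus hV s T' Z Y (fun p hp => ⟨(hmem p (hT' hp)).1, (hmem p (hT' hp)).2.1⟩) hlev T {s} a b' k hT
        (win_single hwin) hkL
      rw [card_singleton, pow_one, ← hpo] at h1
      have h2 : ∏ p ∈ T', g p = GT (Q f) T' := by rw [hg]; rfl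
      have e0 := patT_cardG f y s a b' k Z Y T'
      have e1 : (Y : ℝ) * GT (Q f) T' * Vq (Q f) y * po' = Y * Vq (Q f) y * po' * GT (Q f) T' := by ring
      have e2 : (1 / 2 : ℝ) ^ q * (Y * GT (Q f) T' * Vq (Q f) y) = (1 / 2) ^ q * (Y * Vq (Q f) y) * GT (Q f) T' := by
        ring
      rw [h2, e0]
      rwa [e1, e2] at h1)
  rw [hP, seen_eqG hwin f y z hyz k Z Y A S hS hA, ← hP] at hmain
  have e3 : (Y : ℝ) * Vq (Q f) y * po' * ∏ p ∈ P, (1 - g p) = Y * Vq (Q f) z * po' := by rw [hVz]; ring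
  rw [e3] at hmain
  refine hmain.trans ?_
  have hjr : ((j' - j₀ : ℕ) : ℝ) + 1 ≤ 16 * r := by exact_mod_cast ld2
  -- the error of the precision
  have h4 : (((j' - j₀ : ℕ) : ℝ) + 1) * ((1 / 2) ^ q * (Y * Vq (Q f) y)) * ∏ p ∈ P, (1 + g p) ≤
      ε * (Y * Vq (Q f) z) := by
    have h5 : (((j' - j₀ : ℕ) : ℝ) + 1) * ((1 / 2) ^ q * (Y * Vq (Q f) y)) * ∏ p ∈ P, (1 + g p) ≤
        (16 * r) * ((1 / 2) ^ q * (Y * Vq (Q f) y)) * (r : ℝ) ^ c := by
      apply mul_le_mul _ b1' _ (by positivity)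
      · exact mul_le_mul_of_nonneg_right hjr (by positivity)
      · exact Finset.prod_nonneg fun p hp => by
          have := (hgb p hp).1
          linarith
    refine h5.trans ?_
    have h6 : (16 * r) * ((1 / 2) ^ q * (Y * Vq (Q f) y)) * (r : ℝ) ^ c ≤
        (16 * r) * ((1 / 2) ^ q * (Y * Vq (Q f) y)) * (r : ℝ) ^ c * ((r : ℝ) ^ (2 * c) * ∏ p ∈ P, (1 - g p)) :=
      le_mul_of_one_le_right (by positivity) b2'
    refine h6.trans ?_
    have e7 : (16 * r) * ((1 / 2) ^ q * (Y * Vq (Q f) y)) * (r : ℝ) ^ c * ((r : ℝ) ^ (2 * c) * ∏ p ∈ P, (1 - g p)) =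
        16 * ((r : ℝ) ^ (3 * c + 1) * (1 / 2) ^ q) * (Y * (Vq (Q f) y * ∏ p ∈ P, (1 - g p))) := by ring
    rw [e7, ← hVz]
    exact mul_le_mul_of_nonneg_right hq2 (by positivity)
  have h8 : (1 / 2 : ℝ) ^ b * (Y * Vq (Q f) z * po') ≤ δ * (Y * Vq (Q f) z * po') :=
    mul_le_mul_of_nonneg_right hbδ (by positivity)
  calc _ ≤ δ * (Y * Vq (Q f) z * po') + ε * (Y * Vq (Q f) z) := add_le_add h8 h4
    _ = (δ * po' + ε) * (Y * Vq (Q f) z) := by ring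

end Pool.Agent.U832.RH
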