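import Pool.Agent.H484R2.Pit
import Pool.Agent.H474R2.GE.RhoHoms
import Pool.Agent.H474R2.PG.HomsRho
import Pool.Agent.Y882.MG.Lin

/-!
# The roots of an irreducible polynomial modulo primes: Mertens' theorem with `o(1)` (from the prime ideal theorem)
-/

set_option autoImplicit false

namespace Pool.Agent.U832.RH

open Polynomial Finset Filter Topology NumberField
open Pool.Agent.H474R2.PG (rho P2_core)
open Pool.Agent.H474R2.GE (M1_core)

theorem rho_eq_homs (f : ℤ[X]) (hf : Irreducible f) (hd : 0 < f.natDegree) :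
    ∃ (K : Type) (_ : Field K) (_ : NumberField K), ∃ B : ℕ, ∀ p : ℕ, p.Prime → B < p →
      rho f p = Nat.card (𝓞 K →+* ZMod p) := by
  have hprim : f.IsPrimitive := hf.isPrimitive hd.ne'
  have hF : Irreducible (f.map (Int.castRingHom ℚ)) :=
    (IsPrimitive.Int.irreducible_iff_irreducible_map_cast hprim).1 hf
  have hfact : Fact (Irreducible (f.map (Int.castRingHom ℚ))) := ⟨hF⟩
  have hadj : ∀ x : AdjoinRoot (f.map (Int.castRingHom ℚ)), ∃ q : ℚ[X],
      eval₂ (Rat.castHom (AdjoinRoot (f.map (Int.castRingHom ℚ))))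
        (AdjoinRoot.root (f.map (Int.castRingHom ℚ))) q = x := by
    intro x
    obtain ⟨q, rfl⟩ := AdjoinRoot.mk_surjective x
    refine ⟨q, ?_⟩
    have h2 : Rat.castHom (AdjoinRoot (f.map (Int.castRingHom ℚ))) =
        AdjoinRoot.of (f.map (Int.castRingHom ℚ)) := Subsingleton.elim _ _
    rw [h2]
    have h3 := AdjoinRoot.aeval_eq (f := f.map (Int.castRingHom ℚ)) q
    rw [← h3]
    rfl
  obtain ⟨B1, hB1⟩ := P2_core (AdjoinRoot (f.map (Int.castRingHom ℚ))) f hd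
    (AdjoinRoot.root (f.map (Int.castRingHom ℚ))) (by
      have h1 := AdjoinRoot.eval₂_root (f.map (Int.castRingHom ℚ))
      rw [eval₂_map] at h1
      have h2 : (AdjoinRoot.of (f.map (Int.castRingHom ℚ))).comp (Int.castRingHom ℚ) =
          Int.castRingHom (AdjoinRoot (f.map (Int.castRingHom ℚ))) := RingHom.ext_int _ _
      rw [h2] at h1
      exact h1) hadj
  obtain ⟨B2, hB2⟩ := M1_core (AdjoinRoot (f.map (Int.castRingHom ℚ))) f
    (AdjoinRoot.root (f.map (Int.castRingHom ℚ))) (by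
      intro A hA
      have h1 : AdjoinRoot.mk (f.map (Int.castRingHom ℚ)) (A.map (Int.castRingHom ℚ)) = 0 := by
        have h3 := AdjoinRoot.aeval_eq (f := f.map (Int.castRingHom ℚ)) (A.map (Int.castRingHom ℚ))
        rw [← h3, aeval_def, eval₂_map]
        have hg : ∀ g : ℤ →+* AdjoinRoot (f.map (Int.castRingHom ℚ)),
            eval₂ g (AdjoinRoot.root (f.map (Int.castRingHom ℚ))) A = 0 := by
          intro g
          rw [RingHom.ext_int g (Int.castRingHom _)]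
          exact hA
        exact hg _
      rw [AdjoinRoot.mk_eq_zero] at h1
      exact (IsPrimitive.Int.dvd_iff_map_cast_dvd_map_cast f A hprim).2 h1) hadj
  refine ⟨AdjoinRoot (f.map (Int.castRingHom ℚ)), inferInstance, inferInstance, max B1 B2, fun p hp hB => ?_⟩
  exact le_antisymm (hB2 p hp ((le_max_right _ _).trans_lt hB)) (hB1 p hp ((le_max_left _ _).trans_lt hB))

/-- the mean number of roots is `1` -/
theorem rho_mean (f : ℤ[X]) (hf : Irreducible f) (hd : 0 < f.natDegree) (κ : ℝ) (hκ : 0 < κ) :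
    ∀ᶠ N : ℕ in atTop, |∑ p ∈ (range (N + 1)).filter Nat.Prime, ((rho f p : ℝ) - 1)| ≤
      κ * ∑ p ∈ (range (N + 1)).filter Nat.Prime, (1 : ℝ) := by
  obtain ⟨K, iF, iN, B, hB⟩ := rho_eq_homs f hf hd
  have hpit := Pool.Agent.H484R2.pit K
  have hpc := Pool.Agent.H484R2.primeCounting_tendsto_real
  obtain ⟨C, hC⟩ : ∃ C : ℝ, C = ∑ p ∈ (range (B + 1)).filter Nat.Prime,
    |(rho f p : ℝ) - (Nat.card (𝓞 K →+* ZMod p) : ℝ)| := ⟨_, rfl⟩
  have h1 := (Metric.tendsto_atTop.1 hpit (κ / 2) (by linarith))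
  obtain ⟨N1, hN1⟩ := h1
  filter_upwards [eventually_ge_atTop N1, hpc.eventually_ge_atTop (2 * C / κ + 1)] with N hN hN2
  have hC0 : 0 ≤ C := by
    rw [hC]
    exact Finset.sum_nonneg fun _ _ => abs_nonneg _
  have hP : ((∑ p ∈ (range (N + 1)).filter Nat.Prime, (1 : ℝ)) : ℝ) = (Nat.primeCounting N : ℝ) := by
    rw [Finset.sum_const, nsmul_eq_mul, mul_one]
    unfold Nat.primeCounting Nat.primeCounting'
    rw [Nat.count_eq_card_filter_range]
  have hPpos : (0 : ℝ) < (Nat.primeCounting N : ℝ) := by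
    have : 0 ≤ 2 * C / κ := by positivity
    linarith
  have h2 := hN1 N hN
  rw [Real.dist_eq] at h2
  have h3 : |(∑ p ∈ (range (N + 1)).filter Nat.Prime, (Nat.card (𝓞 K →+* ZMod p) : ℝ)) -
      (Nat.primeCounting N : ℝ)| ≤ κ / 2 * (Nat.primeCounting N : ℝ) := by
    have e : (∑ p ∈ (range (N + 1)).filter Nat.Prime, (Nat.card (𝓞 K →+* ZMod p) : ℝ)) -
        (Nat.primeCounting N : ℝ) = ((∑ p ∈ (range (N + 1)).filter Nat.Prime,
          (Nat.card (𝓞 K →+* ZMod p) : ℝ)) / (Nat.primeCounting N : ℝ) - 1) * (Nat.primeCounting N : ℝ) := by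
      field_simp
    rw [e, abs_mul, abs_of_pos hPpos]
    exact mul_le_mul_of_nonneg_right h2.le hPpos.le
  have h4 : |∑ p ∈ (range (N + 1)).filter Nat.Prime,
      ((rho f p : ℝ) - (Nat.card (𝓞 K →+* ZMod p) : ℝ))| ≤ C := by
    refine (Finset.abs_sum_le_sum_abs _ _).trans ?_
    rw [hC]
    have h5 : ∑ p ∈ (range (N + 1)).filter Nat.Prime,
        |(rho f p : ℝ) - (Nat.card (𝓞 K →+* ZMod p) : ℝ)| =
        ∑ p ∈ ((range (N + 1)).filter Nat.Prime).filter (fun p => p ≤ B),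
        |(rho f p : ℝ) - (Nat.card (𝓞 K →+* ZMod p) : ℝ)| := by
      symm
      apply Finset.sum_subset (Finset.filter_subset _ _)
      intro p hp hp2
      have hpB : B < p := by
        by_contra h
        push Not at h
        exact hp2 (mem_filter.2 ⟨hp, h⟩)
      rw [hB p (mem_filter.1 hp).2 hpB, sub_self, abs_zero]
    rw [h5]
    apply Finset.sum_le_sum_of_subset_of_nonneg
    · intro p hp
      rw [mem_filter, mem_filter] at hp
      rw [mem_filter, mem_range]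
      exact ⟨by omega, hp.1.2⟩
    · intro _ _ _
      exact abs_nonneg _
  have h6 : C ≤ κ / 2 * (Nat.primeCounting N : ℝ) := by
    have h7 : 2 * C / κ ≤ (Nat.primeCounting N : ℝ) := by linarith
    rw [div_le_iff₀ hκ] at h7
    linarith
  rw [hP]
  have e2 : ∑ p ∈ (range (N + 1)).filter Nat.Prime, ((rho f p : ℝ) - 1) =
      ∑ p ∈ (range (N + 1)).filter Nat.Prime, ((rho f p : ℝ) - (Nat.card (𝓞 K →+* ZMod p) : ℝ)) +
      ((∑ p ∈ (range (N + 1)).filter Nat.Prime, (Nat.card (𝓞 K →+* ZMod p) : ℝ)) -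
      (Nat.primeCounting N : ℝ)) := by
    rw [← hP, Finset.sum_sub_distrib, Finset.sum_sub_distrib]
    ring
  rw [e2]
  refine (abs_add_le _ _).trans ?_
  linarith

/-- summation by parts -/
lemma abel (d : ℕ → ℝ) (A B : ℕ) (hA : 1 ≤ A) (hAB : A ≤ B) :
    ∑ k ∈ Ioc A B, d k / k = (∑ k ∈ range (B + 1), d k) / (B + 1) - (∑ k ∈ range (A + 1), d k) / (A + 1) +
      ∑ n ∈ Ioc A B, (∑ k ∈ range (n + 1), d k) * (1 / (n : ℝ) - 1 / ((n : ℝ) + 1)) := by
  induction B, hAB using Nat.le_induction with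
  | base => simp
  | succ B hB ih =>
    have hB0 : (0 : ℝ) < B := by exact_mod_cast (by omega : 0 < B)
    have hI : Ioc A (B + 1) = insert (B + 1) (Ioc A B) := by
      ext x
      simp only [mem_Ioc, mem_insert]
      omega
    rw [hI, Finset.sum_insert (by simp), Finset.sum_insert (by simp), ih, Finset.sum_range_succ _ (B + 1)]
    push_cast
    field_simp
    ring

/-- summation by parts for the difference of two sequences -/
lemma abel_le (d e : ℕ → ℝ) (κ : ℝ) (A B : ℕ) (hA : 1 ≤ A) (hAB : A ≤ B)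
    (he : ∀ k, 0 ≤ e k) (he1 : ∀ k, e k ≤ 1) (hκ : 0 ≤ κ)
    (hd : ∀ n, A ≤ n → |∑ k ∈ range (n + 1), d k| ≤ κ * ∑ k ∈ range (n + 1), e k) :
    |∑ k ∈ Ioc A B, d k / k| ≤ κ * (∑ k ∈ Ioc A B, e k / k + 2) := by
  have h1 := abel d A B hA hAB
  have h2 := abel e A B hA hAB
  have hA0 : (0 : ℝ) < A := by exact_mod_cast hA
  have hB0 : (0 : ℝ) < B := by exact_mod_cast (by omega : 0 < B)
  have hE : (∑ k ∈ range (A + 1), e k) / (A + 1) ≤ 1 := by
    rw [div_le_one (by positivity)]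
    calc ∑ k ∈ range (A + 1), e k ≤ ∑ _k ∈ range (A + 1), (1 : ℝ) := Finset.sum_le_sum fun k _ => he1 k
      _ = (A : ℝ) + 1 := by simp
  have t1 : |(∑ k ∈ range (B + 1), d k) / (B + 1)| ≤ κ * ((∑ k ∈ range (B + 1), e k) / (B + 1)) := by
    rw [abs_div, abs_of_pos (by positivity : (0 : ℝ) < (B : ℝ) + 1), ← mul_div_assoc]
    exact div_le_div_of_nonneg_right (hd B hAB) (by positivity)
  have t2 : |(∑ k ∈ range (A + 1), d k) / (A + 1)| ≤ κ * ((∑ k ∈ range (A + 1), e k) / (A + 1)) := by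
    rw [abs_div, abs_of_pos (by positivity : (0 : ℝ) < (A : ℝ) + 1), ← mul_div_assoc]
    exact div_le_div_of_nonneg_right (hd A le_rfl) (by positivity)
  have t3 : |∑ n ∈ Ioc A B, (∑ k ∈ range (n + 1), d k) * (1 / (n : ℝ) - 1 / ((n : ℝ) + 1))| ≤
      κ * ∑ n ∈ Ioc A B, (∑ k ∈ range (n + 1), e k) * (1 / (n : ℝ) - 1 / ((n : ℝ) + 1)) := by
    refine (Finset.abs_sum_le_sum_abs _ _).trans ?_
    rw [Finset.mul_sum]
    apply Finset.sum_le_sum
    intro n hn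
    have hn1 := (mem_Ioc.1 hn).1
    have hn0 : (0 : ℝ) < n := by exact_mod_cast (by omega : 0 < n)
    have hw : 0 ≤ 1 / (n : ℝ) - 1 / ((n : ℝ) + 1) := by
      rw [sub_nonneg]
      apply one_div_le_one_div_of_le hn0
      linarith
    rw [abs_mul, abs_of_nonneg hw, ← mul_assoc]
    exact mul_le_mul_of_nonneg_right (hd n hn1.le) hw
  have hsum : |∑ k ∈ Ioc A B, d k / k| ≤ κ * ((∑ k ∈ range (B + 1), e k) / (B + 1)) +
      κ * ((∑ k ∈ range (A + 1), e k) / (A + 1)) +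
      κ * ∑ n ∈ Ioc A B, (∑ k ∈ range (n + 1), e k) * (1 / (n : ℝ) - 1 / ((n : ℝ) + 1)) := by
    rw [h1]
    refine (abs_add_le _ _).trans (add_le_add ((abs_sub _ _).trans (add_le_add t1 t2)) t3)
  refine hsum.trans ?_
  rw [h2, ← mul_add, ← mul_add]
  apply mul_le_mul_of_nonneg_left _ hκ
  linarith

/-- **Mertens' theorem for the roots of an irreducible polynomial.** -/
theorem mer_gen (f : ℤ[X]) (hf : Irreducible f) (hd : 0 < f.natDegree) (ε₁ υ η : ℝ) (hε : 0 < ε₁) (hυ : υ ≤ 1)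
    (hη : 0 < η) : ∀ᶠ Y : ℕ in atTop, Pool.Agent.W23.DC.Mer (Pool.Agent.W23.DC.pr Y ε₁ υ) (Pool.Agent.W23.DC.tt Y)
      (fun p => (rho f p : ℝ) / p) ε₁ υ η := by
  classical
  obtain ⟨M, hM⟩ : ∃ M : ℝ, M = |Real.log (1 / ε₁)| + 3 := ⟨_, rfl⟩
  have hM0 : 0 < M := by rw [hM]; positivity
  obtain ⟨κ, hκ⟩ : ∃ κ : ℝ, κ = η / (2 * M) := ⟨_, rfl⟩
  have hκ0 : 0 < κ := by rw [hκ]; positivity
  obtain ⟨N0, hN0⟩ := eventually_atTop.1 (rho_mean f hf hd κ hκ0)
  obtain ⟨Y0, hY0⟩ := Pool.Agent.Y882.MG.mer_lin ε₁ υ (min (η / 2) 1) hε hυ (by positivity)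
  have ev1 : ∀ᶠ Y : ℕ in atTop, (N0 : ℝ) + 3 ≤ (Y : ℝ) ^ ε₁ :=
    ((tendsto_rpow_atTop hε).comp tendsto_natCast_atTop_atTop).eventually_ge_atTop _
  filter_upwards [eventually_ge_atTop Y0, ev1, eventually_ge_atTop 3] with Y hY e1 e4
  have hYr : (3 : ℝ) ≤ Y := by exact_mod_cast e4
  have hYpos : (0 : ℝ) < Y := by linarith
  have hY1r : (1 : ℝ) < Y := by linarith
  have hlin := hY0 Y hY
  intro u v hu huv hv
  have hv1 : v ≤ 1 := hv.trans hυ
  have hset : (Pool.Agent.W23.DC.pr Y ε₁ υ).filter (fun p => u ≤ Pool.Agent.W23.DC.tt Y p ∧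
      Pool.Agent.W23.DC.tt Y p < v) = Pool.Agent.W23.DC.pr Y u v := by
    ext p
    unfold Pool.Agent.W23.DC.pr
    rw [mem_filter, mem_filter, mem_filter]
    constructor
    · rintro ⟨⟨h1, h2, h3, h4⟩, h5, h6⟩
      exact ⟨h1, h2, h5, h6⟩
    · rintro ⟨h1, h2, h5, h6⟩
      exact ⟨⟨h1, h2, hu.trans h5, h6.trans_le hv⟩, h5, h6⟩
  have m1 := hlin u v hu huv hv
  rw [hset] at m1 ⊢
  rw [Pool.Agent.W378.DC.TMP.pr_eq (by omega) hv1] at m1 ⊢
  have hmono : (Y : ℝ) ^ u ≤ (Y : ℝ) ^ v := Real.rpow_le_rpow_of_exponent_le hY1r.le huv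
  have hu' : (Y : ℝ) ^ ε₁ ≤ (Y : ℝ) ^ u := Real.rpow_le_rpow_of_exponent_le hY1r.le hu
  have hAB : ⌈(Y : ℝ) ^ u⌉₊ - 1 ≤ ⌈(Y : ℝ) ^ v⌉₊ - 1 := Nat.sub_le_sub_right (Nat.ceil_mono hmono) 1
  have hAl : N0 + 1 ≤ ⌈(Y : ℝ) ^ u⌉₊ - 1 := by
    have h1 := Nat.le_ceil ((Y : ℝ) ^ u)
    have h2 : ((N0 + 3 : ℕ) : ℝ) ≤ (⌈(Y : ℝ) ^ u⌉₊ : ℝ) := by
      push_cast
      linarith
    have h3 : N0 + 3 ≤ ⌈(Y : ℝ) ^ u⌉₊ := by exact_mod_cast h2
    omega
  generalize ⌈(Y : ℝ) ^ u⌉₊ - 1 = A at m1 hAB hAl ⊢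
  generalize ⌈(Y : ℝ) ^ v⌉₊ - 1 = B at m1 hAB ⊢
  have hsum : ∑ p ∈ (Ioc A B).filter Nat.Prime, (Pool.Agent.Y882.PX.ro Pool.Agent.Y882.MG.LF 0 p : ℝ) / p =
      ∑ p ∈ (Ioc A B).filter Nat.Prime, 1 / (p : ℝ) := by
    apply sum_congr rfl
    intro p hp
    rw [Pool.Agent.Y882.MG.ro_lin p (mem_filter.1 hp).2.pos]
    push_cast
    rfl
  rw [hsum] at m1
  have hfil : ∀ (s : Finset ℕ) (g : ℕ → ℝ), ∑ p ∈ s.filter Nat.Prime, g p =
      ∑ p ∈ s, if p.Prime then g p else 0 := fun s g => Finset.sum_filter _ _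
  have hab := abel_le (fun p => if p.Prime then ((rho f p : ℝ) - 1) else 0) (fun p => if p.Prime then 1 else 0)
    κ A B (by omega) hAB (fun k => by split_ifs <;> norm_num) (fun k => by split_ifs <;> norm_num) hκ0.le
    (fun n hn => by
      have h := hN0 n (by omega)
      rw [hfil, hfil] at h
      exact h)
  have e2 : ∑ k ∈ Ioc A B, (if k.Prime then ((rho f k : ℝ) - 1) else 0) / (k : ℝ) =
      ∑ p ∈ (Ioc A B).filter Nat.Prime, (rho f p : ℝ) / p - ∑ p ∈ (Ioc A B).filter Nat.Prime, 1 / (p : ℝ) := by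
    rw [← Finset.sum_sub_distrib, hfil]
    apply Finset.sum_congr rfl
    intro k _
    split_ifs
    · ring
    · simp
  have e3 : ∑ k ∈ Ioc A B, (if k.Prime then (1 : ℝ) else 0) / (k : ℝ) =
      ∑ p ∈ (Ioc A B).filter Nat.Prime, 1 / (p : ℝ) := by
    rw [hfil]
    apply Finset.sum_congr rfl
    intro k _
    split_ifs
    · rfl
    · simp
  rw [e2, e3] at hab
  have hu0 : 0 < u := hε.trans_le hu
  have hlog : Real.log (v / u) ≤ |Real.log (1 / ε₁)| := by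
    refine le_trans ?_ (le_abs_self _)
    apply Real.log_le_log
    · exact div_pos (hu0.trans_le huv) hu0
    · rw [div_le_div_iff₀ hu0 hε]
      nlinarith
  have hη1 : min (η / 2) 1 ≤ η / 2 := min_le_left _ _
  have hη2 : min (η / 2) 1 ≤ 1 := min_le_right _ _
  obtain ⟨a1, a2⟩ := abs_le.1 m1
  have hb : κ * (∑ p ∈ (Ioc A B).filter Nat.Prime, 1 / (p : ℝ) + 2) ≤ η / 2 := by
    calc κ * (∑ p ∈ (Ioc A B).filter Nat.Prime, 1 / (p : ℝ) + 2) ≤ κ * M := by
          apply mul_le_mul_of_nonneg_left _ hκ0.le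
          rw [hM]
          linarith
      _ = η / 2 := by
          rw [hκ]
          field_simp
  obtain ⟨b1, b2⟩ := abs_le.1 (hab.trans hb)
  rw [abs_le]
  constructor <;> linarith

end Pool.Agent.U832.RH
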