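import Pool.Agent.U832.RH.QuI
import Pool.Agent.U832.RH.MerF
import Pool.Agent.Y882.SI.Sq

/-!
# Almost prime values of an irreducible polynomial in short intervals and the windows around them
-/

set_option autoImplicit false

namespace Pool.Agent.U832.RH

open Polynomial Finset Filter
open Pool.Agent.W123.RP Pool.Agent.H373R2.T7 Pool.Agent.W123.RU Pool.Agent.W123.RU.Poly
open Pool.Agent.TH464.PO Pool.Agent.Y879.GL Pool.Agent.TH464.PW
open Pool.Agent.U832.RG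
open Pool.Agent.W23.DC Pool.Agent.Y882.KW Pool.Agent.Y882.SI

lemma bezout_der (F : ℤ[X]) (hF : Irreducible F) (hd : 0 < F.natDegree) :
    ∃ (A B : ℤ[X]) (n : ℤ), n ≠ 0 ∧ A * F + B * derivative F = C n := by
  have hprim : F.IsPrimitive := hF.isPrimitive hd.ne'
  have hQ : Irreducible (F.map (Int.castRingHom ℚ)) :=
    (IsPrimitive.Int.irreducible_iff_irreducible_map_cast hprim).1 hF
  have hsep : (F.map (Int.castRingHom ℚ)).Separable := hQ.separable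
  obtain ⟨a, b, hab⟩ := hsep
  obtain ⟨n1', hm1, h1⟩ := IsLocalization.integerNormalization_spec (nonZeroDivisors ℤ) a
  obtain ⟨n2', hm2, h2⟩ := IsLocalization.integerNormalization_spec (nonZeroDivisors ℤ) b
  obtain ⟨n1, hn1'⟩ : ∃ n : nonZeroDivisors ℤ, (n : ℤ) = n1' := ⟨⟨n1', hm1⟩, rfl⟩
  obtain ⟨n2, hn2'⟩ : ∃ n : nonZeroDivisors ℤ, (n : ℤ) = n2' := ⟨⟨n2', hm2⟩, rfl⟩
  subst hn1' hn2'
  have hn1 : (n1 : ℤ) ≠ 0 := nonZeroDivisors.coe_ne_zero n1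
  have hn2 : (n2 : ℤ) ≠ 0 := nonZeroDivisors.coe_ne_zero n2
  have e1 : (IsLocalization.integerNormalization (nonZeroDivisors ℤ) a).map (Int.castRingHom ℚ) =
      C (((n1 : ℤ) : ℚ)) * a := by
    rw [← algebraMap_int_eq, h1]
    rw [← Polynomial.smul_eq_C_mul]
    ext i
    simp [Algebra.smul_def]
  have e2 : (IsLocalization.integerNormalization (nonZeroDivisors ℤ) b).map (Int.castRingHom ℚ) =
      C (((n2 : ℤ) : ℚ)) * b := by
    rw [← algebraMap_int_eq, h2]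
    rw [← Polynomial.smul_eq_C_mul]
    ext i
    simp [Algebra.smul_def]
  refine ⟨C (n2 : ℤ) * IsLocalization.integerNormalization (nonZeroDivisors ℤ) a,
    C (n1 : ℤ) * IsLocalization.integerNormalization (nonZeroDivisors ℤ) b, (n1 : ℤ) * n2, mul_ne_zero hn1 hn2, ?_⟩
  apply Polynomial.map_injective (Int.castRingHom ℚ) (RingHom.injective_int _)
  rw [Polynomial.map_add, Polynomial.map_mul, Polynomial.map_mul, Polynomial.map_mul, Polynomial.map_mul, e1, e2,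
    Polynomial.map_C, Polynomial.map_C, Polynomial.map_C, ← Polynomial.derivative_map]
  simp only [eq_intCast, Int.cast_mul, C_mul]
  linear_combination (C ((n1 : ℤ) : ℚ) * C ((n2 : ℤ) : ℚ)) * hab

lemma hensel_uniq (F A B : ℤ[X]) (n : ℤ) (h : A * F + B * derivative F = C n) (q : ℕ) (hq : q.Prime)
    (hn : ¬ (q : ℤ) ∣ n) (x y : ℤ) (hx : ((q ^ 2 : ℕ) : ℤ) ∣ F.eval x) (hy : ((q ^ 2 : ℕ) : ℤ) ∣ F.eval y)
    (hxy : (q : ℤ) ∣ y - x) : ((q ^ 2 : ℕ) : ℤ) ∣ y - x := by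
  obtain ⟨k, hk⟩ := F.binomExpansion x (y - x)
  rw [add_sub_cancel] at hk
  have hqF : (q : ℤ) ∣ F.eval x := by
    refine dvd_trans ?_ hx
    push_cast
    exact dvd_pow_self _ (by norm_num)
  have hqD : ¬ (q : ℤ) ∣ (derivative F).eval x := by
    intro hD
    apply hn
    have h1 := congrArg (eval x) h
    rw [eval_add, eval_mul, eval_mul, eval_C] at h1
    rw [← h1]
    exact dvd_add (Dvd.dvd.mul_left hqF _) (Dvd.dvd.mul_left hD _)
  have h2 : ((q ^ 2 : ℕ) : ℤ) ∣ (y - x) ^ 2 := by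
    push_cast
    exact pow_dvd_pow_of_dvd hxy 2
  have h3 : ((q ^ 2 : ℕ) : ℤ) ∣ (derivative F).eval x * (y - x) := by
    have h4 : (derivative F).eval x * (y - x) = F.eval y - F.eval x - k * (y - x) ^ 2 := by
      rw [hk]
      ring
    rw [h4]
    exact dvd_sub (dvd_sub hy hx) (Dvd.dvd.mul_left h2 _)
  have hqp : Prime (q : ℤ) := Nat.prime_iff_prime_int.1 hq
  have hcop : IsCoprime ((q ^ 2 : ℕ) : ℤ) ((derivative F).eval x) := by
    push_cast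
    apply IsCoprime.pow_left
    exact (hqp.coprime_iff_not_dvd).2 hqD
  exact hcop.dvd_of_dvd_mul_left h3

/-- few arguments with a value divisible by the square of a large prime -/
lemma sq_gen (F : ℤ[X]) (hF : Irreducible F) (hd : 0 < F.natDegree) : ∃ K q0 : ℕ, ∀ q : ℕ, q.Prime → q0 ≤ q →
    ∀ N H : ℕ, ((((Icc 1 H).filter (fun j : ℕ => ((q ^ 2 : ℕ) : ℤ) ∣ F.eval ((N + j : ℕ) : ℤ))).card : ℕ) : ℝ) ≤
      K * (H * (1 / (q : ℝ) ^ 2) + 1) := by
  classical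
  obtain ⟨A, B, n, hn, hAB⟩ := bezout_der F hF hd
  obtain ⟨B0, hB0⟩ := Pool.Agent.H474R2.PG.rho_le F hF.ne_zero
  refine ⟨F.natDegree, max (B0 + 1) (n.natAbs + 1), fun q hq hq0 N H => ?_⟩
  have hqB : B0 < q := lt_of_lt_of_le (Nat.lt_succ_self _) ((le_max_left _ _).trans hq0)
  have hqn : n.natAbs < q := lt_of_lt_of_le (Nat.lt_succ_self _) ((le_max_right _ _).trans hq0)
  have hndvd : ¬ (q : ℤ) ∣ n := by
    intro h
    rw [Int.natCast_dvd] at h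
    exact absurd (Nat.le_of_dvd (Int.natAbs_pos.2 hn) h) (not_le.2 hqn)
  have hrho := hB0 q hq hqB
  obtain ⟨R, hR⟩ : ∃ R, R = (range q).filter (fun a : ℕ => (q : ℤ) ∣ F.eval (a : ℤ)) := ⟨_, rfl⟩
  have hRc : R.card ≤ F.natDegree := by
    rw [hR]
    exact hrho
  obtain ⟨S, hS⟩ : ∃ S, S = (Icc 1 H).filter (fun j : ℕ => ((q ^ 2 : ℕ) : ℤ) ∣ F.eval ((N + j : ℕ) : ℤ)) :=
    ⟨_, rfl⟩
  rw [← hS]
  have hmap : ∀ j ∈ S, (N + j) % q ∈ R := by
    intro j hj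
    rw [hS, mem_filter] at hj
    rw [hR, mem_filter, mem_range]
    refine ⟨Nat.mod_lt _ hq.pos, ?_⟩
    have h1 : (q : ℤ) ∣ F.eval ((N + j : ℕ) : ℤ) := by
      refine dvd_trans ?_ hj.2
      push_cast
      exact dvd_pow_self _ (by norm_num)
    have h2 : (((N + j : ℕ) : ℤ) - (((N + j) % q : ℕ) : ℤ)) ∣
        F.eval ((N + j : ℕ) : ℤ) - F.eval (((N + j) % q : ℕ) : ℤ) := Polynomial.sub_dvd_eval_sub _ _ _
    have h3 : (q : ℤ) ∣ ((N + j : ℕ) : ℤ) - (((N + j) % q : ℕ) : ℤ) := by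
      rw [Int.natCast_mod]
      exact Int.dvd_self_sub_emod
    have h4 := h3.trans h2
    have h5 := dvd_sub h1 h4
    rwa [sub_sub_cancel] at h5
  have hfib : ∀ r ∈ R, (((S.filter (fun j => (N + j) % q = r)).card : ℕ) : ℝ) ≤ H * (1 / (q : ℝ) ^ 2) + 1 := by
    intro r _
    rcases (S.filter (fun j => (N + j) % q = r)).eq_empty_or_nonempty with he | ⟨j0, hj0⟩
    · rw [he, card_empty]
      push_cast
      positivity
    · rw [mem_filter, hS, mem_filter] at hj0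
      have hsub : S.filter (fun j => (N + j) % q = r) ⊆
          (Icc 1 H).filter (fun j : ℕ => ((q ^ 2 : ℕ) : ℤ) ∣ (j : ℤ) - (j0 : ℤ)) := by
        intro j hj
        rw [mem_filter, hS, mem_filter] at hj
        rw [mem_filter]
        refine ⟨hj.1.1, ?_⟩
        have h5 : (q : ℤ) ∣ ((N + j : ℕ) : ℤ) - ((N + j0 : ℕ) : ℤ) := by
          have h6 : (N + j0) ≡ (N + j) [MOD q] := by
            unfold Nat.ModEq
            rw [hj0.2, hj.2]
          exact (Nat.modEq_iff_dvd.1 h6)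
        have h7 := hensel_uniq F A B n hAB q hq hndvd ((N + j0 : ℕ) : ℤ) ((N + j : ℕ) : ℤ) hj0.1.2 hj.1.2 h5
        have h8 : ((N + j : ℕ) : ℤ) - ((N + j0 : ℕ) : ℤ) = (j : ℤ) - j0 := by
          push_cast
          ring
        rwa [h8] at h7
      have h9 := class_count (q ^ 2) (pow_pos hq.pos 2) H (j0 : ℤ)
      calc (((S.filter (fun j => (N + j) % q = r)).card : ℕ) : ℝ) ≤
          ((((Icc 1 H).filter (fun j : ℕ => ((q ^ 2 : ℕ) : ℤ) ∣ (j : ℤ) - (j0 : ℤ))).card : ℕ) : ℝ) := by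
            exact_mod_cast card_le_card hsub
        _ ≤ H / ((q ^ 2 : ℕ) : ℝ) + 1 := h9
        _ = H * (1 / (q : ℝ) ^ 2) + 1 := by
            push_cast
            ring
  rw [card_eq_sum_card_fiberwise hmap]
  push_cast
  calc ∑ r ∈ R, (((S.filter (fun j => (N + j) % q = r)).card : ℕ) : ℝ) ≤
      ∑ _r ∈ R, (H * (1 / (q : ℝ) ^ 2) + 1) := Finset.sum_le_sum hfib
    _ = R.card * (H * (1 / (q : ℝ) ^ 2) + 1) := by rw [Finset.sum_const, nsmul_eq_mul]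
    _ ≤ F.natDegree * (H * (1 / (q : ℝ) ^ 2) + 1) := by
        apply mul_le_mul_of_nonneg_right _ (by positivity)
        exact_mod_cast hRc

lemma val_gen (F : ℤ[X]) (hd : 0 < F.natDegree) (S : ℝ) (hS : (F.natDegree : ℝ) < S) :
    ∀ᶠ X : ℕ in atTop, ∀ m : ℕ, m ≤ 2 * X → ((F.eval (m : ℤ)).natAbs : ℝ) ≤ (X : ℝ) ^ S := by
  apply hval_of F F.natDegree S (∑ i ∈ range (F.natDegree + 1), (F.coeff i).natAbs) _ _ (by exact_mod_cast hd) hS
  · intro m hm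
    have hm1 : (1 : ℝ) ≤ m := by exact_mod_cast hm
    rw [eval_eq_sum_range, Real.rpow_natCast]
    have h1 : (((∑ i ∈ range (F.natDegree + 1), F.coeff i * (m : ℤ) ^ i).natAbs : ℕ) : ℝ) =
        |((∑ i ∈ range (F.natDegree + 1), F.coeff i * (m : ℤ) ^ i : ℤ) : ℝ)| := by
      rw [Nat.cast_natAbs, Int.cast_abs]
    rw [h1]
    push_cast
    refine (Finset.abs_sum_le_sum_abs _ _).trans ?_
    rw [Finset.sum_mul]
    apply Finset.sum_le_sum
    intro i hi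
    rw [mem_range] at hi
    rw [abs_mul, abs_pow, Nat.abs_cast, Nat.cast_natAbs, Int.cast_abs]
    apply mul_le_mul_of_nonneg_left _ (abs_nonneg _)
    exact pow_le_pow_right₀ hm1 (by omega)
  · rw [← coeff_zero_eq_eval_zero]
    have h1 : (F.coeff 0).natAbs ≤ ∑ i ∈ range (F.natDegree + 1), (F.coeff i).natAbs :=
      Finset.single_le_sum (f := fun i => (F.coeff i).natAbs) (fun _ _ => Nat.zero_le _) (mem_range.2 (by omega))
    exact_mod_cast h1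

/-- **Almost prime values of an irreducible polynomial in all short intervals, in every prescribed environment.** -/
theorem gen_law (F : ℤ[X]) (hF : Irreducible F) (hd : 0 < F.natDegree) (hl : 0 < F.leadingCoeff)
    (hadm : ∀ p : ℕ, p.Prime → ∃ m : ℕ, ¬ (p : ℤ) ∣ F.eval (m : ℤ)) (θ : ℝ) (hθ : 0 < θ) (hθ1 : θ ≤ 1) (R : ℕ)
    (hR : 9 / 8 + 25 * F.natDegree / (24 * θ) < R + 1) :
    ∃ w : ℝ, θ / 5 ≤ w ∧ w ≤ θ / 4 ∧ ∃ c Cu : ℝ, 0 < c ∧ 0 < Cu ∧ ∀ (J L : ℕ) (x₀ ε : ℝ), 0 < ε → ∃ r₀ : ℕ,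
      ∀ r : ℕ, r₀ ≤ r →
      ∀ᶠ X : ℕ in atTop, ∀ y : ℕ, y = ⌊(X : ℝ) ^ (1 / (r : ℝ))⌋₊ → ∀ Z Y T : ℕ, Z + Y ≤ X → (X : ℝ) ^ θ ≤ Y →
      T * Vq (Poly.Q (sg F)) y ≤ x₀ → ∀ (s : ℕ) (d e k : Fin J → ℕ), Windows T s d e → (∀ j, k j ≤ L) →
      (c * ∏ j, po (k j) (((e j - d j : ℕ) : ℝ) * Vq (Poly.Q (sg F)) y) - ε) * (Y / Real.log X) ≤
        cntAP F R ((X : ℝ) ^ w) y s d e k Z Y ∧
      (cntR F ((X : ℝ) ^ w) y s d e k Z Y : ℝ) ≤
        (Cu * ∏ j, po (k j) (((e j - d j : ℕ) : ℝ) * Vq (Poly.Q (sg F)) y) + ε) * (Y / Real.log X) := by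
  have hdr : (0 : ℝ) < F.natDegree := by exact_mod_cast hd
  obtain ⟨τ, S, hτ0, hτθ, hτ5, hS2, hSD⟩ := params θ (R + 1 - 9 / 8) hθ F.natDegree hdr (by
    have h1 : 25 * (F.natDegree : ℝ) / (24 * θ) < (R : ℝ) + 1 - 9 / 8 := by linarith
    rw [div_lt_iff₀ (by positivity)] at h1
    linarith)
  have hυ1 : 24 / 25 * τ ≤ 1 := by linarith
  obtain ⟨K, q0, hSq⟩ := sq_gen F hF hd
  obtain ⟨c, Cu, hc, hCu, H⟩ := pr_law F hF hd hl hadm θ τ S hτ0 hτθ hθ1 R (by rw [hSD]; linarith)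
    (val_gen F hd S hS2)
    (fun ε₁ η hε₁ hη => by
      have h := mer_gen F hF hd ε₁ (24 / 25 * τ) η hε₁ hυ1 hη
      have e : (fun p : ℕ => (nuB (Poly.Q (sg F)) p : ℝ) / p) =
          fun p : ℕ => (Pool.Agent.H474R2.PG.rho F p : ℝ) / p := by
        funext p
        rw [nuB_sg]
        unfold Pool.Agent.Y882.PX.ro
        rw [C_0, add_zero]
        rfl
      rw [e]
      exact h)
    K q0 hSq
  exact ⟨τ / 4, hτ5, by linarith, c, Cu, hc, hCu, H⟩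

end Pool.Agent.U832.RH
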