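import Pool.Agent.U832.RG.Multi

/-!
# From mixed binomial moments to the joint law, with explicit exponential errors
-/

set_option autoImplicit false

namespace Pool.Agent.U832.RH

open Finset Pool.Agent.TH464.PO Pool.Agent.U832.RG

lemma two_pow_ge (x : ℝ) : ∃ M : ℕ, x ≤ 2 ^ M := by
  obtain ⟨M, hM⟩ := pow_unbounded_of_one_lt x (by norm_num : (1 : ℝ) < 2)
  exact ⟨M, hM.le⟩

/-- one count, uniformly in its values up to `L` -/
lemma one_lawE (x0 : ℝ) (hx0 : 0 ≤ x0) (L : ℕ) :
    ∃ C : ℕ, ∀ (s t : ℕ) (Om : Finset ℕ) (u : ℕ → ℝ) (N : ℕ → ℕ) (a x W : ℝ),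
      0 ≤ W → (∀ n ∈ Om, 0 ≤ u n) → 0 ≤ x → x ≤ x0 → 0 ≤ a → a ≤ 2 ^ t * W →
      (∀ k ≤ s + t + C, |∑ n ∈ Om, u n * ((N n).choose k : ℝ) - a * (x ^ k / k.factorial)| ≤
        (1 / 2) ^ (2 * s + t + C) * W) →
      ∀ j ≤ L, |∑ n ∈ Om, u n * (if N n = j then (1 : ℝ) else 0) - a * po j x| ≤ (1 / 2) ^ s * W := by
  obtain ⟨M1, hM1⟩ := two_pow_ge ((1 + x0) ^ L * Real.exp (2 * x0) * (1 + Real.exp x0))
  refine ⟨M1 + L + 4, ?_⟩
  intro s t Om u N a x W hW hu hx hxx ha haW h j hj
  obtain ⟨m, hm⟩ : ∃ m, m = s + t + M1 := ⟨_, rfl⟩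
  have h1 := one_bonf Om u N a x W ((1 / 2) ^ (2 * s + t + (M1 + L + 4))) hu hx ha j m
    (fun k hk => h k (by omega))
  refine h1.trans ?_
  have h2 : ((m + 1 + j).choose j : ℝ) * (x ^ (m + 1 + j) / (m + 1 + j).factorial) =
      x ^ j / j.factorial * (x ^ (m + 1) / (m + 1).factorial) := by
    have h := Nat.add_choose_mul_factorial_mul_factorial (m + 1) j
    have h' : ((m + 1 + j).choose j : ℝ) * (m + 1).factorial * j.factorial = (m + 1 + j).factorial := by
      exact_mod_cast h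
    rw [← h']
    have h1 : ((m + 1 + j).choose j : ℝ) ≠ 0 := by
      have : 0 < (m + 1 + j).choose j := Nat.choose_pos (by omega)
      positivity
    rw [pow_add x (m + 1) j]
    field_simp
  rw [h2]
  have h3 : x ^ j / (j.factorial : ℝ) ≤ (1 + x0) ^ L := by
    have hf1 : (1 : ℝ) ≤ j.factorial := by exact_mod_cast Nat.factorial_pos j
    calc x ^ j / (j.factorial : ℝ) ≤ x ^ j := div_le_self (by positivity) hf1
      _ ≤ (1 + x0) ^ j := pow_le_pow_left₀ hx (by linarith) _
      _ ≤ (1 + x0) ^ L := pow_le_pow_right₀ (by linarith) hj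
  have h4 : x ^ (m + 1) / ((m + 1).factorial : ℝ) ≤ Real.exp (2 * x0) * (1 / 2) ^ (m + 1) := by
    have h5 := Real.pow_div_factorial_le_exp (2 * x) (by positivity) (m + 1)
    have h6 : Real.exp (2 * x) ≤ Real.exp (2 * x0) := Real.exp_le_exp.2 (by linarith)
    calc x ^ (m + 1) / ((m + 1).factorial : ℝ) = (2 * x) ^ (m + 1) / ((m + 1).factorial : ℝ) * (1 / 2) ^ (m + 1) := by
          rw [mul_pow, one_div, inv_pow]
          field_simp
      _ ≤ _ := mul_le_mul_of_nonneg_right (h5.trans h6) (by positivity)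
  have h5 : Real.exp x ≤ Real.exp x0 := Real.exp_le_exp.2 hxx
  have h6 : a * (x ^ j / j.factorial * (x ^ (m + 1) / (m + 1).factorial) * (1 + Real.exp x)) ≤
      (1 / 2) ^ (s + 1) * W := by
    calc a * (x ^ j / j.factorial * (x ^ (m + 1) / (m + 1).factorial) * (1 + Real.exp x)) ≤
        (2 ^ t * W) * ((1 + x0) ^ L * (Real.exp (2 * x0) * (1 / 2) ^ (m + 1)) * (1 + Real.exp x0)) := by
          gcongr
      _ = ((1 + x0) ^ L * Real.exp (2 * x0) * (1 + Real.exp x0)) * (2 ^ t * (1 / 2) ^ (m + 1)) * W := by ring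
      _ ≤ 2 ^ M1 * (2 ^ t * (1 / 2) ^ (m + 1)) * W := by gcongr
      _ = (1 / 2) ^ (s + 1) * W := by
          rw [hm, show s + t + M1 + 1 = (s + 1) + (t + M1) by ring, pow_add (1 / 2 : ℝ) (s + 1) (t + M1),
            pow_add (1 / 2 : ℝ) t M1]
          have e1 : (2 : ℝ) ^ M1 * (1 / 2) ^ M1 = 1 := by rw [← mul_pow]; norm_num
          have e2 : (2 : ℝ) ^ t * (1 / 2) ^ t = 1 := by rw [← mul_pow]; norm_num
          calc (2 : ℝ) ^ M1 * (2 ^ t * ((1 / 2) ^ (s + 1) * ((1 / 2) ^ t * (1 / 2) ^ M1))) * W =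
              (2 ^ M1 * (1 / 2) ^ M1) * (2 ^ t * (1 / 2) ^ t) * ((1 / 2) ^ (s + 1) * W) := by ring
            _ = _ := by rw [e1, e2]; ring
  have h7 : ∑ i ∈ range (m + 2), ((i + j).choose j : ℝ) ≤ 2 ^ (m + 2 + L) := by
    calc ∑ i ∈ range (m + 2), ((i + j).choose j : ℝ) ≤ ∑ i ∈ range (m + 2), (2 : ℝ) ^ i * 2 ^ L := by
          apply sum_le_sum
          intro i _
          have g1 : (i + j).choose j ≤ 2 ^ (i + j) := Nat.choose_le_two_pow _ _
          have g2 : ((i + j).choose j : ℝ) ≤ 2 ^ (i + j) := by exact_mod_cast g1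
          refine g2.trans ?_
          rw [pow_add]
          exact mul_le_mul_of_nonneg_left (pow_le_pow_right₀ (by norm_num) hj) (by positivity)
      _ = (∑ i ∈ range (m + 2), (2 : ℝ) ^ i) * 2 ^ L := by rw [sum_mul]
      _ ≤ 2 ^ (m + 2) * 2 ^ L := by
          apply mul_le_mul_of_nonneg_right _ (by positivity)
          rw [geom_sum_eq (by norm_num)]
          norm_num
      _ = _ := by rw [← pow_add]
  have h8 : (1 / 2) ^ (2 * s + t + (M1 + L + 4)) * W * ∑ i ∈ range (m + 2), ((i + j).choose j : ℝ) ≤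
      (1 / 2) ^ (s + 1) * W := by
    calc (1 / 2) ^ (2 * s + t + (M1 + L + 4)) * W * ∑ i ∈ range (m + 2), ((i + j).choose j : ℝ) ≤
        (1 / 2) ^ (2 * s + t + (M1 + L + 4)) * W * 2 ^ (m + 2 + L) := by
          apply mul_le_mul_of_nonneg_left h7 (by positivity)
      _ = ((1 / 2) ^ (m + 2 + L) * 2 ^ (m + 2 + L)) * ((1 / 2) ^ (s + 1) * ((1 / 2) * W)) := by
          rw [hm, show 2 * s + t + (M1 + L + 4) = (s + t + M1 + 2 + L) + (s + 1) + 1 by ring,
            pow_add (1 / 2 : ℝ) _ 1, pow_add (1 / 2 : ℝ) _ (s + 1), pow_one]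
          ring
      _ = (1 / 2) ^ (s + 1) * ((1 / 2) * W) := by
          rw [← mul_pow]
          norm_num
      _ ≤ (1 / 2) ^ (s + 1) * W := by
          apply mul_le_mul_of_nonneg_left _ (by positivity)
          linarith
  have h9 : (1 / 2 : ℝ) ^ (s + 1) * W + (1 / 2) ^ (s + 1) * W = (1 / 2) ^ s * W := by
    rw [pow_succ]
    ring
  linarith

/-- **From mixed binomial moments to the joint law**, with explicit errors. -/
theorem multi_lawE (J : ℕ) : ∀ (x0 : ℝ), 0 ≤ x0 → ∀ L : ℕ,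
    ∃ C : ℕ, 1 ≤ C ∧ ∀ (s t : ℕ) (Om : Finset ℕ) (u : ℕ → ℝ) (N : Fin J → ℕ → ℕ) (a W : ℝ)
      (x : Fin J → ℝ), 0 ≤ W → (∀ n ∈ Om, 0 ≤ u n) → (∀ j, 0 ≤ x j) → (∀ j, x j ≤ x0) →
      0 ≤ a → a ≤ 2 ^ t * W →
      (∀ k : Fin J → ℕ, (∀ j, k j ≤ C * (s + t + 1)) → |∑ n ∈ Om, u n * ∏ j, ((N j n).choose (k j) : ℝ) -
        a * ∏ j, (x j ^ k j / (k j).factorial)| ≤ (1 / 2) ^ (C * (s + t + 1)) * W) →
      ∀ k : Fin J → ℕ, (∀ j, k j ≤ L) →
        |∑ n ∈ Om, u n * (if ∀ j, N j n = k j then (1 : ℝ) else 0) - a * ∏ j, po (k j) (x j)| ≤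
          (1 / 2) ^ s * W := by
  induction J with
  | zero =>
    intro x0 hx0 L
    refine ⟨1, le_rfl, ?_⟩
    intro s t Om u N a W x hW hu hx hxx ha haW h k hk
    have h1 := h k (fun j => j.elim0)
    have h2 : (1 / 2 : ℝ) ^ (1 * (s + t + 1)) * W ≤ (1 / 2) ^ s * W := by
      apply mul_le_mul_of_nonneg_right _ hW
      exact pow_le_pow_of_le_one (by norm_num) (by norm_num) (by omega)
    refine le_trans ?_ h2
    simpa using h1
  | succ J ih =>
    intro x0 hx0 L
    obtain ⟨C', hC', h1⟩ := ih x0 hx0 L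
    obtain ⟨M0, hM0⟩ := two_pow_ge (1 + x0)
    obtain ⟨C1, h2⟩ := one_lawE x0 hx0 L
    refine ⟨2 * C' + 1 + M0 * J * C' + C1, by omega, ?_⟩
    intro s t Om u N a W x hW hu hx hxx ha haW h k hk
    obtain ⟨q, hq⟩ : ∃ q, q = s + t + 1 := ⟨_, rfl⟩
    have hq1 : 1 ≤ q := by omega
    obtain ⟨R1, hR1⟩ : ∃ R1, R1 = C' * q := ⟨_, rfl⟩
    obtain ⟨t2, ht2⟩ : ∃ t2, t2 = t + M0 * J * R1 := ⟨_, rfl⟩
    have hC1q : C1 ≤ C1 * q := Nat.le_mul_of_pos_right _ hq1
    have hbig : 2 * R1 + t2 + C1 ≤ (2 * C' + 1 + M0 * J * C' + C1) * q := by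
      have e : (2 * C' + 1 + M0 * J * C' + C1) * q = 2 * (C' * q) + q + M0 * J * (C' * q) + C1 * q := by ring
      rw [e, ht2, ← hR1]
      omega
    rw [← hq] at h
    have key := h1 s t Om (fun n => u n * (if N 0 n = k 0 then (1 : ℝ) else 0)) (fun j => N j.succ)
      (a * po (k 0) (x 0)) W (fun j => x j.succ) hW
      (fun n hn => mul_nonneg (hu n hn) (by split_ifs <;> norm_num))
      (fun j => hx _) (fun j => hxx _) (mul_nonneg ha (po_nonneg _ _ (hx 0)))
      ((mul_le_of_le_one_right ha (po_le_one _ _ (hx 0))).trans haW) ?_ (fun j => k j.succ)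
      (fun j => hk _)
    · have e1 : ∑ n ∈ Om, u n * (if ∀ j, N j n = k j then (1 : ℝ) else 0) =
          ∑ n ∈ Om, u n * (if N 0 n = k 0 then (1 : ℝ) else 0) *
            (if ∀ j : Fin J, N j.succ n = k j.succ then (1 : ℝ) else 0) := by
        apply Finset.sum_congr rfl
        intro n _
        rw [mul_assoc]
        congr 1
        by_cases g1 : N 0 n = k 0
        · rw [if_pos g1, one_mul]
          by_cases g2 : ∀ j : Fin J, N j.succ n = k j.succ
          · rw [if_pos g2, if_pos (Fin.forall_fin_succ.2 ⟨g1, g2⟩)]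
          · rw [if_neg g2, if_neg (fun g => g2 (Fin.forall_fin_succ.1 g).2)]
        · rw [if_neg g1, zero_mul, if_neg (fun g => g1 (g 0))]
      rw [e1, Fin.prod_univ_succ, ← mul_assoc]
      exact key
    · intro l hl
      rw [← hq, ← hR1] at hl ⊢
      have h3 := h2 R1 t2 Om (fun n => u n * ∏ j : Fin J, ((N j.succ n).choose (l j) : ℝ)) (N 0)
        (a * ∏ j : Fin J, (x j.succ ^ l j / (l j).factorial)) (x 0) W hW
        (fun n hn => mul_nonneg (hu n hn) (by positivity)) (hx 0) (hxx 0)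
        (mul_nonneg ha (Finset.prod_nonneg fun j _ => by
          have := hx j.succ
          positivity)) ?_ ?_ (k 0) (hk 0)
      · convert h3 using 3
        · apply Finset.sum_congr rfl
          intro n _
          ring
        · ring
      · have h4 : ∏ j : Fin J, (x j.succ ^ l j / ((l j).factorial : ℝ)) ≤ 2 ^ (M0 * J * R1) := by
          calc ∏ j : Fin J, (x j.succ ^ l j / ((l j).factorial : ℝ)) ≤ ∏ _j : Fin J, ((2 : ℝ) ^ M0) ^ R1 := by
                apply Finset.prod_le_prod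
                · intro j _
                  have := hx j.succ
                  positivity
                · intro j _
                  have hf1 : (1 : ℝ) ≤ (l j).factorial := by exact_mod_cast Nat.factorial_pos (l j)
                  have hxj := hx j.succ
                  have hxj' := hxx j.succ
                  calc x j.succ ^ l j / ((l j).factorial : ℝ) ≤ x j.succ ^ l j := div_le_self (by positivity) hf1
                    _ ≤ ((2 : ℝ) ^ M0) ^ l j := pow_le_pow_left₀ hxj (by linarith) _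
                    _ ≤ ((2 : ℝ) ^ M0) ^ R1 := pow_le_pow_right₀ (one_le_pow₀ (by norm_num)) (hl j)
            _ = _ := by
                rw [Finset.prod_const, Finset.card_univ, Fintype.card_fin, ← pow_mul, ← pow_mul]
                congr 1
                ring
        calc a * ∏ j : Fin J, (x j.succ ^ l j / ((l j).factorial : ℝ)) ≤ (2 ^ t * W) * 2 ^ (M0 * J * R1) := by
              apply mul_le_mul haW h4 _ (by positivity)
              apply Finset.prod_nonneg
              intro j _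
              have := hx j.succ
              positivity
          _ = 2 ^ t2 * W := by rw [ht2, pow_add]; ring
      · intro i hi
        have h5 := h (Fin.cons i l) (by
          intro j
          refine Fin.cases ?_ (fun j => ?_) j
          · simp only [Fin.cons_zero]
            omega
          · simp only [Fin.cons_succ]
            have := hl j
            omega)
        rw [Fin.prod_univ_succ] at h5
        simp only [Fin.prod_univ_succ, Fin.cons_zero, Fin.cons_succ] at h5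
        have h6 : (1 / 2 : ℝ) ^ ((2 * C' + 1 + M0 * J * C' + C1) * q) * W ≤ (1 / 2) ^ (2 * R1 + t2 + C1) * W := by
          apply mul_le_mul_of_nonneg_right _ hW
          exact pow_le_pow_of_le_one (by norm_num) (by norm_num) hbig
        have h7 := h5.trans h6
        have e3 : ∑ n ∈ Om, u n * (∏ j : Fin J, ((N j.succ n).choose (l j) : ℝ)) * ((N 0 n).choose i : ℝ) =
            ∑ n ∈ Om, u n * (((N 0 n).choose i : ℝ) * ∏ j : Fin J, ((N j.succ n).choose (l j) : ℝ)) :=
          Finset.sum_congr rfl fun n _ => by ring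
        have e4 : a * (∏ j : Fin J, (x j.succ ^ l j / ((l j).factorial : ℝ))) * (x 0 ^ i / (i.factorial : ℝ)) =
            a * (x 0 ^ i / (i.factorial : ℝ) * ∏ j : Fin J, (x j.succ ^ l j / ((l j).factorial : ℝ))) := by ring
        have h8 : |∑ n ∈ Om, u n * (∏ j : Fin J, ((N j.succ n).choose (l j) : ℝ)) * ((N 0 n).choose i : ℝ) -
            a * (∏ j : Fin J, (x j.succ ^ l j / ((l j).factorial : ℝ))) * (x 0 ^ i / (i.factorial : ℝ))| ≤
            (1 / 2) ^ (2 * R1 + t2 + C1) * W := by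
          rw [e3, e4]
          exact h7
        exact h8

end Pool.Agent.U832.RH
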