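import Pool.Agent.U832.RH.UniT
import Pool.Agent.U832.RH.LinC
import Pool.Agent.U832.RG.Defs
import Pool.Agent.Y882.KW.Num
import Pool.Agent.Y882.MG.EngS

/-!
# Almost prime values of a polynomial and the windows around them: the sequence
-/

set_option autoImplicit false

namespace Pool.Agent.U832.RH

open Polynomial Finset Filter
open Pool.Agent.W123.RP Pool.Agent.H373R2.T7 Pool.Agent.W123.RU Pool.Agent.W123.RU.Poly
open Pool.Agent.TH464.PO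
open Pool.Agent.U832.RG
open Pool.Agent.W23.DC Pool.Agent.Y882.KW
open Pool.Agent.Y882 (tt_lt PZ)

variable {J : ℕ}

/-- the system of one polynomial -/
def sg (F : ℤ[X]) : Fin 1 → ℤ[X] := fun _ => F

lemma sg_Q (F : ℤ[X]) (p n : ℕ) : Poly.Q (sg F) p n ↔ (p : ℤ) ∣ F.eval (n : ℤ) := by
  unfold Poly.Q sg
  exact ⟨fun ⟨_, h⟩ => h, fun h => ⟨0, h⟩⟩

lemma pr_iff (X : ℕ) (hX : 2 ≤ X) (u v : ℝ) (hv : v ≤ 1) (p : ℕ) :
    p ∈ pr X u v ↔ p.Prime ∧ (X : ℝ) ^ u ≤ p ∧ (p : ℝ) < (X : ℝ) ^ v := by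
  have hXr : (2 : ℝ) ≤ X := by exact_mod_cast hX
  unfold pr
  rw [mem_filter, mem_Icc]
  constructor
  · rintro ⟨⟨h1, h2⟩, h3, h4, h5⟩
    refine ⟨h3, ?_, (tt_lt X p v hX h3.pos).1 h5⟩
    by_contra h
    push Not at h
    have := (tt_lt X p u hX h3.pos).2 h
    linarith
  · rintro ⟨h3, h4, h5⟩
    refine ⟨⟨h3.one_le, ?_⟩, h3, ?_, (tt_lt X p v hX h3.pos).2 h5⟩
    · have h6 : (p : ℝ) ≤ X := by
        calc (p : ℝ) ≤ (X : ℝ) ^ v := h5.le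
          _ ≤ (X : ℝ) ^ (1 : ℝ) := Real.rpow_le_rpow_of_exponent_le (by linarith) hv
          _ = X := Real.rpow_one _
      exact_mod_cast h6
    · by_contra h
      push Not at h
      have := (tt_lt X p u hX h3.pos).1 h
      linarith

/-- the hits of the medium primes -/
def hitY (F : ℤ[X]) (y s p n : ℕ) : Prop := p ≠ y ∧ (p : ℤ) ∣ F.eval ((n + s : ℕ) : ℤ)

open Classical in
/-- the integers with the pattern -/
noncomputable def Pst (F : ℤ[X]) (y s : ℕ) (a b k : Fin J → ℕ) (Z Y : ℕ) : Finset ℕ :=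
  (Ioc Z (Z + Y)).filter (fun n => (∀ h ∈ ({s} : Finset ℕ), Sf (Poly.Q (sg F)) y (n + h)) ∧
    ∀ j, ((Ioc (n + a j) (n + b j)).filter (Sf (Poly.Q (sg F)) y)).card = k j)

open Classical in
lemma patT_card (F : ℤ[X]) (y s : ℕ) (a b k : Fin J → ℕ) (Z Y : ℕ) (T' : Finset ℕ) (hy : y ∉ T') :
    ((Pst F y s a b k Z Y).filter (fun n => ∀ p ∈ T', hitY F y s p n)).card =
      PatT (Qt (Poly.Q (sg F)) s) T' (Sf (Poly.Q (sg F)) y) {s} a b k Z Y := by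
  unfold PatT Pst
  rw [filter_filter]
  congr 1
  apply filter_congr
  intro n _
  have h1 : (∀ p ∈ T', hitY F y s p n) ↔ ∀ p ∈ T', Qt (Poly.Q (sg F)) s p n := by
    apply forall₂_congr
    intro p hp
    unfold hitY Qt
    rw [sg_Q]
    exact ⟨fun h => h.2, fun h => ⟨fun h2 => hy (h2 ▸ hp), h⟩⟩
  rw [h1]
  tauto

/-- the densities at the medium primes -/
noncomputable def gY (F : ℤ[X]) (y p : ℕ) : ℝ := if p = y then 0 else (nuB (Poly.Q (sg F)) p : ℝ) / p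

lemma gY_nonneg (F : ℤ[X]) (y p : ℕ) : 0 ≤ gY F y p := by
  unfold gY
  split_ifs
  · exact le_rfl
  · positivity

lemma gY_prod (F : ℤ[X]) (y : ℕ) (T' : Finset ℕ) (hy : y ∉ T') :
    ∏ p ∈ T', gY F y p = GT (Poly.Q (sg F)) T' := by
  unfold GT
  apply Finset.prod_congr rfl
  intro p hp
  have h1 : p ≠ y := by
    intro h
    subst h
    exact hy hp
  unfold gY
  rw [if_neg h1]

lemma gY_prod0 (F : ℤ[X]) (y : ℕ) (T' : Finset ℕ) (hy : y ∈ T') : ∏ p ∈ T', gY F y p = 0 := by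
  apply Finset.prod_eq_zero hy
  unfold gY
  rw [if_pos rfl]

/-- removing one prime does not change the regularity of the densities -/
lemma mer_gY (F : ℤ[X]) (y : ℕ) (P : Finset ℕ) (t : ℕ → ℝ) (ε₁ υ η e : ℝ)
    (h : Mer P t (fun p => (nuB (Poly.Q (sg F)) p : ℝ) / p) ε₁ υ η)
    (hP : ∀ p ∈ P, p.Prime) (he : 0 ≤ e) (hy : y.Prime → (nuB (Poly.Q (sg F)) y : ℝ) / y ≤ e) :
    Mer P t (gY F y) ε₁ υ (η + e) := by
  intro u v hu huv hv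
  have h1 := h u v hu huv hv
  have he0 : 0 ≤ (nuB (Poly.Q (sg F)) y : ℝ) / y := by positivity
  have h2 : ∑ p ∈ P.filter (fun p => u ≤ t p ∧ t p < v), gY F y p =
      ∑ p ∈ P.filter (fun p => u ≤ t p ∧ t p < v), (nuB (Poly.Q (sg F)) p : ℝ) / p -
        ∑ p ∈ P.filter (fun p => u ≤ t p ∧ t p < v), (if p = y then (nuB (Poly.Q (sg F)) y : ℝ) / y else 0) := by
    rw [← Finset.sum_sub_distrib]
    apply Finset.sum_congr rfl
    intro p _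
    unfold gY
    by_cases hp : p = y
    · rw [if_pos hp, if_pos hp, hp, sub_self]
    · rw [if_neg hp, if_neg hp, sub_zero]
  rw [h2, Finset.sum_ite_eq']
  have h3 : |(if y ∈ P.filter (fun p => u ≤ t p ∧ t p < v) then (nuB (Poly.Q (sg F)) y : ℝ) / y else 0)| ≤ e := by
    split_ifs with hmem
    · rw [abs_of_nonneg he0]
      exact hy (hP y (mem_filter.1 hmem).1)
    · rw [abs_zero]
      exact he
  obtain ⟨h4, h5⟩ := abs_le.1 h1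
  obtain ⟨h6, h7⟩ := abs_le.1 h3
  rw [abs_le]
  constructor <;> linarith

open Classical in
/-- **A positive weight gives an almost prime.** -/
lemma pr_point (F : ℤ[X]) (X y r r₁ : ℕ) (ζ υ lam S : ℝ) (hX : 2 ≤ X) (hr0 : 2 ≤ r)
    (hy : y = ⌊(X : ℝ) ^ (1 / (r : ℝ))⌋₊) (hy2 : 2 ≤ y) (hrζ : 1 / (r : ℝ) ≤ ζ) (hζυ : ζ ≤ υ)
    (hυ0 : 0 < υ) (hυ1 : υ ≤ 1) (hlam : 0 < lam) (hrr : 1 / lam + S / υ ≤ r₁ + 1) (m : ℕ)
    (hSf : Sf (Poly.Q (sg F)) y m) (hNS : ((F.eval (m : ℤ)).natAbs : ℝ) ≤ (X : ℝ) ^ S)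
    (hW : 0 < WB X (1 / (r : ℝ)) ζ υ lam (lam / υ)
      (Ne (pr X (1 / (r : ℝ)) υ) (fun p => p ≠ y ∧ (p : ℤ) ∣ F.eval (m : ℤ))))
    (hsq : ∀ q ∈ pr X ζ υ, ¬ ((q ^ 2 : ℕ) : ℤ) ∣ F.eval (m : ℤ)) :
    (F.eval (m : ℤ)).natAbs.primeFactorsList.length ≤ r₁ ∧
      ∀ p : ℕ, p.Prime → p ∣ (F.eval (m : ℤ)).natAbs → (X : ℝ) ^ ζ ≤ p := by
  obtain ⟨N, hN⟩ : ∃ N, N = (F.eval (m : ℤ)).natAbs := ⟨_, rfl⟩
  rw [← hN] at hNS ⊢
  have hdvd : ∀ d : ℕ, (d : ℤ) ∣ F.eval (m : ℤ) ↔ d ∣ N := by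
    intro d
    rw [hN]
    exact Int.natCast_dvd
  have hrough : ∀ p : ℕ, p.Prime → p ≤ y → ¬ p ∣ N := by
    intro p hp hpy h
    exact hSf p (mem_pz.2 ⟨hpy, hp⟩) ((sg_Q F p m).2 ((hdvd p).2 h))
  have hN0 : N ≠ 0 := by
    intro h
    exact hrough 2 Nat.prime_two hy2 (by rw [h]; exact dvd_zero 2)
  have hXr : (2 : ℝ) ≤ X := by exact_mod_cast hX
  have hζ1 : ζ ≤ 1 := hζυ.trans hυ1
  have hr1 : (1 : ℝ) / r ≤ 1 := hrζ.trans hζ1
  have hPp : ∀ p ∈ pr X (1 / (r : ℝ)) υ, p.Prime := fun p hp => ((pr_iff X hX _ _ hυ1 p).1 hp).1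
  -- primes below `X ^ ζ`
  have hsmall : ∀ p : ℕ, p.Prime → (p : ℝ) < (X : ℝ) ^ ζ → p ≤ y ∨ (p ∈ pr X (1 / (r : ℝ)) ζ ∧ p ≠ y) := by
    intro p hp hpζ
    rcases le_or_gt p y with h | h
    · exact Or.inl h
    · refine Or.inr ⟨(pr_iff X hX _ _ hζ1 p).2 ⟨hp, ?_, hpζ⟩, by omega⟩
      have h1 : (X : ℝ) ^ (1 / (r : ℝ)) < p := by
        rw [hy] at h
        exact (Nat.floor_lt (by positivity)).1 h
      exact h1.le
  obtain ⟨N', hN'⟩ : ∃ N', N' = Ne (pr X (1 / (r : ℝ)) υ) (fun p => p ≠ y ∧ (p : ℤ) ∣ F.eval (m : ℤ)) := ⟨_, rfl⟩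
  rw [← hN'] at hW
  have hNe : ∀ p ∈ pr X (1 / (r : ℝ)) υ, (p ∣ N' ↔ p ∣ N) := by
    intro p hp
    rw [hN', Ne_dvd _ hPp _ p hp, hdvd]
    constructor
    · exact fun h => h.2
    · intro h
      refine ⟨?_, h⟩
      intro h2
      exact hrough p (hPp p hp) h2.le h
  have hsub1 : ∀ p ∈ pr X (1 / (r : ℝ)) ζ, p ∈ pr X (1 / (r : ℝ)) υ := by
    intro p hp
    have h := (pr_iff X hX _ _ hζ1 p).1 hp
    exact (pr_iff X hX _ _ hυ1 p).2 ⟨h.1, h.2.1, h.2.2.trans_le (Real.rpow_le_rpow_of_exponent_le (by linarith) hζυ)⟩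
  have hsub2 : ∀ p ∈ pr X ζ υ, p ∈ pr X (1 / (r : ℝ)) υ := by
    intro p hp
    have h := (pr_iff X hX _ _ hυ1 p).1 hp
    exact (pr_iff X hX _ _ hυ1 p).2 ⟨h.1, (Real.rpow_le_rpow_of_exponent_le (by linarith) hrζ).trans h.2.1, h.2.2⟩
  have hWW : 0 < WW X ζ υ lam (lam / υ) N := by
    unfold WB at hW
    unfold WW
    have e1 : ∑ q ∈ pr X ζ υ, (lam - lam / υ * tt X q) * (if q ∣ N' then (1 : ℝ) else 0) =
        ∑ q ∈ pr X ζ υ, (lam - lam / υ * tt X q) * (if q ∣ N then (1 : ℝ) else 0) := by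
      apply Finset.sum_congr rfl
      intro q hq
      have h := hNe q (hsub2 q hq)
      by_cases h1 : q ∣ N
      · rw [if_pos h1, if_pos (h.2 h1)]
      · rw [if_neg h1, if_neg (fun h2 => h1 (h.1 h2))]
    rw [e1] at hW
    by_cases h1 : ∀ p ∈ pr X (1 / (r : ℝ)) ζ, ¬ p ∣ N'
    · rw [if_pos h1] at hW
      have h2 : ∀ p ∈ PZ X ζ, ¬ p ∣ N := by
        intro p hp hpN
        unfold PZ at hp
        rw [mem_filter] at hp
        rcases hsmall p hp.2.1 ((tt_lt X p ζ hX hp.2.1.pos).1 hp.2.2) with h | h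
        · exact hrough p hp.2.1 h hpN
        · exact h1 p h.1 ((hNe p (hsub1 p h.1)).2 hpN)
      rw [if_pos h2]
      exact hW
    · rw [if_neg h1, zero_mul] at hW
      exact absurd hW (lt_irrefl _)
  exact almost X hX ζ υ lam S r₁ hζυ hυ0 hυ1 hlam hrr N hN0 hNS hWW (fun q hq h => hsq q hq ((hdvd _).2 h))

open Classical in
/-- **The counts** for a given `X`. -/
lemma pr_counts (F : ℤ[X]) (X y r r₁ : ℕ) (ζ υ lam S f0 F0 η A W : ℝ) (hX : 2 ≤ X) (hr0 : 2 ≤ r)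
    (hy : y = ⌊(X : ℝ) ^ (1 / (r : ℝ))⌋₊) (hy2 : 2 ≤ y) (hrζ' : 1 / (r : ℝ) < ζ) (hζυ : ζ ≤ υ)
    (hυ0 : 0 < υ) (hυ1 : υ ≤ 1) (hlam : 0 < lam) (hrr : 1 / lam + S / υ ≤ r₁ + 1) (τ : ℝ)
    (HL : ∀ (Ω : Finset ℕ) (hit : ℕ → ℕ → Prop) (g : ℕ → ℝ) (A W : ℝ),
        0 ≤ A → 0 ≤ W → (∀ p ∈ pr X (1 / (r : ℝ)) υ, 0 ≤ g p) →
        Mer (pr X (1 / (r : ℝ)) υ) (tt X) g (1 / (r : ℝ)) υ η →
        (∀ T ⊆ pr X (1 / (r : ℝ)) υ, ((∏ p ∈ T, p : ℕ) : ℝ) ≤ (X : ℝ) ^ τ →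
          |((Ω.filter (fun n => ∀ p ∈ T, hit p n)).card : ℝ) - A * ∏ p ∈ T, g p| ≤ W * ∏ p ∈ T, g p) →
        A * (1 / (r : ℝ) * f0) - (1 + lam) * W * (3 / (1 / (r : ℝ))) ≤
          ((Ω.filter (fun n => 0 < WB X (1 / (r : ℝ)) ζ υ lam (lam / υ)
            (Ne (pr X (1 / (r : ℝ)) υ) (fun p => hit p n)))).card : ℝ) ∧
        ((Ω.filter (fun n => NoHit (pr X (1 / (r : ℝ)) ζ) (fun p => hit p n))).card : ℝ) ≤
          A * (1 / (r : ℝ) * F0) + W * (3 / (1 / (r : ℝ))))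
    (s Z Y : ℕ) (a b k : Fin J → ℕ)
    (hA : 0 ≤ A) (hW : 0 ≤ W) (hM : Mer (pr X (1 / (r : ℝ)) υ) (tt X) (gY F y) (1 / (r : ℝ)) υ η)
    (hval : ∀ n ∈ Ioc Z (Z + Y), ((F.eval ((n + s : ℕ) : ℤ)).natAbs : ℝ) ≤ (X : ℝ) ^ S)
    (H : ∀ T' : Finset ℕ, (∀ p ∈ T', p.Prime ∧ y < p) → ((∏ p ∈ T', p : ℕ) : ℝ) ≤ (X : ℝ) ^ τ →
      |(PatT (Qt (Poly.Q (sg F)) s) T' (Sf (Poly.Q (sg F)) y) {s} a b k Z Y : ℝ) -
        A * GT (Poly.Q (sg F)) T'| ≤ W * GT (Poly.Q (sg F)) T') :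
    A * f0 / r - 3 * (1 + lam) * W * r -
      (((Ioc Z (Z + Y)).filter (fun n => ∃ q ∈ pr X ζ υ, ((q ^ 2 : ℕ) : ℤ) ∣ F.eval ((n + s : ℕ) : ℤ))).card : ℝ) ≤
      (((Ioc Z (Z + Y)).filter (fun n => ((F.eval ((n + s : ℕ) : ℤ)).natAbs.primeFactorsList.length ≤ r₁ ∧
        ∀ p : ℕ, p.Prime → p ∣ (F.eval ((n + s : ℕ) : ℤ)).natAbs → (X : ℝ) ^ ζ ≤ p) ∧
        ∀ j, ((Ioc (n + a j) (n + b j)).filter (Sf (Poly.Q (sg F)) y)).card = k j)).card : ℝ) ∧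
    (((Ioc Z (Z + Y)).filter (fun n => (∀ p : ℕ, p.Prime → (p : ℝ) < (X : ℝ) ^ ζ →
        ¬ (p : ℤ) ∣ F.eval ((n + s : ℕ) : ℤ)) ∧
        ∀ j, ((Ioc (n + a j) (n + b j)).filter (Sf (Poly.Q (sg F)) y)).card = k j)).card : ℝ) ≤
      A * F0 / r + 3 * W * r := by
  have hXr : (2 : ℝ) ≤ X := by exact_mod_cast hX
  have hrζ := hrζ'.le
  have hrr0 : (0 : ℝ) < r := by exact_mod_cast (by omega : 0 < r)
  have hζ1 : ζ ≤ 1 := hζυ.trans hυ1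
  obtain ⟨h1, h2⟩ := HL (Pst F y s a b k Z Y) (hitY F y s) (gY F y) A W hA hW (fun p _ => gY_nonneg F y p) hM (by
    intro T' hT' hprod
    by_cases hyT : y ∈ T'
    · rw [gY_prod0 F y T' hyT, mul_zero, mul_zero, sub_zero]
      have : (Pst F y s a b k Z Y).filter (fun n => ∀ p ∈ T', hitY F y s p n) = ∅ := by
        rw [filter_eq_empty_iff]
        intro n _ h
        exact (h y hyT).1 rfl
      rw [this]
      simp
    · rw [gY_prod F y T' hyT, patT_card F y s a b k Z Y T' hyT]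
      apply H T' _ hprod
      intro p hp
      have h := (pr_iff X hX _ _ hυ1 p).1 (hT' hp)
      refine ⟨h.1, ?_⟩
      have h3 : y ≤ p := by
        rw [hy]
        exact Nat.floor_le_of_le h.2.1
      have h4 : p ≠ y := fun h5 => hyT (h5 ▸ hp)
      omega)
  constructor
  · have hsub : (Pst F y s a b k Z Y).filter (fun n => 0 < WB X (1 / (r : ℝ)) ζ υ lam (lam / υ)
        (Ne (pr X (1 / (r : ℝ)) υ) (fun p => hitY F y s p n))) ⊆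
        (Ioc Z (Z + Y)).filter (fun n => ((F.eval ((n + s : ℕ) : ℤ)).natAbs.primeFactorsList.length ≤ r₁ ∧
        ∀ p : ℕ, p.Prime → p ∣ (F.eval ((n + s : ℕ) : ℤ)).natAbs → (X : ℝ) ^ ζ ≤ p) ∧
        ∀ j, ((Ioc (n + a j) (n + b j)).filter (Sf (Poly.Q (sg F)) y)).card = k j) ∪
        (Ioc Z (Z + Y)).filter (fun n => ∃ q ∈ pr X ζ υ, ((q ^ 2 : ℕ) : ℤ) ∣ F.eval ((n + s : ℕ) : ℤ)) := by
      intro n hn
      rw [mem_filter] at hn
      obtain ⟨hn1, hn2⟩ := hn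
      unfold Pst at hn1
      rw [mem_filter] at hn1
      rw [mem_union, mem_filter, mem_filter]
      by_cases hsq : ∃ q ∈ pr X ζ υ, ((q ^ 2 : ℕ) : ℤ) ∣ F.eval ((n + s : ℕ) : ℤ)
      · exact Or.inr ⟨hn1.1, hsq⟩
      · left
        push Not at hsq
        refine ⟨hn1.1, ?_, hn1.2.2⟩
        exact pr_point F X y r r₁ ζ υ lam S hX hr0 hy hy2 hrζ hζυ hυ0 hυ1 hlam hrr (n + s)
          (hn1.2.1 s (mem_singleton_self s)) (hval n hn1.1) hn2 hsq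
    have h3 := (card_le_card hsub).trans (card_union_le _ _)
    have h4 : (((Pst F y s a b k Z Y).filter (fun n => 0 < WB X (1 / (r : ℝ)) ζ υ lam (lam / υ)
        (Ne (pr X (1 / (r : ℝ)) υ) (fun p => hitY F y s p n)))).card : ℝ) ≤ _ := Nat.cast_le.2 h3
    push_cast at h4
    have e1 : A * (1 / (r : ℝ) * f0) = A * f0 / r := by ring
    have e2 : (1 + lam) * W * (3 / (1 / (r : ℝ))) = 3 * (1 + lam) * W * r := by
      rw [div_div_eq_mul_div, div_one]; ring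
    rw [e1, e2] at h1
    push_cast
    linarith
  · have hsub : (Ioc Z (Z + Y)).filter (fun n => (∀ p : ℕ, p.Prime → (p : ℝ) < (X : ℝ) ^ ζ →
        ¬ (p : ℤ) ∣ F.eval ((n + s : ℕ) : ℤ)) ∧
        ∀ j, ((Ioc (n + a j) (n + b j)).filter (Sf (Poly.Q (sg F)) y)).card = k j) ⊆
        (Pst F y s a b k Z Y).filter (fun n => NoHit (pr X (1 / (r : ℝ)) ζ) (fun p => hitY F y s p n)) := by
      intro n hn
      rw [mem_filter] at hn
      obtain ⟨hn1, hn2, hn3⟩ := hn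
      refine (@Finset.mem_filter ℕ _ _ _ _).2 ⟨?_, ?_⟩
      · unfold Pst
        refine (@Finset.mem_filter ℕ _ _ _ _).2 ⟨hn1, ?_, hn3⟩
        intro h hh
        rw [mem_singleton] at hh
        subst hh
        intro p hp hQ
        obtain ⟨hp1, hp2⟩ := mem_pz.1 hp
        rcases lt_or_ge (p : ℝ) ((X : ℝ) ^ ζ) with hlt | hge
        · exact hn2 p hp2 hlt ((sg_Q F p _).1 hQ)
        · -- `p = X ^ ζ = X ^ (1 / r)`
          have h5 : (p : ℝ) ≤ (X : ℝ) ^ (1 / (r : ℝ)) := by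
            have h6 : (y : ℝ) ≤ (X : ℝ) ^ (1 / (r : ℝ)) := by
              rw [hy]
              exact Nat.floor_le (by positivity)
            exact le_trans (by exact_mod_cast hp1) h6
          have h7 : (X : ℝ) ^ (1 / (r : ℝ)) < (X : ℝ) ^ ζ := Real.rpow_lt_rpow_of_exponent_lt (by linarith) hrζ'
          linarith
      · intro p hp h
        have h5 := (pr_iff X hX _ _ hζ1 p).1 hp
        exact hn2 p h5.1 h5.2.2 h.2
    have h3 := card_le_card hsub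
    have h4 : (((Ioc Z (Z + Y)).filter (fun n => (∀ p : ℕ, p.Prime → (p : ℝ) < (X : ℝ) ^ ζ →
        ¬ (p : ℤ) ∣ F.eval ((n + s : ℕ) : ℤ)) ∧
        ∀ j, ((Ioc (n + a j) (n + b j)).filter (Sf (Poly.Q (sg F)) y)).card = k j)).card : ℝ) ≤
        (((Pst F y s a b k Z Y).filter (fun n => NoHit (pr X (1 / (r : ℝ)) ζ) (fun p => hitY F y s p n))).card : ℝ) := by
      exact_mod_cast h3
    have e1 : A * (1 / (r : ℝ) * F0) = A * F0 / r := by ring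
    have e2 : W * (3 / (1 / (r : ℝ))) = 3 * W * r := by
      rw [div_div_eq_mul_div, div_one]; ring
    rw [e1, e2] at h2
    refine h4.trans (le_trans (le_of_eq ?_) h2)
    congr!

end Pool.Agent.U832.RH
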