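import Pool.Agent.U832.RH.PrD

/-!
# Almost prime values of a polynomial and the windows around them: the law
-/

set_option autoImplicit false

namespace Pool.Agent.U832.RH

open Polynomial Finset Filter
open Pool.Agent.W123.RP Pool.Agent.H373R2.T7 Pool.Agent.W123.RU Pool.Agent.W123.RU.Poly
open Pool.Agent.TH464.PO Pool.Agent.Y879.GL
open Pool.Agent.U832.RG
open Pool.Agent.W23.DC Pool.Agent.Y882.KW

open Classical in
/-- the numbers of the almost prime values, and of the values without small prime factors, with given windows -/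
noncomputable def cntAP {J : ℕ} (F : ℤ[X]) (r₁ : ℕ) (w : ℝ) (y s : ℕ) (a b k : Fin J → ℕ) (Z Y : ℕ) : ℕ :=
  ((Ioc Z (Z + Y)).filter (fun n => ((F.eval ((n + s : ℕ) : ℤ)).natAbs.primeFactorsList.length ≤ r₁ ∧
        ∀ p : ℕ, p.Prime → p ∣ (F.eval ((n + s : ℕ) : ℤ)).natAbs → w ≤ p) ∧
        ∀ j, ((Ioc (n + a j) (n + b j)).filter (Sf (Poly.Q (sg F)) y)).card = k j)).card

open Classical in
/-- the number of the values without small prime factors, with given windows -/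
noncomputable def cntR {J : ℕ} (F : ℤ[X]) (w : ℝ) (y s : ℕ) (a b k : Fin J → ℕ) (Z Y : ℕ) : ℕ :=
  ((Ioc Z (Z + Y)).filter (fun n => (∀ p : ℕ, p.Prime → (p : ℝ) < w →
        ¬ (p : ℤ) ∣ F.eval ((n + s : ℕ) : ℤ)) ∧
        ∀ j, ((Ioc (n + a j) (n + b j)).filter (Sf (Poly.Q (sg F)) y)).card = k j)).card

lemma sg_sys (F : ℤ[X]) (hF : Irreducible F) (hd : 0 < F.natDegree) (hl : 0 < F.leadingCoeff)
    (hadm : ∀ p : ℕ, p.Prime → ∃ m : ℕ, ¬ (p : ℤ) ∣ F.eval (m : ℤ)) : Sys (sg F) where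
  irr := fun _ => hF
  deg := fun _ => hd
  lead := fun _ => hl
  inj := fun i j _ => Subsingleton.elim i j
  adm := fun p hp => by
    obtain ⟨m, hm⟩ := hadm p hp
    exact ⟨m, fun _ => hm⟩

/-- **Almost prime values and the windows around them.** -/
theorem pr_law (F : ℤ[X]) (hF : Irreducible F) (hd : 0 < F.natDegree) (hl : 0 < F.leadingCoeff)
    (hadm : ∀ p : ℕ, p.Prime → ∃ m : ℕ, ¬ (p : ℤ) ∣ F.eval (m : ℤ)) (θ τ S : ℝ) (hτ0 : 0 < τ)
    (hτθ : τ < θ) (hθ1 : θ ≤ 1) (r₁ : ℕ) (hr₁ : 9 / 8 + S / (24 / 25 * τ) ≤ r₁ + 1)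
    (hval : ∀ᶠ X : ℕ in atTop, ∀ m : ℕ, m ≤ 2 * X → ((F.eval (m : ℤ)).natAbs : ℝ) ≤ (X : ℝ) ^ S)
    (hMer : ∀ ε₁ η : ℝ, 0 < ε₁ → 0 < η → ∀ᶠ X : ℕ in atTop,
      Mer (pr X ε₁ (24 / 25 * τ)) (tt X) (fun p => (nuB (Poly.Q (sg F)) p : ℝ) / p) ε₁ (24 / 25 * τ) η)
    (K q0 : ℕ) (hSq : ∀ q : ℕ, q.Prime → q0 ≤ q → ∀ N H : ℕ,
      ((((Icc 1 H).filter (fun j : ℕ => ((q ^ 2 : ℕ) : ℤ) ∣ F.eval ((N + j : ℕ) : ℤ))).card : ℕ) : ℝ) ≤
        K * (H * (1 / (q : ℝ) ^ 2) + 1)) :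
    ∃ c Cu : ℝ, 0 < c ∧ 0 < Cu ∧ ∀ (J L : ℕ) (x₀ ε : ℝ), 0 < ε → ∃ r₀ : ℕ, ∀ r : ℕ, r₀ ≤ r →
      ∀ᶠ X : ℕ in atTop, ∀ y : ℕ, y = ⌊(X : ℝ) ^ (1 / (r : ℝ))⌋₊ → ∀ Z Y T : ℕ, Z + Y ≤ X → (X : ℝ) ^ θ ≤ Y →
      T * Vq (Poly.Q (sg F)) y ≤ x₀ → ∀ (s : ℕ) (a b k : Fin J → ℕ), Windows T s a b → (∀ j, k j ≤ L) →
      (c * ∏ j, po (k j) (((b j - a j : ℕ) : ℝ) * Vq (Poly.Q (sg F)) y) - ε) * (Y / Real.log X) ≤
        cntAP F r₁ ((X : ℝ) ^ (τ / 4)) y s a b k Z Y ∧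
      (cntR F ((X : ℝ) ^ (τ / 4)) y s a b k Z Y : ℝ) ≤
        (Cu * ∏ j, po (k j) (((b j - a j : ℕ) : ℝ) * Vq (Poly.Q (sg F)) y) + ε) * (Y / Real.log X) := by
  obtain ⟨υ, hυ⟩ : ∃ υ, υ = 24 / 25 * τ := ⟨_, rfl⟩
  obtain ⟨ζ, hζ⟩ : ∃ ζ, ζ = τ / 4 := ⟨_, rfl⟩
  have hJ := cond_A τ (8 / 9) hτ0 (by norm_num) (by norm_num)
  rw [← hυ] at hr₁ hMer hJ
  rw [← hζ] at hJ ⊢
  have hζ0 : 0 < ζ := by rw [hζ]; linarith
  have hυ0 : 0 < υ := by rw [hυ]; linarith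
  have hζυ : ζ ≤ υ := by rw [hζ, hυ]; linarith
  have hυτ : υ < τ := by rw [hυ]; linarith
  have hυ1 : υ ≤ 1 := by linarith
  obtain ⟨f0, F0, hf0, hF0, HL⟩ := lin_core τ ζ υ (8 / 9) (8 / 9 / υ) hζ0 (by rw [hζ]; linarith)
    (by rw [hζ]; linarith) (by linarith) hζυ hυτ (by norm_num) (by positivity)
    (by rw [div_mul_cancel₀ _ hυ0.ne']) hJ
  obtain ⟨v, Cv, hv, hCv, hV⟩ := V_bounds (sg F) (sg_sys F hF hd hl hadm)
  refine ⟨f0 * v, F0 * (2 * Cv), by positivity, by positivity, ?_⟩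
  intro J L x₀ ε hε
  obtain ⟨C, hC, hproc⟩ := proc_polysT 1 F.natDegree 1 1 (θ - τ) one_pos one_pos (by linarith) J L x₀
  obtain ⟨M, hM⟩ : ∃ M : ℝ, M = 6 * (1 + 8 / 9) * Cv := ⟨_, rfl⟩
  have hM0 : 0 ≤ M := by rw [hM]; positivity
  obtain ⟨r1, hr1⟩ := exists_q C hC (θ - τ) (by linarith) M (ε / 2) hM0 (by linarith) 2
  obtain ⟨r2, hr2⟩ := exists_nat_gt (26 / τ)
  refine ⟨max (max r1 r2) 2, ?_⟩
  intro r hr
  have hrr1 : r1 ≤ r := ((le_max_left _ _).trans (le_max_left _ _)).trans hr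
  have hrr2 : r2 ≤ r := ((le_max_right _ _).trans (le_max_left _ _)).trans hr
  have h2r : 2 ≤ r := (le_max_right _ _).trans hr
  have hrpos : (0 : ℝ) < r := by exact_mod_cast (by omega : 0 < r)
  obtain ⟨q, hq1, hq2⟩ := hr1 r hrr1
  have hrτ : 26 < τ * r := by
    have h1 : 26 / τ < r := hr2.trans_le (by exact_mod_cast hrr2)
    rw [div_lt_iff₀ hτ0] at h1
    linarith
  have hrζ : 1 / (r : ℝ) < ζ := by
    rw [div_lt_iff₀ hrpos, hζ]
    linarith
  have hrτυ : 1 / (r : ℝ) ≤ τ - υ := by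
    rw [div_le_iff₀ hrpos, hυ]
    linarith
  obtain ⟨η, hη, HL'⟩ := HL (1 / (r : ℝ)) (by positivity) hrζ.le hrτυ
  have hdc : ∃ Bc : ℕ, ∀ n, |((F.coeff n : ℤ) : ℝ)| ≤ Bc := by
    obtain ⟨Bc, hBc⟩ : ∃ Bc : ℕ, ∑ i ∈ F.support, |((F.coeff i : ℤ) : ℝ)| ≤ Bc := exists_nat_ge _
    refine ⟨Bc, fun n => ?_⟩
    by_cases hn : n ∈ F.support
    · exact (Finset.single_le_sum (f := fun i => |((F.coeff i : ℤ) : ℝ)|) (fun _ _ => abs_nonneg _) hn).trans hBc
    · rw [Polynomial.notMem_support_iff.1 hn]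
      simp
  obtain ⟨Bc, hBc⟩ := hdc
  have hpow : ∀ e : ℝ, 0 < e → Tendsto (fun X : ℕ => (X : ℝ) ^ e) atTop atTop := fun e he =>
    (tendsto_rpow_atTop he).comp tendsto_natCast_atTop_atTop
  have hlog0 : ∀ e : ℝ, 0 < e → Tendsto (fun X : ℕ => Real.log X / (X : ℝ) ^ e) atTop (nhds 0) := fun e he =>
    ((isLittleO_log_rpow_atTop he).tendsto_div_nhds_zero).comp tendsto_natCast_atTop_atTop
  have hK0 : (0 : ℝ) ≤ K := Nat.cast_nonneg K
  have ev1 : ∀ᶠ X : ℕ in atTop, Real.log X / (X : ℝ) ^ ζ ≤ ε / (8 * (K + 1)) :=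
    (hlog0 ζ hζ0).eventually_le_const (by positivity)
  have ev2 : ∀ᶠ X : ℕ in atTop, Real.log X / (X : ℝ) ^ (θ - υ) ≤ ε / (4 * (K + 1)) :=
    (hlog0 (θ - υ) (by linarith)).eventually_le_const (by positivity)
  have ev3 : ∀ᶠ X : ℕ in atTop, Real.log X / (X : ℝ) ^ (1 : ℝ) ≤ v / (|x₀| + 1) :=
    (hlog0 1 one_pos).eventually_le_const (by positivity)
  filter_upwards [hproc q r h2r hq1 (2 * r * Cv), hval, hMer (1 / (r : ℝ)) (η / 2) (by positivity) (by linarith),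
    ev1, ev2, ev3, (hpow ζ hζ0).eventually_ge_atTop ((q0 : ℝ) + 2),
    (hpow (1 / (2 * r : ℝ)) (by positivity)).eventually_ge_atTop (3 + 2 * (F.natDegree + 1) / η),
    eventually_ge_atTop (max 3 Bc)] with X hX hXval hXM hX1 hX2 hX3 hX4 hX5 hX6
  intro y hy Z Y T hZY hXY hTx s a b k hwin hkL
  have hX3' : 3 ≤ X := (le_max_left _ _).trans hX6
  have hXBc : Bc ≤ X := (le_max_right _ _).trans hX6
  have hXr : (3 : ℝ) ≤ X := by exact_mod_cast hX3'
  have hXpos : (0 : ℝ) < X := by linarith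
  have hX1r : (1 : ℝ) ≤ X := by linarith
  have hlX : 0 < Real.log X := Real.log_pos (by linarith)
  have hdη : 0 ≤ 2 * ((F.natDegree : ℝ) + 1) / η := by positivity
  obtain ⟨hy1, hy2, hy3, hy4⟩ := level_low r h2r X (by omega) (by linarith)
  rw [← hy] at hy1 hy2 hy3 hy4 hX
  have hy3' : (3 : ℝ) ≤ y := by linarith
  have hy3n : 3 ≤ y := by exact_mod_cast hy3'
  have hly : 0 < Real.log y := Real.log_pos (by linarith)
  obtain ⟨V, hVdef⟩ : ∃ V, V = Vq (Poly.Q (sg F)) y := ⟨_, rfl⟩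
  obtain ⟨hVl, hVu⟩ := hV y hy3n
  rw [Fintype.card_fin, pow_one] at hVl hVu
  rw [← hVdef] at hVl hVu hTx ⊢
  have hVpos : 0 < V := lt_of_lt_of_le (by positivity) hVl
  have hlyX : Real.log y ≤ Real.log X / r := by
    have h1 : (y : ℝ) ≤ (X : ℝ) ^ (1 / (r : ℝ)) := by rw [hy]; exact Nat.floor_le (by positivity)
    have h2 := Real.log_le_log (by linarith) h1
    rw [Real.log_rpow hXpos] at h2
    calc Real.log y ≤ 1 / r * Real.log X := h2
      _ = Real.log X / r := by ring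
  have hVr1 : v / Real.log X ≤ V / r := by
    rw [div_le_div_iff₀ hlX hrpos]
    have h1 : v / Real.log y * Real.log y ≤ V * Real.log y := mul_le_mul_of_nonneg_right hVl hly.le
    rw [div_mul_cancel₀ _ hly.ne'] at h1
    have h2 : V * Real.log y ≤ V * (Real.log X / r) := mul_le_mul_of_nonneg_left hlyX hVpos.le
    have h3 : v ≤ V * (Real.log X / r) := h1.trans h2
    calc v * r ≤ V * (Real.log X / r) * r := mul_le_mul_of_nonneg_right h3 hrpos.le
      _ = V * Real.log X := by field_simp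
  have hVr2 : V ≤ 2 * r * Cv / Real.log X := by
    refine hVu.trans ?_
    rw [div_le_div_iff₀ hly hlX]
    rw [div_le_iff₀ (by positivity)] at hy2
    calc Cv * Real.log X ≤ Cv * (Real.log y * (2 * r)) := mul_le_mul_of_nonneg_left hy2 hCv.le
      _ = 2 * r * Cv * Real.log y := by ring
  have hus : US 1 F.natDegree ((X : ℝ) ^ (1 : ℝ)) ((X : ℝ) ^ (1 : ℝ)) (sg F) := by
    apply us_single F hF hd.ne' F.natDegree le_rfl
    · intro n
      rw [Real.rpow_one]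
      exact (hBc n).trans (by exact_mod_cast hXBc)
    · exact hadm
  have hX' := hX (sg F) hus (by rw [← hVdef]; exact hVr2) s
  have hTX : T ≤ X := by
    have h1 : (T : ℝ) * (v / Real.log X) ≤ |x₀| := by
      have h2 : v / Real.log X ≤ V := by
        refine le_trans ?_ hVl
        apply div_le_div_of_nonneg_left hv.le hly hy3
      calc (T : ℝ) * (v / Real.log X) ≤ T * V := mul_le_mul_of_nonneg_left h2 (Nat.cast_nonneg _)
        _ ≤ x₀ := hTx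
        _ ≤ |x₀| := le_abs_self _
    rw [Real.rpow_one, div_le_div_iff₀ hXpos (by positivity)] at hX3
    have h3 : (T : ℝ) ≤ X := by
      rw [mul_div_assoc', div_le_iff₀ hlX] at h1
      have h4 : (T : ℝ) * v ≤ v * X := by nlinarith [abs_nonneg x₀]
      nlinarith
    exact_mod_cast h3
  have hs : s ≤ X := hwin.1.trans hTX
  obtain ⟨po', hpo⟩ : ∃ po' : ℝ, po' = ∏ j, po (k j) (((b j - a j : ℕ) : ℝ) * V) := ⟨_, rfl⟩
  have hpo0 : 0 ≤ po' := by
    rw [hpo]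
    exact Finset.prod_nonneg fun j _ => po_nonneg _ _ (by positivity)
  rw [← hpo]
  have hY0 : (0 : ℝ) ≤ Y := Nat.cast_nonneg Y
  have hMg : Mer (pr X (1 / (r : ℝ)) υ) (tt X) (gY F y) (1 / (r : ℝ)) υ η := by
    have h1 := mer_gY F y (pr X (1 / (r : ℝ)) υ) (tt X) (1 / (r : ℝ)) υ (η / 2) (η / 2) hXM
      (fun p hp => ((pr_iff X (by omega) _ _ hυ1 p).1 hp).1) (by linarith) (fun hyp => by
        have h2 : nuB (Poly.Q (sg F)) y ≤ 1 * F.natDegree + 1 := (us_perB hus).few y hyp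
        have h3 : (nuB (Poly.Q (sg F)) y : ℝ) ≤ F.natDegree + 1 := by
          have : ((nuB (Poly.Q (sg F)) y : ℕ) : ℝ) ≤ ((1 * F.natDegree + 1 : ℕ) : ℝ) := by exact_mod_cast h2
          push_cast at this
          linarith
        rw [div_le_iff₀ (by linarith)]
        have h4 : 2 * ((F.natDegree : ℝ) + 1) / η ≤ y := by linarith
        rw [div_le_iff₀ hη] at h4
        linarith)
    have e : η / 2 + η / 2 = η := by ring
    rwa [e] at h1
  have hcounts := pr_counts F X y r r₁ ζ υ (8 / 9) S f0 F0 η (Y * V * po') ((1 / 2) ^ q * (Y * V)) (by omega) h2r hy hy4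
    hrζ hζυ hυ0 hυ1 (by norm_num) (by norm_num at hr₁ ⊢; exact hr₁) τ (HL' X (by omega)) s Z Y a b k (by positivity)
    (by positivity) hMg (fun n hn => by
      rw [mem_Ioc] at hn
      exact hXval (n + s) (by omega)) (by
      intro T' hT' hprod
      have h1 := hX' T' Z Y hT' (by
        calc ((∏ p ∈ T', p : ℕ) : ℝ) * (X : ℝ) ^ (θ - τ) ≤ (X : ℝ) ^ τ * (X : ℝ) ^ (θ - τ) :=
              mul_le_mul_of_nonneg_right hprod (by positivity)
          _ = (X : ℝ) ^ θ := by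
              rw [← Real.rpow_add hXpos]
              congr 1
              ring
          _ ≤ Y := hXY) T {s} a b k (by rw [← hVdef]; exact hTx) (win_single hwin) hkL
      rw [card_singleton, pow_one, ← hVdef, ← hpo] at h1
      have e1 : (Y : ℝ) * GT (Poly.Q (sg F)) T' * V * po' = Y * V * po' * GT (Poly.Q (sg F)) T' := by ring
      have e2 : (1 / 2 : ℝ) ^ q * (Y * GT (Poly.Q (sg F)) T' * V) = (1 / 2) ^ q * (Y * V) * GT (Poly.Q (sg F)) T' := by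
        ring
      rwa [e1, e2] at h1)
  obtain ⟨hc1, hc2⟩ := hcounts
  have hsqb := sq_few F K q0 hSq X (by omega) ζ υ hυ1 (by linarith) (by
    have : (0 : ℝ) ≤ q0 := Nat.cast_nonneg _
    linarith) s Z Y
  -- the error of the precision
  have hWe : 3 * (1 + 8 / 9) * ((1 / 2) ^ q * (Y * V)) * r ≤ ε / 2 * (Y / Real.log X) := by
    calc 3 * (1 + 8 / 9) * ((1 / 2) ^ q * (Y * V)) * r ≤
        3 * (1 + 8 / 9) * ((1 / 2) ^ q * (Y * (2 * r * Cv / Real.log X))) * r := by gcongr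
      _ = M * ((r : ℝ) ^ 2 * (1 / 2) ^ q) * (Y / Real.log X) := by rw [hM]; ring
      _ ≤ ε / 2 * (Y / Real.log X) := mul_le_mul_of_nonneg_right hq2 (by positivity)
  have hYl : 0 ≤ Y / Real.log X := by positivity
  constructor
  · have e1 : Y * V * po' * f0 / r = po' * f0 * Y * (V / r) := by ring
    have h1 : f0 * v * po' * (Y / Real.log X) ≤ Y * V * po' * f0 / r := by
      rw [e1]
      calc f0 * v * po' * (Y / Real.log X) = po' * f0 * Y * (v / Real.log X) := by ring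
        _ ≤ po' * f0 * Y * (V / r) := mul_le_mul_of_nonneg_left hVr1 (by positivity)
    have h2 : K * (Y * (2 / (X : ℝ) ^ ζ) + (X : ℝ) ^ υ) ≤ ε / 2 * (Y / Real.log X) := by
      have g1 : K * (Y * (2 / (X : ℝ) ^ ζ)) ≤ ε / 4 * (Y / Real.log X) := by
        have g2 : 1 / (X : ℝ) ^ ζ ≤ ε / (8 * (K + 1)) / Real.log X := by
          rw [le_div_iff₀ hlX]
          calc 1 / (X : ℝ) ^ ζ * Real.log X = Real.log X / (X : ℝ) ^ ζ := by ring
            _ ≤ _ := hX1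
        calc K * (Y * (2 / (X : ℝ) ^ ζ)) = 2 * K * Y * (1 / (X : ℝ) ^ ζ) := by ring
          _ ≤ 2 * (K + 1) * Y * (ε / (8 * (K + 1)) / Real.log X) := by gcongr; linarith
          _ = ε / 4 * (Y / Real.log X) := by field_simp; ring
      have g3 : K * (X : ℝ) ^ υ ≤ ε / 4 * (Y / Real.log X) := by
        have g2 : 1 / (X : ℝ) ^ (θ - υ) ≤ ε / (4 * (K + 1)) / Real.log X := by
          rw [le_div_iff₀ hlX]
          calc 1 / (X : ℝ) ^ (θ - υ) * Real.log X = Real.log X / (X : ℝ) ^ (θ - υ) := by ring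
            _ ≤ _ := hX2
        have g4 : (X : ℝ) ^ υ = (X : ℝ) ^ θ * (1 / (X : ℝ) ^ (θ - υ)) := by
          rw [mul_one_div, eq_div_iff (by positivity), ← Real.rpow_add hXpos]
          congr 1
          ring
        calc K * (X : ℝ) ^ υ = K * ((X : ℝ) ^ θ * (1 / (X : ℝ) ^ (θ - υ))) := by rw [← g4]
          _ ≤ (K + 1) * (Y * (ε / (4 * (K + 1)) / Real.log X)) := by gcongr; linarith
          _ = ε / 4 * (Y / Real.log X) := by field_simp
      calc K * (Y * (2 / (X : ℝ) ^ ζ) + (X : ℝ) ^ υ) = K * (Y * (2 / (X : ℝ) ^ ζ)) + K * (X : ℝ) ^ υ := by ring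
        _ ≤ ε / 4 * (Y / Real.log X) + ε / 4 * (Y / Real.log X) := add_le_add g1 g3
        _ = _ := by ring
    unfold cntAP
    refine le_trans ?_ hc1
    have e3 : (f0 * v * po' - ε) * (Y / Real.log X) = f0 * v * po' * (Y / Real.log X) -
      ε / 2 * (Y / Real.log X) - ε / 2 * (Y / Real.log X) := by ring
    rw [e3]
    linarith
  · unfold cntR
    refine hc2.trans ?_
    have h1 : Y * V * po' * F0 / r ≤ F0 * (2 * Cv) * po' * (Y / Real.log X) := by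
      calc Y * V * po' * F0 / r ≤ Y * (2 * r * Cv / Real.log X) * po' * F0 / r := by gcongr
        _ = F0 * (2 * Cv) * po' * (Y / Real.log X) := by field_simp
    have h2 : 3 * ((1 / 2) ^ q * (Y * V)) * r ≤ 3 * (1 + 8 / 9) * ((1 / 2) ^ q * (Y * V)) * r := by
      gcongr
      norm_num
    have h3 : 0 ≤ ε / 2 * (Y / Real.log X) := by positivity
    have e3 : (F0 * (2 * Cv) * po' + ε) * (Y / Real.log X) = F0 * (2 * Cv) * po' * (Y / Real.log X) +
      ε / 2 * (Y / Real.log X) + ε / 2 * (Y / Real.log X) := by ring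
    rw [e3]
    linarith

end Pool.Agent.U832.RH
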