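import Pool.Agent.U832.RG.ProcLaw
import Pool.Agent.U832.RH.FuT
import Pool.Agent.U832.RH.MulE

/-!
# The joint law of the windows, under divisibility conditions at large primes
-/

set_option autoImplicit false

namespace Pool.Agent.U832.RH

open Finset Filter
open Pool.Agent.W123.RP Pool.Agent.H373R2.T7 Pool.Agent.W123.RU Pool.Agent.TH464.PO
open Pool.Agent.U832.RG

variable {J : ℕ}

/-- the density of the divisibility conditions -/
noncomputable def GT (Q : ℕ → ℕ → Prop) (S : Finset ℕ) : ℝ := ∏ p ∈ S, ((nuB Q p : ℝ) / p)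

/-- the number of classes -/
noncomputable def NT (Q : ℕ → ℕ → Prop) (S : Finset ℕ) : ℝ := ∏ p ∈ S, (nuB Q p : ℝ)

lemma GT_nonneg (Q : ℕ → ℕ → Prop) (S : Finset ℕ) : 0 ≤ GT Q S :=
  prod_nonneg fun p _ => by positivity

lemma NT_nonneg (Q : ℕ → ℕ → Prop) (S : Finset ℕ) : 0 ≤ NT Q S :=
  prod_nonneg fun p _ => by positivity

lemma NT_eq (Q : ℕ → ℕ → Prop) (S : Finset ℕ) (hS : ∀ p ∈ S, p.Prime) :
    NT Q S = GT Q S * ((∏ p ∈ S, p : ℕ) : ℝ) := by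
  unfold NT GT
  push_cast
  rw [← prod_mul_distrib]
  apply prod_congr rfl
  intro p hp
  have : (p : ℝ) ≠ 0 := by exact_mod_cast (hS p hp).ne_zero
  field_simp

open Classical in
/-- the indicator of the divisibility conditions -/
noncomputable def uT (Q₀ : ℕ → ℕ → Prop) (S : Finset ℕ) (n : ℕ) : ℝ := if ∀ p ∈ S, Q₀ p n then 1 else 0

lemma uT_nonneg (Q₀ : ℕ → ℕ → Prop) (S : Finset ℕ) (n : ℕ) : 0 ≤ uT Q₀ S n := by
  unfold uT
  split_ifs <;> norm_num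

open Classical in
/-- **Mixed binomial moments** under divisibility conditions. -/
theorem moment_multiT : ∃ C0 : ℕ, 1 ≤ C0 ∧ ∀ (c : ℕ), 1 ≤ c → ∀ (J : ℕ) (k : Fin J → ℕ) (b : ℕ),
    C0 * (((∑ j, k j) + 1) * c + 1) ≤ b → ∃ (y0 T0 : ℕ) (η' : ℝ), 0 < η' ∧ ∀ Y x y T : ℕ, y0 ≤ y →
      y ^ (16 * (C0 * b)) ≤ x → T0 ≤ T →
      ∀ Q : ℕ → ℕ → Prop, PerB Q c → (∀ p : ℕ, p.Prime → nuB Q p < p) →
      (∀ t ∈ Icc 1 T, ((((pz y).filter (fun p : ℕ => T < p ∧ CoG Q p t)).card : ℕ) : ℝ) ≤ η' * T) →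
      ∀ (Q₀ : ℕ → ℕ → Prop) (S : Finset ℕ), (∀ p n, Q₀ p n ↔ Q₀ p (n % p)) →
      (∀ p ∈ S, p.Prime ∧ y < p) →
      ∀ (B : Finset ℕ) (a d : Fin J → ℕ), Win T B a d →
      |∑ n ∈ Icc 1 Y, uT Q₀ S n * uB Q y B n * ∏ j, ((Nj Q y (a j) (d j) n).choose (k j) : ℝ) -
        Y * GT Q₀ S * (Vq Q y ^ B.card * ∏ j, (((d j - a j : ℕ) : ℝ) * Vq Q y) ^ k j / (k j).factorial)| ≤
        4 * (1 / 2) ^ b * (Y * GT Q₀ S * (Vq Q y ^ B.card * (T * Vq Q y) ^ (∑ j, k j))) +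
          T ^ (∑ j, k j) * (NT Q₀ S * √(x : ℝ)) := by
  obtain ⟨C0, hC0, hfund0⟩ := sys_fundT
  refine ⟨C0, hC0, ?_⟩
  intro c hc J k b hb
  obtain ⟨n, hn⟩ : ∃ n, n = ∑ j, k j := ⟨_, rfl⟩
  rw [← hn] at hb
  obtain ⟨x0, hfund⟩ := hfund0 ((n + 1) * c) b hb
  have hη1 : (1 / 2 : ℝ) ^ b ≤ 1 := pow_le_one₀ (by norm_num) (by norm_num)
  have hη0 : (0 : ℝ) < (1 / 2) ^ b := by positivity
  obtain ⟨w, η', T0, hη', hsing⟩ := sing_multi c k ((1 / 2) ^ b) hη0 hη1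
  refine ⟨max x0 w, T0, η', hη', ?_⟩
  intro Y x y T hy hyY hT Q hQ hadm hlarge Q₀ S hQ₀ hS B a d hwin
  have hs := hsing T hT Q hQ hadm y ((le_max_right _ _).trans hy) hlarge B a d hwin
  rw [← hn] at hs ⊢
  obtain ⟨η, hη⟩ : ∃ η : ℝ, η = (1 / 2) ^ b := ⟨_, rfl⟩
  rw [← hη] at hs hη1 hη0 ⊢
  obtain ⟨G, hG⟩ : ∃ G, G = GT Q₀ S := ⟨_, rfl⟩
  obtain ⟨G1, hG1⟩ : ∃ G1, G1 = NT Q₀ S := ⟨_, rfl⟩
  have hG0 : 0 ≤ G := by rw [hG]; exact GT_nonneg _ _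
  have hG10 : 0 ≤ G1 := by rw [hG1]; exact NT_nonneg _ _
  rw [← hG, ← hG1]
  have hβ := hwin.card
  obtain ⟨β, hβdef⟩ : ∃ β, β = B.card := ⟨_, rfl⟩
  rw [← hβdef] at hs hβ ⊢
  obtain ⟨V, hV⟩ : ∃ V, V = Vq Q y := ⟨_, rfl⟩
  have hV0 : 0 ≤ V := by rw [hV]; exact Vq_nonneg Q y
  rw [← hV] at hs ⊢
  obtain ⟨E, hE⟩ : ∃ E : ℝ, E = ∏ j, (((d j - a j : ℕ) : ℝ) * V) ^ k j / ((k j).factorial : ℝ) := ⟨_, rfl⟩
  rw [← hE] at hs ⊢
  have hE0 : 0 ≤ E := by rw [hE]; positivity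
  have hElt : E ≤ (T * V) ^ n := by
    rw [hE, hn, ← Finset.prod_pow_eq_pow_sum]
    apply Finset.prod_le_prod
    · intro j _
      positivity
    · intro j _
      have hf1 : (1 : ℝ) ≤ (k j).factorial := by exact_mod_cast Nat.factorial_pos (k j)
      have hl : ((d j - a j : ℕ) : ℝ) ≤ T := by
        have := hwin.bT j
        exact_mod_cast (by omega : d j - a j ≤ T)
      refine (div_le_self (by positivity) hf1).trans (pow_le_pow_left₀ (by positivity) ?_ _)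
      exact mul_le_mul_of_nonneg_right hl hV0
  obtain ⟨S', hS'⟩ : ∃ S', S' = ∑ H ∈ Fam a d k, Vq (QH Q (GG B H)) y := ⟨_, rfl⟩
  rw [← hS'] at hs
  obtain ⟨P, hP⟩ : ∃ P : ℝ, P = V ^ β * (T * V) ^ n := ⟨_, rfl⟩
  obtain ⟨F, hF⟩ : ∃ F : ℝ, F = V ^ β * E := ⟨_, rfl⟩
  rw [← hP, ← hF] at hs
  rw [← hP, ← hF]
  have hP0 : 0 ≤ P := by rw [hP]; positivity
  have hFP : F ≤ P := by
    rw [hF, hP]
    exact mul_le_mul_of_nonneg_left hElt (by positivity)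
  have hF0 : 0 ≤ F := by rw [hF]; positivity
  have hY0 : (0 : ℝ) ≤ Y * G := by positivity
  have hmom : ∑ n ∈ Icc 1 Y, uT Q₀ S n * uB Q y B n * ∏ j, ((Nj Q y (a j) (d j) n).choose (k j) : ℝ) =
      ∑ H ∈ Fam a d k, (((Icc 1 Y).filter (fun n => (∀ p ∈ S, Q₀ p n) ∧ Sf (QH Q (GG B H)) y n)).card : ℝ) := by
    have h1 : ∀ H ∈ Fam a d k, (((Icc 1 Y).filter (fun n => (∀ p ∈ S, Q₀ p n) ∧ Sf (QH Q (GG B H)) y n)).card : ℝ) =
        ∑ n ∈ Icc 1 Y, uT Q₀ S n * (if (∀ h ∈ GG B H, Sf Q y (n + h)) then (1 : ℝ) else 0) := by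
      intro H _
      have h2 : ∀ n ∈ Icc 1 Y, uT Q₀ S n * (if (∀ h ∈ GG B H, Sf Q y (n + h)) then (1 : ℝ) else 0) =
          if ((∀ p ∈ S, Q₀ p n) ∧ Sf (QH Q (GG B H)) y n) then (1 : ℝ) else 0 := by
        intro n _
        unfold uT
        have h3 := sf_QH Q (GG B H) y n
        by_cases h4 : ∀ p ∈ S, Q₀ p n
        · rw [if_pos h4, one_mul]
          by_cases h5 : ∀ h ∈ GG B H, Sf Q y (n + h)
          · rw [if_pos h5, if_pos ⟨h4, h3.2 h5⟩]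
          · rw [if_neg h5, if_neg (fun h => h5 (h3.1 h.2))]
        · rw [if_neg h4, zero_mul, if_neg (fun h => h4 h.1)]
      rw [Finset.sum_congr rfl h2, Finset.sum_ite, Finset.sum_const_zero, add_zero, Finset.sum_const,
        nsmul_eq_mul, mul_one]
    rw [Finset.sum_congr rfl h1, Finset.sum_comm]
    apply Finset.sum_congr rfl
    intro m _
    rw [mul_assoc, ← Finset.mul_sum]
    congr 1
    exact (count_fam B a d k (fun h => Sf Q y (m + h))).symm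
  rw [hmom]
  have h1 : |∑ H ∈ Fam a d k, (((Icc 1 Y).filter (fun n => (∀ p ∈ S, Q₀ p n) ∧ Sf (QH Q (GG B H)) y n)).card : ℝ) -
      Y * G * S'| ≤ η * (Y * G * S') + T ^ n * (G1 * √(x : ℝ)) := by
    have e : Y * G * S' = ∑ H ∈ Fam a d k, (Y : ℝ) * G * Vq (QH Q (GG B H)) y := by
      rw [hS', Finset.mul_sum]
    rw [e, ← Finset.sum_sub_distrib]
    refine (Finset.abs_sum_le_sum_abs _ _).trans ?_
    have h2 : ∀ H ∈ Fam a d k,
        |(((Icc 1 Y).filter (fun n => (∀ p ∈ S, Q₀ p n) ∧ Sf (QH Q (GG B H)) y n)).card : ℝ) -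
          Y * G * Vq (QH Q (GG B H)) y| ≤
        η * (Y * G * Vq (QH Q (GG B H)) y) + G1 * √(x : ℝ) := by
      intro H hH
      have hper := perB_QH Q c hQ (GG B H)
      have hper' : PerB (QH Q (GG B H)) ((n + 1) * c) := by
        refine ⟨hper.per, fun p hp => (hper.few p hp).trans ?_⟩
        apply Nat.mul_le_mul_right
        rw [GG_card hwin hH, ← hn, ← hβdef]
        omega
      have h3 := hfund x y ((le_max_left _ _).trans hy) hyY (QH Q (GG B H)) Q₀ hper' hQ₀ Y S hS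
      have e1 : ∏ p ∈ pz y, (1 - (nuB (QH Q (GG B H)) p : ℝ) / p) = Vq (QH Q (GG B H)) y := rfl
      have e2 : ∏ p ∈ S, ((nuB Q₀ p : ℝ) / p) = G := by rw [hG]; rfl
      have e3 : ∏ p ∈ S, (nuB Q₀ p : ℝ) = G1 := by rw [hG1]; rfl
      rw [e1, e2, e3, ← hη] at h3
      unfold Sf
      convert h3
    refine (Finset.sum_le_sum h2).trans ?_
    rw [Finset.sum_add_distrib, ← Finset.mul_sum, Finset.sum_const, nsmul_eq_mul]
    have h3 := fam_card_le (k := k) hwin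
    rw [← hn] at h3
    have h4 := mul_le_mul_of_nonneg_right h3 (mul_nonneg hG10 (Real.sqrt_nonneg (x : ℝ)))
    linarith
  have h5 : |Y * G * S' - Y * G * F| ≤ η * (Y * G * P) := by
    rw [← mul_sub, abs_mul, abs_of_nonneg hY0]
    calc (Y : ℝ) * G * |S' - F| ≤ Y * G * (η * P) := mul_le_mul_of_nonneg_left hs hY0
      _ = _ := by ring
  have h8 : 0 ≤ Y * G * P := mul_nonneg hY0 hP0
  have h6 : Y * G * S' ≤ 2 * (Y * G * P) := by
    have h7 := (abs_le.1 h5).2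
    have h9 : Y * G * F ≤ Y * G * P := mul_le_mul_of_nonneg_left hFP hY0
    have h10 : η * (Y * G * P) ≤ 1 * (Y * G * P) := mul_le_mul_of_nonneg_right hη1 h8
    linarith
  have h9 := abs_sub_le (∑ H ∈ Fam a d k,
      (((Icc 1 Y).filter (fun n => (∀ p ∈ S, Q₀ p n) ∧ Sf (QH Q (GG B H)) y n)).card : ℝ)) (Y * G * S') (Y * G * F)
  have h10 : η * (Y * G * S') ≤ η * (2 * (Y * G * P)) :=
    mul_le_mul_of_nonneg_left h6 hη0.le
  have h11 : 0 ≤ η * (Y * G * P) := mul_nonneg hη0.le h8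
  calc _ ≤ _ := h9
    _ ≤ η * (2 * (Y * G * P)) + T ^ n * (G1 * √(x : ℝ)) + η * (Y * G * P) := by linarith
    _ ≤ _ := by linarith

open Classical in
/-- the number of the `n` in `(Z, Z + Y]` with a given pattern of windows and divisibility conditions -/
noncomputable def PatT (Q₀ : ℕ → ℕ → Prop) (S : Finset ℕ) (g : ℕ → Prop) (B : Finset ℕ) (a b k : Fin J → ℕ)
    (Z Y : ℕ) : ℕ :=
  ((Ioc Z (Z + Y)).filter (fun n => (∀ p ∈ S, Q₀ p n) ∧ (∀ h ∈ B, g (n + h)) ∧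
    ∀ j, ((Ioc (n + a j) (n + b j)).filter g).card = k j)).card

open Classical in
lemma PatT_eq (Q₀ : ℕ → ℕ → Prop) (S : Finset ℕ) (Q : ℕ → ℕ → Prop) (y : ℕ) (B : Finset ℕ) (a b k : Fin J → ℕ)
    (Z Y : ℕ) :
    (PatT Q₀ S (Sf Q y) B a b k Z Y : ℝ) = ∑ n ∈ Icc 1 Y, uT (Qt Q₀ Z) S n * uB (Qt Q Z) y B n *
      (if ∀ j, Nj (Qt Q Z) y (a j) (b j) n = k j then (1 : ℝ) else 0) := by
  have h1 : ∀ n ∈ Icc 1 Y, uT (Qt Q₀ Z) S n * uB (Qt Q Z) y B n *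
      (if ∀ j, Nj (Qt Q Z) y (a j) (b j) n = k j then (1 : ℝ) else 0) =
      if ((∀ p ∈ S, Qt Q₀ Z p n) ∧ (∀ h ∈ B, Sf (Qt Q Z) y (n + h)) ∧
        ∀ j, Nj (Qt Q Z) y (a j) (b j) n = k j) then (1 : ℝ) else 0 := by
    intro n _
    unfold uB uT
    by_cases h0 : ∀ p ∈ S, Qt Q₀ Z p n
    · rw [if_pos h0, one_mul]
      by_cases h1 : ∀ h ∈ B, Sf (Qt Q Z) y (n + h)
      · rw [if_pos h1, one_mul]
        by_cases h2 : ∀ j, Nj (Qt Q Z) y (a j) (b j) n = k j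
        · rw [if_pos h2, if_pos ⟨h0, h1, h2⟩]
        · rw [if_neg h2, if_neg (fun h => h2 h.2.2)]
      · rw [if_neg h1, zero_mul, if_neg (fun h => h1 h.2.1)]
    · rw [if_neg h0, zero_mul, zero_mul, if_neg (fun h => h0 h.1)]
  rw [Finset.sum_congr rfl h1, Finset.sum_ite, Finset.sum_const_zero, add_zero, Finset.sum_const,
    nsmul_eq_mul, mul_one]
  congr 1
  unfold PatT
  have hN : ∀ n j, ((Ioc (n + Z + a j) (n + Z + b j)).filter (Sf Q y)).card = Nj (Qt Q Z) y (a j) (b j) n := by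
    intro n j
    unfold Nj
    symm
    apply Finset.card_bij (fun h _ => n + Z + h)
    · intro h hh
      rw [mem_filter, mem_Ioc] at hh
      rw [mem_filter, mem_Ioc]
      refine ⟨by omega, ?_⟩
      have := (sf_Qt Q Z y (n + h)).1 hh.2
      rwa [show n + h + Z = n + Z + h by ring] at this
    · intro x _ y _ hxy
      omega
    · intro m hm
      rw [mem_filter, mem_Ioc] at hm
      refine ⟨m - (n + Z), ?_, by omega⟩
      rw [mem_filter, mem_Ioc]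
      refine ⟨by omega, ?_⟩
      rw [sf_Qt]
      rw [show n + (m - (n + Z)) + Z = m by omega]
      exact hm.2
  have hB : ∀ n, (∀ h ∈ B, Sf Q y (n + Z + h)) ↔ (∀ h ∈ B, Sf (Qt Q Z) y (n + h)) := by
    intro n
    apply forall₂_congr
    intro h _
    rw [sf_Qt, show n + h + Z = n + Z + h by ring]
  symm
  apply Finset.card_bij (fun n _ => n + Z)
  · intro n hn
    rw [mem_filter, mem_Icc] at hn
    rw [mem_filter, mem_Ioc]
    refine ⟨by omega, hn.2.1, (hB n).2 hn.2.2.1, fun j => ?_⟩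
    rw [hN]
    exact hn.2.2.2 j
  · intro a _ b _ hab
    omega
  · intro n hn
    rw [mem_filter, mem_Ioc] at hn
    have e : n - Z + Z = n := by omega
    refine ⟨n - Z, ?_, e⟩
    rw [mem_filter, mem_Icc]
    refine ⟨by omega, ?_, ?_, fun j => ?_⟩
    · intro p hp
      have := hn.2.1 p hp
      unfold Qt
      rwa [e]
    · rw [← hB, e]
      exact hn.2.2.1
    · rw [← hN, e]
      exact hn.2.2.2 j

open Classical in
/-- **The joint law of several windows** around a sifted integer (`B` has one element) or an arbitrary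
integer (`B` is empty), under divisibility conditions at large primes, with exponentially small errors. -/
theorem gen_procT (c : ℕ) (hc : 1 ≤ c) (J L : ℕ) (x0 : ℝ) :
    ∃ C : ℕ, 1 ≤ C ∧ ∃ (κ x1 : ℝ), 0 < κ ∧ 0 < x1 ∧ ∀ s : ℕ, ∃ (y0 T0 R0 : ℕ) (η' : ℝ), 0 < η' ∧
      ∀ (Q Q₀ : ℕ → ℕ → Prop) (S : Finset ℕ) (Z Y x y : ℕ), PerB Q c → PerB Q₀ c →
      (∀ p : ℕ, p.Prime → nuB Q p < p) → y0 ≤ y → (∀ p ∈ S, p.Prime ∧ y < p) →
      y ^ (C * (s + 1)) ≤ x → (∏ p ∈ S, p) * x ≤ Y → Vq Q y ≤ κ →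
      (∀ T : ℕ, κ ≤ T * Vq Q y → T * Vq Q y ≤ x1 → T0 ≤ T ∧ T ^ R0 ≤ x ∧ ∀ t ∈ Icc 1 T,
        ((((pz y).filter (fun p : ℕ => T < p ∧ CoG Q p t)).card : ℕ) : ℝ) ≤ η' * T) →
      ∀ (T : ℕ) (B : Finset ℕ) (a b k : Fin J → ℕ), T * Vq Q y ≤ x0 → Win T B a b → (∀ j, k j ≤ L) →
        |(PatT Q₀ S (Sf Q y) B a b k Z Y : ℝ) -
          Y * GT Q₀ S * Vq Q y ^ B.card * ∏ j, po (k j) (((b j - a j : ℕ) : ℝ) * Vq Q y)| ≤
          (1 / 2) ^ s * (Y * GT Q₀ S * Vq Q y ^ B.card) := by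
  obtain ⟨X0, hX0⟩ : ∃ X0 : ℝ, X0 = max x0 1 := ⟨_, rfl⟩
  have hX1 : 1 ≤ X0 := by rw [hX0]; exact le_max_right _ _
  have hxX : x0 ≤ X0 := by rw [hX0]; exact le_max_left _ _
  obtain ⟨C1, hC11, hlaw⟩ := multi_lawE J X0 (by linarith) L
  obtain ⟨C0, hC0, hmom0⟩ := moment_multiT
  obtain ⟨M0, hM0⟩ := two_pow_ge X0
  -- the exponent of the precision of the moments is `CC * (s + 1)`
  obtain ⟨CC, hCC⟩ : ∃ CC, CC = C0 * ((J * C1 + 1) * c + 1) + C1 + 3 + M0 * (J * C1) := ⟨_, rfl⟩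
  refine ⟨16 * (C0 * CC), ?_, 1 / 2, X0, by norm_num, by linarith, ?_⟩
  · have : 1 ≤ C0 * CC := Nat.mul_pos hC0 (by omega)
    omega
  intro s
  obtain ⟨q, hq⟩ : ∃ q, q = s + 1 := ⟨_, rfl⟩
  have hq1 : 1 ≤ q := by omega
  obtain ⟨R, hR⟩ : ∃ R, R = C1 * q := ⟨_, rfl⟩
  obtain ⟨b, hb⟩ : ∃ b, b = CC * q := ⟨_, rfl⟩
  have hbq : C0 * ((J * R + 1) * c + 1) + R + 3 + M0 * (J * R) ≤ b := by
    have h1 : C0 * ((J * R + 1) * c + 1) ≤ (C0 * ((J * C1 + 1) * c + 1)) * q := by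
      have e : (C0 * ((J * C1 + 1) * c + 1)) * q = C0 * ((J * (C1 * q) + q) * c + q) := by ring
      rw [e, hR]
      gcongr
    have h2 : (3 : ℕ) ≤ 3 * q := by omega
    have e : CC * q = (C0 * ((J * C1 + 1) * c + 1)) * q + C1 * q + 3 * q + M0 * (J * (C1 * q)) := by
      rw [hCC]; ring
    rw [hb, e, ← hR]
    omega
  have hbk : ∀ k : Fin J → ℕ, (∀ j, k j ≤ R) → C0 * (((∑ j, k j) + 1) * c + 1) ≤ b := by
    intro k hk
    have hn : ∑ j, k j ≤ J * R := by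
      calc ∑ j, k j ≤ ∑ _j : Fin J, R := Finset.sum_le_sum fun j _ => hk j
        _ = J * R := by simp
    have h1 : C0 * (((∑ j, k j) + 1) * c + 1) ≤ C0 * ((J * R + 1) * c + 1) := by gcongr
    omega
  choose y0 T0 η' hη' hmom using fun k : {k : Fin J → ℕ // ∀ j, k j ≤ R} => hmom0 c hc J k.1 b (hbk k.1 k.2)
  obtain ⟨η, hη⟩ : ∃ η : ℝ, η = (1 / 2) ^ R := ⟨_, rfl⟩
  have hηpos : 0 < η := by rw [hη]; positivity
  obtain ⟨y1, hy1⟩ : ∃ y1 : ℕ, (4 / η) ^ 4 ≤ y1 := exists_nat_ge _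
  have hfin : ∃ (yb Tb : ℕ) (η0 : ℝ), 0 < η0 ∧ ∀ k : {k : Fin J → ℕ // ∀ j, k j ≤ R},
      y0 k ≤ yb ∧ T0 k ≤ Tb ∧ η0 ≤ η' k := by
    have hf : Finite {k : Fin J → ℕ // ∀ j, k j ≤ R} := by
      have h1 : {k : Fin J → ℕ | ∀ j, k j ≤ R}.Finite := by
        have : {k : Fin J → ℕ | ∀ j, k j ≤ R} ⊆ ↑(Fintype.piFinset (fun _ : Fin J => range (R + 1))) := by
          intro k hk
          rw [mem_coe, Fintype.mem_piFinset]
          intro j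
          rw [mem_range]
          have := hk j
          omega
        exact (Finset.finite_toSet _).subset this
      exact h1.to_subtype
    have := Fintype.ofFinite {k : Fin J → ℕ // ∀ j, k j ≤ R}
    have hne : (univ : Finset {k : Fin J → ℕ // ∀ j, k j ≤ R}).Nonempty :=
      ⟨⟨fun _ => 0, fun _ => Nat.zero_le _⟩, mem_univ _⟩
    obtain ⟨k0, hk0, hmin⟩ := Finset.exists_min_image univ η' hne
    exact ⟨∑ k, y0 k, ∑ k, T0 k, η' k0, hη' k0, fun k =>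
      ⟨Finset.single_le_sum (fun _ _ => Nat.zero_le _) (mem_univ k),
        Finset.single_le_sum (fun _ _ => Nat.zero_le _) (mem_univ k), hmin k (mem_univ k)⟩⟩
  obtain ⟨yb, Tb, η0, hη00, hbd⟩ := hfin
  refine ⟨yb + y1 + 1, Tb + 1, 4 * (J * R + 1), η0, hη00, ?_⟩
  intro Q Q₀ S Z Y x y hQ hQ₀ hadm hy hS hyY hEx hVκ hT T B a d k hTx hwin hk
  obtain ⟨V, hV⟩ : ∃ V, V = Vq Q y := ⟨_, rfl⟩
  have hVpos : 0 < V := by rw [hV]; exact Vq_pos Q hadm y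
  have hV1 : V ≤ 1 := by rw [hV]; exact Vq_le_one Q y
  rw [← hV] at hTx hT hVκ ⊢
  obtain ⟨T', hT'⟩ : ∃ T' : ℕ, T' = ⌊X0 / V⌋₊ := ⟨_, rfl⟩
  have hXV : 0 ≤ X0 / V := by positivity
  have hT'1 : (T' : ℝ) * V ≤ X0 := by
    have h1 : (T' : ℝ) ≤ X0 / V := by rw [hT']; exact Nat.floor_le hXV
    rwa [le_div_iff₀ hVpos] at h1
  have hT'2 : 1 / 2 ≤ (T' : ℝ) * V := by
    have h1 : X0 / V < T' + 1 := by rw [hT']; exact Nat.lt_floor_add_one _
    rw [div_lt_iff₀ hVpos] at h1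
    linarith
  have hTT' : T ≤ T' := by
    rw [hT']
    apply Nat.le_floor
    rw [le_div_iff₀ hVpos]
    linarith
  obtain ⟨hT0, hTR, hlarge⟩ := hT T' hT'2 hT'1
  have hwin' := hwin.mono hTT'
  have hy1' : 1 ≤ y := by omega
  have hT1 : 1 ≤ T' := by omega
  have hCCq : 1 ≤ 16 * (C0 * CC) * (s + 1) := by
    have : 1 ≤ C0 * CC := Nat.mul_pos hC0 (by omega)
    have : 1 ≤ 16 * (C0 * CC) := by omega
    exact Nat.mul_pos this (by omega)
  have hyx : y ≤ x := by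
    calc y = y ^ 1 := (pow_one y).symm
      _ ≤ y ^ (16 * (C0 * CC) * (s + 1)) := Nat.pow_le_pow_right hy1' hCCq
      _ ≤ x := hyY
  have hyb : y ^ (16 * (C0 * b)) ≤ x := by
    have e : 16 * (C0 * b) = 16 * (C0 * CC) * (s + 1) := by rw [hb, hq]; ring
    rw [e]
    exact hyY
  obtain ⟨E, hE⟩ : ∃ E : ℕ, E = ∏ p ∈ S, p := ⟨_, rfl⟩
  have hNT := NT_eq Q₀ S (fun p hp => (hS p hp).1)
  rw [← hE] at hEx hNT
  obtain ⟨G, hG⟩ : ∃ G, G = GT Q₀ S := ⟨_, rfl⟩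
  have hG0 : 0 ≤ G := by rw [hG]; exact GT_nonneg _ _
  rw [← hG] at hNT ⊢
  have hx1 : (4 / η) ^ 4 ≤ (x : ℝ) := hy1.trans (by exact_mod_cast (by omega : y1 ≤ x))
  have hxpos : (0 : ℝ) < x := lt_of_lt_of_le (by positivity) hx1
  have hs4 : 4 / η ≤ √(√(x : ℝ)) := by
    apply Real.le_sqrt_of_sq_le
    apply Real.le_sqrt_of_sq_le
    calc ((4 / η) ^ 2) ^ 2 = (4 / η) ^ 4 := by ring
      _ ≤ (x : ℝ) := hx1
  have hT4 : (T' : ℝ) ^ (J * R + 1) ≤ √(√(x : ℝ)) := by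
    apply Real.le_sqrt_of_sq_le
    apply Real.le_sqrt_of_sq_le
    calc (((T' : ℝ) ^ (J * R + 1)) ^ 2) ^ 2 = (T' : ℝ) ^ (4 * (J * R + 1)) := by
          rw [← pow_mul, ← pow_mul]
          congr 1
          ring
      _ ≤ x := by exact_mod_cast hTR
  obtain ⟨β, hβ⟩ : ∃ β, β = B.card := ⟨_, rfl⟩
  have hβ1 : β ≤ 1 := by rw [hβ]; exact hwin.card
  rw [← hβ]
  have hVβ : V ≤ V ^ β := by
    calc V = V ^ 1 := (pow_one V).symm
      _ ≤ V ^ β := pow_le_pow_of_le_one hVpos.le hV1 hβ1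
  have hVβ0 : 0 < V ^ β := by positivity
  have hExr : (E : ℝ) * x ≤ Y := by exact_mod_cast hEx
  have hTY : (T' : ℝ) ^ (J * R) * (NT Q₀ S * √(x : ℝ)) ≤ η / 2 * (Y * G * V ^ β) := by
    have e1 : √(√(x : ℝ)) * √(√(x : ℝ)) = √(x : ℝ) := Real.mul_self_sqrt (Real.sqrt_nonneg _)
    have e2 : √(x : ℝ) * √(x : ℝ) = x := Real.mul_self_sqrt hxpos.le
    have h1 : (T' : ℝ) ^ (J * R + 1) * (4 / η) ≤ √(x : ℝ) := by
      rw [← e1]
      exact mul_le_mul hT4 hs4 (by positivity) (Real.sqrt_nonneg _)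
    have h2 : (T' : ℝ) ^ (J * R) ≤ (T' : ℝ) ^ (J * R) * (2 * (T' * V)) := by
      apply le_mul_of_one_le_right (by positivity)
      linarith
    have h3 : (T' : ℝ) ^ (J * R) * √(x : ℝ) ≤ η / 2 * (x * V) := by
      calc (T' : ℝ) ^ (J * R) * √(x : ℝ) ≤ ((T' : ℝ) ^ (J * R) * (2 * (T' * V))) * √(x : ℝ) :=
            mul_le_mul_of_nonneg_right h2 (Real.sqrt_nonneg _)
        _ = η / 2 * ((T' : ℝ) ^ (J * R + 1) * (4 / η)) * (√(x : ℝ) * V) := by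
            rw [pow_succ]
            field_simp
            ring
        _ ≤ η / 2 * √(x : ℝ) * (√(x : ℝ) * V) := by gcongr
        _ = η / 2 * ((√(x : ℝ) * √(x : ℝ)) * V) := by ring
        _ = η / 2 * (x * V) := by rw [e2]
    calc (T' : ℝ) ^ (J * R) * (NT Q₀ S * √(x : ℝ)) = G * E * ((T' : ℝ) ^ (J * R) * √(x : ℝ)) := by
          rw [hNT]; ring
      _ ≤ G * E * (η / 2 * (x * V)) := mul_le_mul_of_nonneg_left h3 (by positivity)
      _ = η / 2 * ((E * x) * G * V) := by ring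
      _ ≤ η / 2 * (Y * G * V ^ β) := by gcongr
  have hPerQ := perB_Qt Q c hQ Z
  have hPerQ₀ := perB_Qt Q₀ c hQ₀ Z
  have hVQ : Vq (Qt Q Z) y = V := by rw [Vq_Qt Q c hQ, hV]
  have hGQ : GT (Qt Q₀ Z) S = G := by
    rw [hG]
    unfold GT
    exact Finset.prod_congr rfl fun p _ => by rw [nuB_Qt Q₀ c hQ₀]
  have hNQ : NT (Qt Q₀ Z) S = NT Q₀ S := by
    unfold NT
    exact Finset.prod_congr rfl fun p _ => by rw [nuB_Qt Q₀ c hQ₀]
  have hlen : ∀ j, ((d j - a j : ℕ) : ℝ) ≤ T' := by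
    intro j
    have := hwin'.bT j
    exact_mod_cast (by omega : d j - a j ≤ T')
  have hmain := hlaw s 0 (Icc 1 Y) (fun n => uT (Qt Q₀ Z) S n * uB (Qt Q Z) y B n)
    (fun j => Nj (Qt Q Z) y (a j) (d j))
    (Y * G * V ^ β) (Y * G * V ^ β) (fun j => ((d j - a j : ℕ) : ℝ) * V) (by positivity)
    (fun n _ => mul_nonneg (uT_nonneg _ _ _) (by unfold uB; split_ifs <;> norm_num)) (fun j => by positivity)
    (fun j => (mul_le_mul_of_nonneg_right (hlen j) hVpos.le).trans hT'1) (by positivity) (by simp) ?_ k hk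
  · rw [PatT_eq]
    exact hmain
  · intro l hl
    have hsq : C1 * (s + 0 + 1) = R := by rw [hR, hq]
    rw [hsq] at hl ⊢
    obtain ⟨g1, g2, g3⟩ := hbd ⟨l, hl⟩
    have h1 := hmom ⟨l, hl⟩ Y x y T' (by omega) hyb (by omega) (Qt Q Z) hPerQ (fun p hp => by
        rw [nuB_Qt Q c hQ]
        exact hadm p hp) (fun t ht => by
        refine le_trans ?_ ((hlarge t ht).trans (mul_le_mul_of_nonneg_right g3 (Nat.cast_nonneg _)))
        have : ((pz y).filter (fun p : ℕ => T' < p ∧ CoG (Qt Q Z) p t)).card ≤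
            ((pz y).filter (fun p : ℕ => T' < p ∧ CoG Q p t)).card := by
          apply card_le_card
          intro p hp
          rw [mem_filter] at hp ⊢
          obtain ⟨h1, h2, m, h3, h4⟩ := hp
          refine ⟨h1, h2, m + Z, h3, ?_⟩
          unfold Qt at h4
          rwa [show m + t + Z = m + Z + t by ring] at h4
        exact_mod_cast this) (Qt Q₀ Z) S hPerQ₀.per hS B a d hwin'
    rw [hVQ, ← hβ, hGQ, hNQ] at h1
    have hn : ∑ j, l j ≤ J * R := by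
      calc ∑ j, l j ≤ ∑ _j : Fin J, R := Finset.sum_le_sum fun j _ => hl j
        _ = J * R := by simp
    have h2 : ((T' : ℝ) * V) ^ (∑ j, l j) ≤ (2 ^ M0) ^ (J * R) := by
      calc ((T' : ℝ) * V) ^ (∑ j, l j) ≤ X0 ^ (∑ j, l j) := pow_le_pow_left₀ (by positivity) hT'1 _
        _ ≤ X0 ^ (J * R) := pow_le_pow_right₀ hX1 hn
        _ ≤ (2 ^ M0) ^ (J * R) := pow_le_pow_left₀ (by linarith) hM0 _
    have h3 : (T' : ℝ) ^ (∑ j, l j) * (NT Q₀ S * √(x : ℝ)) ≤ η / 2 * (Y * G * V ^ β) := by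
      refine le_trans ?_ hTY
      apply mul_le_mul_of_nonneg_right _ (mul_nonneg (NT_nonneg _ _) (Real.sqrt_nonneg _))
      exact pow_le_pow_right₀ (by exact_mod_cast hT1) hn
    have h5 : 4 * (1 / 2 : ℝ) ^ b * (2 ^ M0) ^ (J * R) ≤ η / 2 := by
      have e1 : (1 / 2 : ℝ) ^ b ≤ (1 / 2) ^ (R + 3 + M0 * (J * R)) :=
        pow_le_pow_of_le_one (by norm_num) (by norm_num) (by omega)
      have e2 : (1 / 2 : ℝ) ^ (M0 * (J * R)) * (2 ^ M0) ^ (J * R) = 1 := by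
        rw [← pow_mul, ← mul_pow]
        norm_num
      calc 4 * (1 / 2 : ℝ) ^ b * (2 ^ M0) ^ (J * R) ≤ 4 * (1 / 2) ^ (R + 3 + M0 * (J * R)) * (2 ^ M0) ^ (J * R) := by
            gcongr
        _ = 4 * (1 / 2) ^ (R + 3) * ((1 / 2 : ℝ) ^ (M0 * (J * R)) * (2 ^ M0) ^ (J * R)) := by
            rw [pow_add (1 / 2 : ℝ) (R + 3)]; ring
        _ = η / 2 := by
            rw [e2, hη, pow_add]; ring
    have h4 : 4 * (1 / 2 : ℝ) ^ b * (Y * G * (V ^ β * ((T' : ℝ) * V) ^ (∑ j, l j))) ≤ η / 2 * (Y * G * V ^ β) := by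
      calc 4 * (1 / 2 : ℝ) ^ b * (Y * G * (V ^ β * ((T' : ℝ) * V) ^ (∑ j, l j))) ≤
          4 * (1 / 2 : ℝ) ^ b * (Y * G * (V ^ β * (2 ^ M0) ^ (J * R))) := by
            gcongr
        _ = (4 * (1 / 2 : ℝ) ^ b * (2 ^ M0) ^ (J * R)) * (Y * G * V ^ β) := by ring
        _ ≤ η / 2 * (Y * G * V ^ β) := mul_le_mul_of_nonneg_right h5 (by positivity)
    have e : (Y : ℝ) * G * V ^ β * ∏ j, ((((d j - a j : ℕ) : ℝ) * V) ^ l j / ((l j).factorial : ℝ)) =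
        Y * G * (V ^ β * ∏ j, ((((d j - a j : ℕ) : ℝ) * V) ^ l j / ((l j).factorial : ℝ))) := by ring
    rw [← hη, e]
    refine h1.trans ?_
    have h6 : η / 2 * (Y * G * V ^ β) + η / 2 * (Y * G * V ^ β) = η * (Y * G * V ^ β) := by ring
    rw [← h6]
    exact add_le_add h4 h3

end Pool.Agent.U832.RH
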